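import Mathlib

/-! Primes in dyadic ranges, growth estimates, integer points in intervals. -/

open Finset Filter Topology

namespace Pool.Agent.H792Z.MK

/-- primes in the dyadic range -/
def PR (j : ℕ) : Finset ℕ := (Ioc (2 ^ j) (2 ^ (j + 1))).filter Nat.Prime

theorem pi_two_pow (s : ℕ) (hs : 1 ≤ s) :
    (2 : ℝ) ^ s - (s + 1) ≤ (Nat.primeCounting (2 ^ s) : ℝ) * s := by
  have hs' : (1 : ℝ) ≤ s := by exact_mod_cast hs
  have h3 := Chebyshev.pi_ge (2 ^ s)
  have hl : 0 < Real.log 2 := Real.log_pos (by norm_num)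
  have h4 : Real.log ((2 ^ s : ℕ) : ℝ) = s * Real.log 2 := by push_cast; rw [Real.log_pow]
  have h5 : Real.log (((2 ^ s : ℕ) : ℝ) + 1) ≤ (s + 1) * Real.log 2 := by
    have : ((s : ℝ) + 1) * Real.log 2 = Real.log (2 ^ (s + 1)) := by
      rw [Real.log_pow]; push_cast; ring
    rw [this]
    apply Real.log_le_log (by positivity)
    push_cast
    have : (1 : ℝ) ≤ 2 ^ s := one_le_pow₀ (by norm_num)
    rw [pow_succ]; linarith
  rw [h4, div_le_iff₀ (by positivity)] at h3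
  have h6 : ((2 : ℝ) ^ s - (s + 1)) * Real.log 2 ≤
      ((Nat.primeCounting (2 ^ s) : ℝ) * s) * Real.log 2 := by
    push_cast at h3 h5
    nlinarith
  exact le_of_mul_le_mul_right h6 hl

theorem primes_dyadic (M : ℕ) : ∃ j, M ≤ j ∧ (2 : ℝ) ^ j ≤ 16 * (j : ℝ) ^ 2 * (PR j).card := by
  by_contra hcon
  push Not at hcon
  obtain ⟨t, ht⟩ : ∃ t, t = M + 4 := ⟨_, rfl⟩
  have ht4 : (4 : ℝ) ≤ t := by rw [ht]; push_cast; linarith [(Nat.cast_nonneg M : (0 : ℝ) ≤ M)]
  have key : ∀ i, (Nat.primeCounting (2 ^ (t + i)) : ℝ) ≤ 2 ^ t + 2 ^ (t + i) / (16 * t ^ 2) := by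
    intro i
    induction i with
    | zero =>
      have h1 : Nat.primeCounting (2 ^ t) ≤ 2 ^ t := by
        rw [← Nat.primesLE_card_eq_primeCounting]
        refine (card_le_card (t := Icc 1 (2 ^ t)) fun p hp => ?_).trans (by simp)
        rw [Nat.mem_primesLE] at hp
        exact mem_Icc.2 ⟨hp.2.pos, hp.1⟩
      have h2 : (Nat.primeCounting (2 ^ t) : ℝ) ≤ 2 ^ t := by exact_mod_cast h1
      have h3 : (0 : ℝ) ≤ 2 ^ (t + 0) / (16 * t ^ 2) := by positivity
      rw [Nat.add_zero] at *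
      linarith
    | succ i ih =>
      have h1 : Nat.primeCounting (2 ^ (t + i + 1)) ≤ Nat.primeCounting (2 ^ (t + i)) +
          (PR (t + i)).card := by
        rw [← Nat.primesLE_card_eq_primeCounting, ← Nat.primesLE_card_eq_primeCounting]
        refine (card_le_card fun p hp => ?_).trans (card_union_le _ _)
        rw [Nat.mem_primesLE] at hp
        rw [mem_union, Nat.mem_primesLE, PR, mem_filter, mem_Ioc]
        by_cases h : p ≤ 2 ^ (t + i)
        · exact Or.inl ⟨h, hp.2⟩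
        · exact Or.inr ⟨⟨by omega, hp.1⟩, hp.2⟩
      have h2 : (Nat.primeCounting (2 ^ (t + i + 1)) : ℝ) ≤ Nat.primeCounting (2 ^ (t + i)) +
          (PR (t + i)).card := by exact_mod_cast h1
      have h3 := hcon (t + i) (by omega)
      have h4 : ((PR (t + i)).card : ℝ) ≤ 2 ^ (t + i) / (16 * t ^ 2) := by
        rw [le_div_iff₀ (by positivity)]
        refine le_trans ?_ h3.le
        rw [mul_comm]
        gcongr
        push_cast; linarith [(Nat.cast_nonneg i : (0 : ℝ) ≤ i)]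
      have h5 : (2 : ℝ) ^ (t + (i + 1)) / (16 * t ^ 2) =
          2 ^ (t + i) / (16 * t ^ 2) + 2 ^ (t + i) / (16 * t ^ 2) := by
        rw [← add_assoc, pow_succ]; ring
      rw [h5, ← add_assoc t]
      linarith
  have h1 := key t
  have h2 := pi_two_pow (t + t) (by omega)
  have h3 : 4 * t ≤ 2 ^ t := by
    rw [ht]
    clear * -
    induction M with
    | zero => norm_num
    | succ m ih => rw [show m + 1 + 4 = (m + 4) + 1 by ring, pow_succ]; omega
  have h4 : 4 * (t : ℝ) ≤ 2 ^ t := by exact_mod_cast h3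
  push_cast at h2
  rw [pow_add (2 : ℝ)] at h1 h2
  set y : ℝ := 2 ^ t with hy
  have h5 : (y + y * y / (16 * t ^ 2)) * (t + t) ≤ y * y / 2 + y * y / 32 := by
    have e : (y + y * y / (16 * t ^ 2)) * (t + t) = 2 * t * y + y * y / (8 * t) := by
      field_simp; ring
    rw [e]
    have : y * y / (8 * t) ≤ y * y / 32 := by gcongr; linarith
    nlinarith
  have h6 : (Nat.primeCounting (2 ^ (t + t)) : ℝ) * (t + t) ≤
      (y + y * y / (16 * t ^ 2)) * (t + t) := by gcongr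
  have h7 : 16 * y ≤ y * y := by nlinarith
  linarith

theorem ev_pow (K : ℝ) (d : ℕ) : ∀ᶠ j : ℕ in atTop, K * (j : ℝ) ^ d ≤ 2 ^ j := by
  have h1 := (tendsto_pow_const_div_const_pow_of_one_lt d (r := 2) (by norm_num)).const_mul K
  rw [mul_zero] at h1
  filter_upwards [h1.eventually (gt_mem_nhds one_pos)] with j hj
  rw [← mul_div_assoc, div_lt_one (by positivity)] at hj
  exact hj.le

theorem ev_geo (K : ℝ) (hK : 0 ≤ K) (d m : ℕ) (hm : 1 ≤ m) (ν : ℝ) (h0 : 0 < ν) (h1 : ν < 1) :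
    ∀ᶠ j : ℕ in atTop, K * (j : ℝ) ^ d * ν ^ (j / m) < 1 := by
  have h2 := (tendsto_pow_const_mul_const_pow_of_abs_lt_one d (r := ν)
    (by rw [abs_of_pos h0]; exact h1)).const_mul (K * m ^ d / ν)
  rw [mul_zero] at h2
  have h3 : Tendsto (fun j : ℕ => j / m + 1) atTop atTop :=
    (tendsto_add_atTop_nat 1).comp (Nat.tendsto_div_const_atTop (by omega))
  filter_upwards [(h2.comp h3).eventually (gt_mem_nhds one_pos)] with j hj
  refine lt_of_le_of_lt ?_ hj
  simp only [Function.comp]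
  have h4 : j ≤ m * (j / m + 1) := (Nat.lt_mul_div_succ j (by omega)).le
  have h5 : (j : ℝ) ≤ m * ((j / m + 1 : ℕ) : ℝ) := by exact_mod_cast h4
  calc K * (j : ℝ) ^ d * ν ^ (j / m) ≤ K * (m * ((j / m + 1 : ℕ) : ℝ)) ^ d * ν ^ (j / m) := by gcongr
    _ = _ := by rw [mul_pow, pow_succ]; field_simp

theorem card_Icc_ge (u v : ℝ) : v - u - 1 ≤ ((Icc ⌈u⌉ ⌊v⌋).card : ℝ) := by
  rw [Int.card_Icc]
  have h1 := Int.ceil_lt_add_one u
  have h2 := Int.lt_floor_add_one v
  have h3 : ((⌊v⌋ + 1 - ⌈u⌉ : ℤ) : ℝ) ≤ (((⌊v⌋ + 1 - ⌈u⌉).toNat : ℤ) : ℝ) := by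
    exact_mod_cast Int.self_le_toNat _
  push_cast at h3
  linarith

theorem dep_seq {α : Type*} (I : ℕ → α → Prop) (R : ℕ → α → α → Prop) (h0 : ∃ y, I 0 y)
    (hs : ∀ k y, I k y → ∃ y', I (k + 1) y' ∧ R k y y') :
    ∃ f : ℕ → α, ∀ k, I k (f k) ∧ R k (f k) (f (k + 1)) := by
  obtain ⟨y0, hy0⟩ := h0
  choose g hg using hs
  let F : (k : ℕ) → {y // I k y} := fun k =>
    Nat.rec (motive := fun k => {y // I k y}) ⟨y0, hy0⟩
      (fun k y => ⟨g k y.1 y.2, (hg k y.1 y.2).1⟩) k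
  exact ⟨fun k => (F k).1, fun k => ⟨(F k).2, (hg k (F k).1 (F k).2).2⟩⟩

end Pool.Agent.H792Z.MK
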