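import Mathlib

/-! Elementary estimates for integer polynomials. -/

open Polynomial Finset

namespace Pool.Agent.H792Z.MK

theorem det_mul_expand {R ι : Type*} [CommRing R] [Fintype ι] [DecidableEq ι] {r : ℕ}
    (A : Matrix (Fin r) ι R) (B : Matrix ι (Fin r) R) :
    (A * B).det = ∑ p : Fin r → ι, (∏ b, B (p b) b) * (A.submatrix id p).det := by
  simp only [Matrix.det_apply', Matrix.mul_apply, prod_univ_sum, mul_sum, Fintype.piFinset_univ]
  rw [Finset.sum_comm]
  refine sum_congr rfl fun p _ => sum_congr rfl fun σ _ => ?_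
  simp only [Matrix.submatrix_apply, id, prod_mul_distrib]
  ring

/-- real image of an integer polynomial -/
noncomputable abbrev mR (P : ℤ[X]) : ℝ[X] := P.map (Int.castRingHom ℝ)

/-- degree at most `n`, coefficients at most `H` -/
def HB (n : ℕ) (H : ℝ) (P : ℤ[X]) : Prop := P.natDegree ≤ n ∧ ∀ i, |(P.coeff i : ℝ)| ≤ H

/-- a common constant -/
def CT (n : ℕ) : ℝ := ((n : ℝ) + 1) ^ 2 * 2 ^ n

theorem one_le_CT (n : ℕ) : 1 ≤ CT n := by
  unfold CT
  have h1 : (1 : ℝ) ≤ ((n : ℝ) + 1) ^ 2 := one_le_pow₀ (by linarith [(Nat.cast_nonneg n : (0 : ℝ) ≤ n)])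
  have h2 : (1 : ℝ) ≤ 2 ^ n := one_le_pow₀ (by norm_num)
  nlinarith

theorem CT_pos (n : ℕ) : 0 < CT n := lt_of_lt_of_le one_pos (one_le_CT n)

theorem HB.mono {n : ℕ} {H H' : ℝ} {P : ℤ[X]} (h : HB n H P) (hH : H ≤ H') : HB n H' P :=
  ⟨h.1, fun i => (h.2 i).trans hH⟩

theorem HB.nonneg {n : ℕ} {H : ℝ} {P : ℤ[X]} (h : HB n H P) : 0 ≤ H :=
  (abs_nonneg _).trans (h.2 0)

theorem mR_natDegree {n : ℕ} {P : ℤ[X]} (h : P.natDegree ≤ n) : (mR P).natDegree ≤ n :=
  natDegree_map_le.trans h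

theorem aeval_eq (P : ℤ[X]) (x : ℝ) : aeval x P = (mR P).eval x := by
  rw [aeval_def, eval₂_eq_eval_map]; rfl

theorem hasse_eval (P : ℤ[X]) (k : ℕ) (x : ℝ) :
    (mR (hasseDeriv k P)).eval x = (taylor x (mR P)).coeff k := by
  rw [taylor_coeff]
  congr 1
  ext i
  simp [hasseDeriv_coeff]

theorem taylor_bound {n : ℕ} {H : ℝ} (S : ℝ[X]) (hS : S.natDegree ≤ n) (hH : ∀ i, |S.coeff i| ≤ H)
    {x : ℝ} (hx : |x| ≤ 1) (k : ℕ) : |(taylor x S).coeff k| ≤ ((n : ℝ) + 1) * 2 ^ n * H := by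
  have hH0 : 0 ≤ H := (abs_nonneg _).trans (hH 0)
  rw [taylor_coeff, eval_eq_sum_range' (n := n + 1)
    (lt_of_le_of_lt ((natDegree_hasseDeriv_le _ _).trans ((Nat.sub_le _ _).trans hS)) (by omega))]
  refine (abs_sum_le_sum_abs _ _).trans ?_
  calc ∑ i ∈ range (n + 1), |(hasseDeriv k S).coeff i * x ^ i| ≤ ∑ _i ∈ range (n + 1), 2 ^ n * H := by
        refine sum_le_sum fun i _ => ?_
        rw [hasseDeriv_coeff, abs_mul, abs_mul, abs_pow]
        by_cases hik : n < i + k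
        · rw [coeff_eq_zero_of_natDegree_lt (lt_of_le_of_lt hS hik)]
          simp only [abs_zero, mul_zero, zero_mul]; positivity
        · have h1 : |(((i + k).choose k : ℕ) : ℝ)| ≤ 2 ^ n := by
            rw [Nat.abs_cast]
            have : (i + k).choose k ≤ 2 ^ n :=
              (Nat.choose_le_two_pow _ _).trans (Nat.pow_le_pow_right (by norm_num) (by omega))
            exact_mod_cast this
          have h2 : |x| ^ i ≤ 1 := pow_le_one₀ (abs_nonneg _) hx
          calc |(((i + k).choose k : ℕ) : ℝ)| * |S.coeff (i + k)| * |x| ^ i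
              ≤ 2 ^ n * H * 1 := by gcongr; exact hH _
            _ = _ := mul_one _
    _ = _ := by rw [sum_const, card_range, nsmul_eq_mul]; push_cast; ring

theorem HB.taylor_le {n : ℕ} {H : ℝ} {P : ℤ[X]} (h : HB n H P) {x : ℝ} (hx : |x| ≤ 1) (k : ℕ) :
    |(taylor x (mR P)).coeff k| ≤ CT n * H := by
  refine (taylor_bound (mR P) (mR_natDegree h.1) (H := H) (fun i => by simpa using h.2 i) hx k).trans ?_
  unfold CT
  have := h.nonneg
  have h1 : (n : ℝ) + 1 ≤ ((n : ℝ) + 1) ^ 2 := le_self_pow₀ (by linarith [(Nat.cast_nonneg n : (0 : ℝ) ≤ n)]) (by norm_num)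
  gcongr

theorem HB.lip {n : ℕ} {H : ℝ} {P : ℤ[X]} (h : HB n H P) {x y : ℝ} (hx : |x| ≤ 2) (hy : |y| ≤ 2) :
    |(mR P).eval x - (mR P).eval y| ≤ CT n * H * |x - y| := by
  have hH0 := h.nonneg
  have hd : (mR P).natDegree < n + 1 := lt_of_le_of_lt (mR_natDegree h.1) (by omega)
  rw [eval_eq_sum_range' hd, eval_eq_sum_range' hd, ← sum_sub_distrib]
  refine (abs_sum_le_sum_abs _ _).trans ?_
  calc ∑ i ∈ range (n + 1), |(mR P).coeff i * x ^ i - (mR P).coeff i * y ^ i|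
      ≤ ∑ _i ∈ range (n + 1), H * (|x - y| * (n + 1) * 2 ^ n) := by
        refine sum_le_sum fun i hi => ?_
        rw [mem_range] at hi
        rw [← mul_sub, abs_mul]
        have h1 : |(mR P).coeff i| ≤ H := by simpa using h.2 i
        have h2 : |x ^ i - y ^ i| ≤ |x - y| * (n + 1) * 2 ^ n := by
          refine (abs_pow_sub_pow_le x y i).trans ?_
          have h3 : (i : ℝ) ≤ n + 1 := by exact_mod_cast hi.le
          have h4 : max |x| |y| ^ (i - 1) ≤ 2 ^ n :=
            (pow_le_pow_left₀ (le_max_of_le_left (abs_nonneg _)) (max_le hx hy) _).trans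
              (pow_le_pow_right₀ (by norm_num) (by omega))
          gcongr
        gcongr
    _ = _ := by rw [sum_const, card_range, nsmul_eq_mul]; unfold CT; push_cast; ring

theorem taylor_expand {n : ℕ} (S : ℝ[X]) (hS : S.natDegree < n) (x : ℝ) :
    S = ∑ k ∈ range n, C ((taylor x S).coeff k) * (X - C x) ^ k := by
  conv_lhs => rw [← sum_taylor_eq S x]
  rw [sum_over_range' _ (by simp) n (by rw [natDegree_taylor]; exact hS)]

theorem abs_coeff_pow_le {x : ℝ} (hx : |x| ≤ 1) (k m : ℕ) : |((X - C x) ^ k).coeff m| ≤ 2 ^ k := by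
  rw [sub_eq_add_neg, ← C_neg, coeff_X_add_C_pow, abs_mul, abs_pow, abs_neg, Nat.abs_cast]
  have h1 : |x| ^ (k - m) ≤ 1 := pow_le_one₀ (abs_nonneg _) hx
  have h2 : ((k.choose m : ℕ) : ℝ) ≤ 2 ^ k := by exact_mod_cast Nat.choose_le_two_pow k m
  calc _ ≤ 1 * (2 : ℝ) ^ k := by gcongr
    _ = _ := one_mul _

theorem quot_coeff {n : ℕ} (R : ℝ[X]) (hR : R.natDegree < n) (q x : ℝ) (hq : q ≠ 0) (m : ℕ) :
    R.coeff m = ∑ k ∈ range n,
      (taylor x (C q * (X - C x) * R)).coeff (k + 1) * (((X - C x) ^ k).coeff m / q) := by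
  conv_lhs => rw [taylor_expand R hR x]
  rw [finsetSum_coeff]
  refine sum_congr rfl fun k _ => ?_
  have e : taylor x (C q * (X - C x) * R) = C q * (X * taylor x R) := by
    rw [taylor_mul, taylor_mul, map_sub, taylor_X, taylor_C, taylor_C]; ring
  rw [e, coeff_C_mul, coeff_C_mul, coeff_X_mul]
  field_simp

/-- the integer `q ^ n * P (a / q)` -/
noncomputable def val (n : ℕ) (a q : ℤ) (P : ℤ[X]) : ℤ :=
  ∑ i ∈ range (n + 1), P.coeff i * a ^ i * q ^ (n - i)

theorem val_eq {n : ℕ} {P : ℤ[X]} (hP : P.natDegree ≤ n) (a q : ℤ) (hq : q ≠ 0) :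
    (val n a q P : ℝ) = (q : ℝ) ^ n * (mR P).eval ((a : ℝ) / q) := by
  have hq' : (q : ℝ) ≠ 0 := by exact_mod_cast hq
  rw [eval_eq_sum_range' (n := n + 1) (lt_of_le_of_lt (mR_natDegree hP) (by omega)), mul_sum, val]
  push_cast
  refine sum_congr rfl fun i hi => ?_
  rw [mem_range] at hi
  have : (q : ℝ) ^ n = (q : ℝ) ^ (n - i) * (q : ℝ) ^ i := by rw [← pow_add]; congr 1; omega
  rw [this, div_pow]
  simp only [coeff_map, eq_intCast]
  field_simp

theorem eval_ge {n : ℕ} {P : ℤ[X]} (hP : P.natDegree ≤ n) (a q : ℤ) (hq : 0 < q)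
    (h : (mR P).eval ((a : ℝ) / q) ≠ 0) : 1 ≤ (q : ℝ) ^ n * |(mR P).eval ((a : ℝ) / q)| := by
  have hq' : (0 : ℝ) < q := by exact_mod_cast hq
  have h1 := val_eq hP a q hq.ne'
  have h2 : val n a q P ≠ 0 := by
    intro h0
    rw [h0] at h1
    simp only [Int.cast_zero] at h1
    exact (mul_ne_zero (by positivity) h) h1.symm
  have h3 : (1 : ℝ) ≤ |(val n a q P : ℝ)| := by exact_mod_cast Int.one_le_abs h2
  rwa [h1, abs_mul, abs_of_pos (by positivity)] at h3

theorem decomp {n : ℕ} {P : ℤ[X]} (hP : P.natDegree ≤ n) (a b d q : ℤ) (hq : q ≠ 0)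
    (h : a * d - b * q = 1) : ∃ Q : ℤ[X], (Q = 0 ∨ Q.natDegree < n) ∧
      P = (C q * X - C a) * Q + C (val n a q P) * (C d * X - C b) ^ n := by
  set U : ℤ[X] := C q * X - C a with hU
  set V : ℤ[X] := C d * X - C b with hV
  have hC : (C a * C d - C b * C q : ℤ[X]) = 1 := by
    rw [← C_mul, ← C_mul, ← C_sub, h, C_1]
  have h1 : U ∣ X - C a * V := ⟨-C b, by
    rw [hU, hV]; linear_combination (-X) * hC⟩
  have h2 : U ∣ 1 - C q * V := ⟨-C d, by
    rw [hU, hV]; linear_combination (-1) * hC⟩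
  have h3 : U ∣ P - C (val n a q P) * V ^ n := by
    have e1 : P = ∑ i ∈ range (n + 1), C (P.coeff i) * (X ^ i * 1 ^ (n - i)) := by
      conv_lhs => rw [as_sum_range' P (n + 1) (by omega)]
      refine sum_congr rfl fun i _ => ?_
      rw [one_pow, mul_one, C_mul_X_pow_eq_monomial]
    have e2 : C (val n a q P) * V ^ n =
        ∑ i ∈ range (n + 1), C (P.coeff i) * ((C a * V) ^ i * (C q * V) ^ (n - i)) := by
      rw [val, map_sum, sum_mul]
      refine sum_congr rfl fun i hi => ?_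
      rw [mem_range] at hi
      have : V ^ n = V ^ i * V ^ (n - i) := by rw [← pow_add]; congr 1; omega
      rw [this]
      simp only [C_mul, C_pow, mul_pow]
      ring
    rw [e2]
    conv_rhs => enter [1]; rw [e1]
    rw [← sum_sub_distrib]
    refine dvd_sum fun i _ => ?_
    rw [← mul_sub]
    refine Dvd.dvd.mul_left ?_ _
    have e3 : X ^ i * 1 ^ (n - i) - (C a * V) ^ i * (C q * V) ^ (n - i) =
        X ^ i * (1 ^ (n - i) - (C q * V) ^ (n - i)) + (X ^ i - (C a * V) ^ i) * (C q * V) ^ (n - i) := by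
      ring
    rw [e3]
    exact dvd_add ((h2.trans (sub_dvd_pow_sub_pow _ _ _)).mul_left _)
      ((h1.trans (sub_dvd_pow_sub_pow _ _ _)).mul_right _)
  obtain ⟨Q, hQ⟩ := h3
  refine ⟨Q, ?_, by rw [← hQ]; ring⟩
  by_cases hQ0 : Q = 0
  · exact Or.inl hQ0
  right
  have hUd : U.natDegree = 1 := by
    rw [hU, sub_eq_add_neg, ← C_neg]; exact natDegree_linear hq
  have hU0 : U ≠ 0 := by
    intro h0; rw [h0] at hUd; simp at hUd
  have hVd : V.natDegree ≤ 1 := by
    rw [hV, sub_eq_add_neg, ← C_neg]; exact natDegree_linear_le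
  have h4 : (U * Q).natDegree ≤ n := by
    rw [← hQ]
    refine (natDegree_sub_le _ _).trans (max_le hP ?_)
    refine (natDegree_C_mul_le _ _).trans (natDegree_pow_le.trans ?_)
    nlinarith
  rw [natDegree_mul hU0 hQ0, hUd] at h4
  omega

theorem mR_lin (a q : ℤ) (hq : q ≠ 0) :
    mR (C q * X - C a) = C (q : ℝ) * (X - C ((a : ℝ) / q)) := by
  have hq' : (q : ℝ) ≠ 0 := by exact_mod_cast hq
  simp only [mR, Polynomial.map_sub, Polynomial.map_mul, map_C, map_X, eq_intCast]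
  rw [mul_sub, ← C_mul, mul_div_cancel₀ _ hq']
  simp

/-- the quotient by `q X - a` has small height -/
theorem HB.quot {n : ℕ} {H : ℝ} {Q : ℤ[X]} (a q : ℤ) (hq : 0 < q) (hx : |(a : ℝ) / q| ≤ 1)
    (h : HB (n + 1) H ((C q * X - C a) * Q)) (hQ : Q.natDegree ≤ n) :
    HB n (CT (n + 1) ^ 2 * H / q) Q := by
  have hq' : (0 : ℝ) < q := by exact_mod_cast hq
  have hH := h.nonneg
  refine ⟨hQ, fun m => ?_⟩
  have h1 := quot_coeff (n := n + 1) (mR Q) (lt_of_le_of_lt (mR_natDegree hQ) (by omega)) (q : ℝ)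
    ((a : ℝ) / q) hq'.ne' m
  rw [← mR_lin a q hq.ne', ← Polynomial.map_mul] at h1
  have h2 : (mR Q).coeff m = (Q.coeff m : ℝ) := by simp
  rw [← h2, h1]
  refine (abs_sum_le_sum_abs _ _).trans ?_
  have hC := CT_pos (n + 1)
  calc ∑ k ∈ range (n + 1), |(taylor ((a : ℝ) / q) (mR ((C q * X - C a) * Q))).coeff (k + 1) *
        (((X - C ((a : ℝ) / q)) ^ k).coeff m / q)|
      ≤ ∑ _k ∈ range (n + 1), (CT (n + 1) * H) * (2 ^ (n + 1) / q) := by
        refine sum_le_sum fun k hk => ?_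
        rw [mem_range] at hk
        rw [abs_mul, abs_div, abs_of_pos hq']
        have h3 := h.taylor_le hx (k + 1)
        have h4 : |((X - C ((a : ℝ) / q)) ^ k).coeff m| ≤ 2 ^ (n + 1) :=
          (abs_coeff_pow_le hx k m).trans (pow_le_pow_right₀ (by norm_num) hk.le)
        gcongr
    _ = CT (n + 1) * (((n : ℝ) + 1) * 2 ^ (n + 1)) * H / q := by
        rw [sum_const, card_range, nsmul_eq_mul]; push_cast; ring
    _ ≤ CT (n + 1) * CT (n + 1) * H / q := by
        gcongr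
        unfold CT
        push_cast
        have : (n : ℝ) + 1 ≤ ((n : ℝ) + 1 + 1) ^ 2 := by nlinarith [(Nat.cast_nonneg n : (0 : ℝ) ≤ n)]
        gcongr
    _ = _ := by ring

end Pool.Agent.H792Z.MK
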