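import Pool.Agent.Helper404.KMC
import Pool.Agent.H792Z.PolyB

/-! Quantitative nondivergence on a short interval starting at a rational point. -/

open Polynomial Finset MeasureTheory

namespace Pool.Agent.H792Z.MK

open Pool.Agent.Helper404

/-- weights -/
def wt (n : ℕ) (δ H : ℝ) : Fin (n + 1) → ℝ := fun k => if k = 0 then δ else H

theorem Dt_eval {n r : ℕ} (v : Fin r → Fin (n + 1) → ℤ) (p : Fin r → Fin (n + 1)) (x : ℝ) :
    (mR (Dt v fun b => (p b : ℕ))).eval x =
      ((Matrix.of fun (i : Fin r) (k : Fin (n + 1)) =>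
        (taylor x (mR (toP (v i)))).coeff k).submatrix id p).det := by
  have h3 : (mR (Dt v fun b => (p b : ℕ))).eval x =
      ((evalRingHom x).comp (mapRingHom (Int.castRingHom ℝ))) (Dt v fun b => (p b : ℕ)) := rfl
  rw [h3, Dt, RingHom.map_det]
  congr 1
  ext i b
  simp only [Matrix.of_apply, RingHom.mapMatrix_apply, Matrix.map_apply, RingHom.comp_apply,
    coe_mapRingHom, coe_evalRingHom, Matrix.submatrix_apply, id]
  exact hasse_eval _ _ _

theorem exists_minor {n r : ℕ} (G : Matrix (Fin r) (Fin (n + 1)) ℤ) (p : Fin r → Fin (n + 1))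
    (hp : (G.submatrix id p).det ≠ 0) (i0 : Fin r) (h0 : G i0 0 ≠ 0) :
    ∃ (I : Fin r → Fin (n + 1)) (b0 : Fin r), I b0 = 0 ∧ (G.submatrix id I).det ≠ 0 := by
  by_contra hcon
  push Not at hcon
  have h1 := Matrix.mulVec_cramer (G.submatrix id p) (fun i => G i 0)
  have h2 : (G.submatrix id p).cramer (fun i => G i 0) = 0 := by
    ext b
    rw [Matrix.cramer_apply, Pi.zero_apply, ← hcon (Function.update p b 0) b (by simp)]
    congr 1
    ext i j
    by_cases hj : j = b
    · subst hj; simp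
    · simp [Matrix.updateCol_ne hj, Function.update_of_ne hj]
  rw [h2, Matrix.mulVec_zero] at h1
  have h3 := congrFun h1 i0
  simp only [Pi.zero_apply, Pi.smul_apply, smul_eq_mul] at h3
  exact mul_ne_zero hp h0 h3.symm

theorem rich {n r : ℕ} (a q : ℤ) (hq : 0 < q) (hco : IsCoprime a q) (hx : |(a : ℝ) / q| ≤ 1)
    (v : Fin r → Fin (n + 1) → ℤ) (hv : LinearIndependent ℚ (fun i => castQ (v i))) (i0 : Fin r)
    (h0 : (mR (toP (v i0))).eval ((a : ℝ) / q) ≠ 0) (δ H : ℝ) (hδ : 0 < δ) (hH : (q : ℝ) ≤ H)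
    (hr : r ≤ n + 1) :
    1 ≤ ((n : ℝ) + 1) ^ (n + 1) * (2 ^ (n * n) * (δ * H ^ n) * Nm (wt n δ H) v ((a : ℝ) / q)) := by
  classical
  have hq' : (0 : ℝ) < q := by exact_mod_cast hq
  have hH0 : 0 < H := hq'.trans_le hH
  have hw : ∀ k, 0 < wt n δ H k := fun k => by unfold wt; split_ifs <;> assumption
  obtain ⟨d, b', hdb⟩ := hco
  have hdb' : a * d - (-b') * q = 1 := by linarith
  set x : ℝ := (a : ℝ) / q with hxdef
  choose Q hQd hQ using fun i => decomp (toP_natDegree (v i)) a (-b') d q hq.ne' hdb'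
  set U : ℤ[X] := C q * X - C a with hU
  set V : ℤ[X] := C d * X - C (-b') with hV
  have hQsum : ∀ i, Q i = ∑ m : Fin n, C ((Q i).coeff m) * X ^ (m : ℕ) := by
    intro i
    rcases hQd i with h | h
    · rw [h]; simp
    · conv_lhs => rw [as_sum_range' (Q i) n h]
      rw [Finset.sum_range]
      simp only [C_mul_X_pow_eq_monomial]
  let G : Matrix (Fin r) (Fin (n + 1)) ℤ := fun i =>
    Fin.cons (val n a q (toP (v i))) (fun m : Fin n => (Q i).coeff m)
  let β : Fin (n + 1) → ℤ[X] := Fin.cons (V ^ n) (fun m : Fin n => U * X ^ (m : ℕ))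
  have hP : ∀ i, toP (v i) = ∑ m, G i m • β m := by
    intro i
    rw [Fin.sum_univ_succ]
    simp only [G, β, Fin.cons_zero, Fin.cons_succ, smul_eq_C_mul]
    conv_lhs => rw [hQ i, hQsum i, mul_sum]
    rw [add_comm]
    congr 1
    exact sum_congr rfl fun m _ => by ring
  obtain ⟨p, hp⟩ : ∃ p : Fin r → Fin (n + 1), (G.submatrix id p).det ≠ 0 := by
    by_contra hcon
    push Not at hcon
    apply W_ne_zero v hv
    have e : (Matrix.of fun i j : Fin r => hasseDeriv (j : ℕ) (toP (v i))) =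
        (G.map C) * (Matrix.of fun (m : Fin (n + 1)) (j : Fin r) => hasseDeriv (j : ℕ) (β m)) := by
      ext1 i j
      rw [Matrix.mul_apply, Matrix.of_apply, hP i, map_sum]
      refine sum_congr rfl fun m _ => ?_
      rw [map_smul, smul_eq_C_mul]; rfl
    rw [W, e, det_mul_expand]
    refine sum_eq_zero fun p _ => ?_
    have : ((G.map C).submatrix id p).det = C (G.submatrix id p).det := by
      rw [RingHom.map_det]; rfl
    rw [this, hcon p, C_0, mul_zero]
  have hval := fun i => val_eq (toP_natDegree (v i)) a q hq.ne'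
  obtain ⟨I, b0, hI0, hI⟩ := exists_minor G p hp i0 (by
    simp only [G, Fin.cons_zero]
    intro h
    have := hval i0
    rw [h, Int.cast_zero] at this
    exact mul_ne_zero (by positivity) h0 this.symm)
  let T : Matrix (Fin r) (Fin (n + 1)) ℝ := Matrix.of fun i k => (taylor x (mR (toP (v i)))).coeff k
  let c : Fin n → Fin n → ℝ := fun k m => ((X - C x) ^ (k : ℕ)).coeff m / q
  let Bf : Matrix (Fin (n + 1)) (Fin (n + 1)) ℝ := fun k m =>
    Fin.cases (motive := fun _ => ℝ) (if k = 0 then (q : ℝ) ^ n else 0)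
      (fun m => Fin.cases (motive := fun _ => ℝ)
        (-((q : ℝ) ^ n * ∑ k : Fin n, (taylor x (mR (V ^ n))).coeff (k + 1) * c k m))
        (fun k => c k m) k) m
  have hG : G.map (Int.cast : ℤ → ℝ) = T * Bf := by
    ext i m
    rw [Matrix.mul_apply, Matrix.map_apply]
    refine Fin.cases ?_ (fun m => ?_) m
    · simp only [G, Bf, T, Fin.cons_zero, Fin.cases_zero, Matrix.of_apply, mul_ite, mul_zero,
        sum_ite_eq', mem_univ, if_true, Fin.val_zero, taylor_coeff_zero]
      rw [hval i, mul_comm]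
    · rw [Fin.sum_univ_succ]
      simp only [G, Bf, T, Fin.cons_succ, Fin.cases_succ, Fin.cases_zero, Matrix.of_apply,
        Fin.val_zero, taylor_coeff_zero, Fin.val_succ]
      have h1 : mR (toP (v i)) = C (q : ℝ) * (X - C x) * mR (Q i) +
          C ((q : ℝ) ^ n * (mR (toP (v i))).eval x) * mR (V ^ n) := by
        conv_lhs => rw [hQ i]
        rw [← hval i, ← mR_lin a q hq.ne']
        simp only [mR, Polynomial.map_add, Polynomial.map_mul, map_C, hU]
        rfl
      have h2 : (mR (Q i)).coeff m = ∑ k ∈ range n,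
          (taylor x (C (q : ℝ) * (X - C x) * mR (Q i))).coeff (k + 1) *
            (((X - C x) ^ k).coeff m / q) := by
        rcases hQd i with h | h
        · rw [h]; simp
        · exact quot_coeff _ (lt_of_le_of_lt natDegree_map_le h) _ _ hq'.ne' _
      have h3 : ((Q i).coeff m : ℝ) = (mR (Q i)).coeff m := by simp
      rw [h3, h2, Finset.sum_range, mul_neg, ← mul_assoc, mul_sum, ← sum_neg_distrib,
        ← sum_add_distrib]
      refine sum_congr rfl fun k _ => ?_
      have h4 : (taylor x (mR (toP (v i)))).coeff (k + 1) =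
          (taylor x (C (q : ℝ) * (X - C x) * mR (Q i))).coeff (k + 1) +
          ((q : ℝ) ^ n * (mR (toP (v i))).eval x) * (taylor x (mR (V ^ n))).coeff (k + 1) := by
        conv_lhs => rw [h1]
        rw [map_add, coeff_add, taylor_mul x (C _) (mR (V ^ n)), taylor_C, coeff_C_mul]
      rw [h4]
      simp only [c]
      ring
  have hdet : (((G.submatrix id I).det : ℤ) : ℝ) = (T * Bf.submatrix id I).det := by
    have : (((G.submatrix id I).det : ℤ) : ℝ) = Int.castRingHom ℝ (G.submatrix id I).det := rfl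
    rw [this, RingHom.map_det]
    congr 1
    ext i j
    have := congrFun (congrFun hG i) (I j)
    simpa [Matrix.mul_apply] using this
  have h1 : (1 : ℝ) ≤ |(((G.submatrix id I).det : ℤ) : ℝ)| := by exact_mod_cast Int.one_le_abs hI
  rw [hdet, det_mul_expand] at h1
  refine h1.trans ((abs_sum_le_sum_abs _ _).trans ?_)
  have hN := Nm_nonneg _ hw v x
  have hbd : ∀ p : Fin r → Fin (n + 1), |(∏ b, (Bf.submatrix id I) (p b) b) * (T.submatrix id p).det|
      ≤ 2 ^ (n * n) * (δ * H ^ n) * Nm (wt n δ H) v x := by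
    intro p
    have hpos : 0 ≤ 2 ^ (n * n) * (δ * H ^ n) * Nm (wt n δ H) v x := by positivity
    by_cases hp0 : p b0 = 0
    swap
    · rw [prod_eq_zero (mem_univ b0), zero_mul, abs_zero]
      · exact hpos
      · simp only [Matrix.submatrix_apply, id, hI0, Bf, Fin.cases_zero, if_neg hp0]
    by_cases hp1 : ∃ b, b ≠ b0 ∧ p b = 0
    · obtain ⟨b, hb, hb'⟩ := hp1
      rw [Matrix.det_zero_of_column_eq hb (fun k => by simp [hb', hp0]), mul_zero, abs_zero]
      exact hpos
    push Not at hp1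
    have h2 := term_le (wt n δ H) v x p
    unfold term at h2
    rw [div_le_iff₀ (prod_pos fun _ _ => hw _), Dt_eval] at h2
    rw [abs_mul, abs_prod]
    have h3 : (∏ b, |(Bf.submatrix id I) (p b) b|) * ∏ b, wt n δ H (p b) ≤
        2 ^ (n * n) * (δ * H ^ n) := by
      rw [← prod_mul_distrib, ← mul_prod_erase _ _ (mem_univ b0)]
      have h4 : |(Bf.submatrix id I) (p b0) b0| * wt n δ H (p b0) = (q : ℝ) ^ n * δ := by
        simp only [Matrix.submatrix_apply, id, hI0, Bf, Fin.cases_zero, hp0, if_true, wt]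
        rw [abs_of_pos (by positivity)]
      have h5 : ∀ b ∈ univ.erase b0, |(Bf.submatrix id I) (p b) b| * wt n δ H (p b) ≤
          2 ^ n * (H / q) := by
        intro b hb
        have hb' := hp1 b (mem_erase.1 hb).1
        obtain ⟨k, hk⟩ := Fin.exists_succ_eq.2 hb'
        simp only [Matrix.submatrix_apply, id, wt, if_neg hb']
        rw [← hk]
        refine Fin.cases ?_ (fun m => ?_) (I b)
        · simp only [Bf, Fin.cases_zero, if_neg (Fin.succ_ne_zero k), abs_zero, zero_mul]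
          positivity
        · simp only [Bf, Fin.cases_succ, c]
          rw [abs_div, abs_of_pos hq']
          have h6 : |((X - C x) ^ (k : ℕ)).coeff m| ≤ 2 ^ n :=
            (abs_coeff_pow_le hx k m).trans (pow_le_pow_right₀ (by norm_num) k.2.le)
          calc _ ≤ 2 ^ n / q * H := by gcongr
            _ = _ := by ring
      have h6 : ∏ b ∈ univ.erase b0, |(Bf.submatrix id I) (p b) b| * wt n δ H (p b) ≤
          (2 ^ n * (H / q)) ^ n := by
        refine (prod_le_prod (fun b _ => mul_nonneg (abs_nonneg _) (hw _).le) h5).trans ?_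
        rw [prod_const, card_erase_of_mem (mem_univ _), card_univ, Fintype.card_fin]
        refine pow_le_pow_right₀ ?_ (by omega)
        have h7 : 1 ≤ H / q := by rw [one_le_div hq']; exact hH
        have h8 : (1 : ℝ) ≤ 2 ^ n := one_le_pow₀ (by norm_num)
        nlinarith
      rw [h4]
      calc (q : ℝ) ^ n * δ * ∏ b ∈ univ.erase b0, |(Bf.submatrix id I) (p b) b| * wt n δ H (p b)
          ≤ (q : ℝ) ^ n * δ * (2 ^ n * (H / q)) ^ n := by gcongr
        _ = _ := by rw [mul_pow, div_pow, ← pow_mul]; field_simp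
    calc (∏ b, |(Bf.submatrix id I) (p b) b|) * |(T.submatrix id p).det|
        ≤ (∏ b, |(Bf.submatrix id I) (p b) b|) * (Nm (wt n δ H) v x * ∏ b, wt n δ H (p b)) := by
          gcongr
      _ = ((∏ b, |(Bf.submatrix id I) (p b) b|) * ∏ b, wt n δ H (p b)) * Nm (wt n δ H) v x := by
          ring
      _ ≤ _ := by gcongr
  refine (sum_le_sum fun p _ => hbd p).trans ?_
  rw [sum_const, card_univ, Fintype.card_fun, Fintype.card_fin, Fintype.card_fin, nsmul_eq_mul]
  push_cast
  gcongr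
  linarith [(Nat.cast_nonneg n : (0 : ℝ) ≤ n)]

open Set in
/-- marked points have no short vectors -/
theorem marked_bound' {n : ℕ} (w : Fin (n + 1) → ℝ) (T : Set (SB n)) (hw : ∀ k, 0 < w k) (ρ : ℝ) (hρ : 0 < ρ) (ε : ℝ) (hε : 0 < ε) (hε1 : ε ≤ 1) (z : ℝ)
    (hM : Marked (fS w hw ρ) T ε z) (u : Fin (n + 1) → ℤ) (hu : u ≠ 0)
    (hT : ∀ s : SB n, castQ u ∈ s.1 → s ∈ T) (X : ℝ)
    (hX : ∀ k, nrm w u z k ≤ X) : ε * ρ ≤ (n + 1) * X := by
  classical
  obtain ⟨F, hFT, hFc, hF1, hF2⟩ := hM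
  have hX0 : 0 ≤ X := le_trans (div_nonneg (abs_nonneg _) (hw 0).le) (hX 0)
  -- choose the largest element of `F ∪ {⊥}` not containing `u`
  obtain ⟨A, hAF, hAu, hAf, hAmax⟩ : ∃ A : SB n, (A ∈ F ∨ A = botS n) ∧ castQ u ∉ A.1 ∧
      Nm w (basOf w hw A) z ≤ ρ ^ (rk A) ∧
      ∀ s ∈ F, castQ u ∉ s.1 → s ≤ A := by
    by_cases hne : ∃ s ∈ F, castQ u ∉ s.1
    · have hex : ∃ m : ℕ, ∃ s ∈ F, castQ u ∉ s.1 ∧ (n + 1) - rk s = m := by
        obtain ⟨s, hs, hs'⟩ := hne
        exact ⟨_, s, hs, hs', rfl⟩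
      obtain ⟨A, hA, hAu, hAm⟩ := Nat.find_spec hex
      refine ⟨A, Or.inl hA, hAu, ?_, ?_⟩
      · have := (hF1 A hA).2
        unfold fS at this
        rwa [div_le_one (by positivity)] at this
      · intro s hs hsu
        rcases eq_or_ne s A with h | h
        · exact h.le
        rcases hFc hs hA h with h' | h'
        · exact h'
        · exfalso
          have hlt := rk_strict A s (lt_of_le_of_ne h' h.symm)
          have hmin := Nat.find_min' hex ⟨s, hs, hsu, rfl⟩
          have hle : rk s ≤ n + 1 := by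
            rw [← dimOf_eq w hw]; exact (basOf_IB w hw s).le
          omega
    · push Not at hne
      refine ⟨botS n, Or.inr rfl, ?_, ?_, ?_⟩
      · intro h
        have : castQ u ∈ (⊥ : Submodule ℚ (Fin (n + 1) → ℚ)) := h
        rw [Submodule.mem_bot] at this
        exact hu (castQ_eq_zero this)
      · have h0 : rk (botS n) = 0 := by
          unfold rk botS; simp
        have hIB : IB (botS n).1 0 (Fin.elim0 : Fin 0 → Fin (n + 1) → ℤ) := by
          constructor
          · exact linearIndependent_empty_type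
          · simp [botS]
        have := basOf_min' w hw (botS n) _ hIB z
        rw [Nm_empty] at this
        rw [h0, pow_zero]
        exact this
      · intro s hs hsu
        exact absurd (hne s hs) hsu
  have hIB := basOf_IB w hw A
  have hjj : dimOf w hw A = rk A := dimOf_eq w hw A
  -- the new subspace
  have hIB' : IB (A.1 ⊔ Submodule.span ℚ {castQ u}) (dimOf w hw A + 1)
      (Fin.cons u (basOf w hw A) : Fin (dimOf w hw A + 1) → Fin (n + 1) → ℤ) := by
    have hcomp : (fun a => castQ ((Fin.cons u (basOf w hw A) : Fin (dimOf w hw A + 1) → Fin (n + 1) → ℤ) a)) =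
        (Fin.cons (castQ u) (fun a => castQ (basOf w hw A a)) : Fin (dimOf w hw A + 1) → Fin (n + 1) → ℚ) := by
      ext a
      refine Fin.cases ?_ (fun a => ?_) a
      · simp
      · simp
    constructor
    · rw [hcomp]
      rw [linearIndependent_finCons]
      refine ⟨hIB.1, ?_⟩
      rw [hIB.2]; exact hAu
    · rw [hcomp, Fin.range_cons, Submodule.span_insert, hIB.2, sup_comm]
  set A' : SB n := ⟨A.1 ⊔ Submodule.span ℚ {castQ u}, dimOf w hw A + 1, _, hIB'⟩ with hA'
  have hA'u : castQ u ∈ A'.1 := Submodule.mem_sup_right (Submodule.mem_span_singleton_self _)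
  have hAA' : A ≤ A' := by
    change A.1 ≤ A'.1
    exact le_sup_left
  have hA'ne : A' ∈ T := hT A' hA'u
  have hcmp : ∀ s' ∈ F, A' ≤ s' ∨ s' ≤ A' := by
    intro s' hs'
    by_cases hsu : castQ u ∈ s'.1
    · left
      have hAs : A ≤ s' := by
        rcases hAF with h | h
        · rcases eq_or_ne A s' with h2 | h2
          · exact h2.le
          · rcases hFc h hs' h2 with h3 | h3
            · exact h3
            · exact absurd (h3 hsu) hAu
        · rw [h]
          change (⊥ : Submodule ℚ (Fin (n + 1) → ℚ)) ≤ s'.1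
          exact bot_le
      change A.1 ⊔ Submodule.span ℚ {castQ u} ≤ s'.1
      refine sup_le hAs ?_
      rw [Submodule.span_singleton_le_iff_mem]
      exact hsu
    · right
      exact (hAmax s' hs' hsu).trans hAA'
  have hfA' : ε ≤ fS w hw ρ A' z := by
    rcases hF2 A' hA'ne hcmp with h | h
    · exact (hF1 A' h).1
    · exact hε1.trans h
  have hdim : rk A' = rk A + 1 := by
    rw [← hjj]; exact hIB'.finrank
  have h1 := basOf_min' w hw A' _ hIB' z
  have h2 := laplace w hw (basOf w hw A) u z X hX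
  unfold fS at hfA'
  rw [hdim, le_div_iff₀ (by positivity)] at hfA'
  have hjjR : ((dimOf w hw A : ℕ) : ℝ) = (rk A : ℝ) := by exact_mod_cast hjj
  rw [hjjR] at h2
  set j := rk A with hj
  have h3 : ε * ρ ^ (j + 1) ≤ (j + 1) * X * ρ ^ j := by
    calc ε * ρ ^ (j + 1) ≤ Nm w (basOf w hw A') z := hfA'
      _ ≤ _ := h1
      _ ≤ (j + 1) * X * Nm w (basOf w hw A) z := h2
      _ ≤ (j + 1) * X * ρ ^ j := by gcongr
  have h4 : ε * ρ ≤ (j + 1) * X := by
    have hρj : 0 < ρ ^ j := by positivity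
    have : (ε * ρ) * ρ ^ j ≤ ((j + 1) * X) * ρ ^ j := by
      calc (ε * ρ) * ρ ^ j = ε * ρ ^ (j + 1) := by ring
        _ ≤ _ := h3
    exact le_of_mul_le_mul_right this hρj
  refine h4.trans ?_
  have hj1 : (j : ℝ) + 1 ≤ n + 1 := by
    have := hIB'.le
    rw [hjj] at this
    exact_mod_cast this
  exact mul_le_mul_of_nonneg_right hj1 hX0


theorem toP_coeff {n : ℕ} {P : ℤ[X]} (hP : P.natDegree ≤ n) :
    toP (fun i : Fin (n + 1) => P.coeff i) = P := by
  unfold toP
  conv_rhs => rw [as_sum_range' P (n + 1) (by omega), Finset.sum_range]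
  simp only [C_mul_X_pow_eq_monomial]

theorem toP_eval {n : ℕ} (u : Fin (n + 1) → ℤ) (x : ℝ) :
    (mR (toP u)).eval x = ∑ k, ((castQ u k : ℚ) : ℝ) * x ^ (k : ℕ) := by
  unfold toP castQ
  rw [mR, Polynomial.map_sum, eval_finsetSum]
  simp

theorem km1 (n : ℕ) (hn : 1 ≤ n) : ∃ c1 : ℝ, 0 < c1 ∧ ∃ C1 : ℝ, 0 < C1 ∧
    ∀ (a q : ℤ), 0 < q → IsCoprime a q → ∀ l : ℝ, 0 < l → 0 ≤ (a : ℝ) / q → (a : ℝ) / q + l ≤ 1 →
    ∀ e δ H : ℝ, 0 < e → e ≤ 1 → 0 < δ → (q : ℝ) ≤ H →
    δ * H ^ n ≤ c1 * e ^ ((n + 1) * n * (n + 1)) →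
    volume {x ∈ Set.Ico ((a : ℝ) / q) ((a : ℝ) / q + l) | ∃ P : ℤ[X], HB n H P ∧
      (mR P).eval ((a : ℝ) / q) ≠ 0 ∧ |(mR P).eval x| ≤ δ} ≤ ENNReal.ofReal (C1 * e * l) := by
  classical
  have hC := CT_pos n
  have hC1 := one_le_CT n
  set K : ℝ := 2 * (((n : ℝ) + 1) * CT n) with hK
  have hK1 : 1 ≤ K := by
    have : (0 : ℝ) ≤ n := Nat.cast_nonneg n
    rw [hK]; nlinarith
  set L : ℝ := ((n : ℝ) + 1) ^ (n + 1) * 2 ^ (n * n) with hL
  have hL0 : 0 < L := by positivity
  have hkm0 := kmC_nonneg (C := 4 * ((((n + 1) * n : ℕ) : ℝ) + 1) ^ 2) (by positivity) (n + 2)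
  refine ⟨1 / (L * K ^ (n + 1)), by positivity,
    kmC (4 * ((((n + 1) * n : ℕ) : ℝ) + 1) ^ 2) (n + 2) + 1, by positivity, ?_⟩
  intro a q hq hco l hl ha0 ha1 e δ H he he1 hδ hH hsmall
  have hq' : (0 : ℝ) < q := by exact_mod_cast hq
  have hH0 : 0 < H := hq'.trans_le hH
  have hw : ∀ k, 0 < wt n δ H k := fun k => by unfold wt; split_ifs <;> assumption
  set x0 : ℝ := (a : ℝ) / q with hx0
  set ε : ℝ := e ^ ((n + 1) * n) with hε
  have hε0 : 0 < ε := by positivity
  have hε1 : ε ≤ 1 := pow_le_one₀ he.le he1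
  set ρ : ℝ := K / ε with hρ
  have hρ1 : 1 ≤ ρ := by rw [hρ, one_le_div hε0]; linarith
  have hρ0 : 0 < ρ := by linarith
  set T : Set (SB n) := {s | ∃ u : Fin (n + 1) → ℤ, castQ u ∈ s.1 ∧ (mR (toP u)).eval x0 ≠ 0} with hT
  have hkm := km (fS (wt n δ H) hw ρ) rk rk_strict (fS_cont _ hw ρ) (4 * (((n + 1) * n : ℕ) + 1) ^ 2)
    (1 / (((n + 1) * n : ℕ) : ℝ)) (by positivity)
    (fun s a l hl hex ε hε => fS_good _ hn hw ρ hρ0 s a l hl hex ε hε) (n + 2)
    T (Finset.range (n + 2)) (by simp) (by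
      intro s _
      rw [Finset.mem_range, ← dimOf_eq _ hw]
      have := (basOf_IB _ hw s).le
      omega) x0 l hl (by
      rintro s ⟨u, hu, hu0⟩
      have hIB := basOf_IB _ hw s
      refine ⟨x0, ⟨le_rfl, by linarith⟩, ?_⟩
      obtain ⟨i0, hi0⟩ : ∃ i0, (mR (toP (basOf _ hw s i0))).eval x0 ≠ 0 := by
        by_contra hcon
        push Not at hcon
        apply hu0
        rw [← hIB.2] at hu
        obtain ⟨c, hc⟩ := (Submodule.mem_span_range_iff_exists_fun ℚ).1 hu
        rw [toP_eval, ← hc]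
        simp only [Finset.sum_apply, Pi.smul_apply, smul_eq_mul, Rat.cast_sum, Rat.cast_mul,
          sum_mul]
        rw [sum_comm]
        refine sum_eq_zero fun i _ => ?_
        have := hcon i
        rw [toP_eval] at this
        simp only [mul_assoc]
        rw [← mul_sum, this, mul_zero]
      have h1 := rich a q hq hco (by rw [abs_of_nonneg ha0]; linarith) _ hIB.1 i0 hi0 δ H hδ hH hIB.le
      unfold fS
      rw [one_le_div (by positivity), ← dimOf_eq _ hw s]
      have h2 : ρ ^ dimOf _ hw s ≤ ρ ^ (n + 1) := pow_le_pow_right₀ hρ1 hIB.le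
      refine h2.trans ?_
      have hN := Nm_nonneg _ hw (basOf _ hw s) x0
      have h3 : ρ ^ (n + 1) * (L * (δ * H ^ n)) ≤ 1 := by
        calc ρ ^ (n + 1) * (L * (δ * H ^ n))
            ≤ ρ ^ (n + 1) * (L * (1 / (L * K ^ (n + 1)) * e ^ ((n + 1) * n * (n + 1)))) := by gcongr
          _ = 1 := by rw [hρ, div_pow, pow_mul e, ← hε]; field_simp
      calc ρ ^ (n + 1) = ρ ^ (n + 1) * 1 := (mul_one _).symm
        _ ≤ ρ ^ (n + 1) * (((n : ℝ) + 1) ^ (n + 1) *
            (2 ^ (n * n) * (δ * H ^ n) * Nm (wt n δ H) (basOf _ hw s) x0)) := by gcongr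
        _ = (ρ ^ (n + 1) * (L * (δ * H ^ n))) * Nm (wt n δ H) (basOf _ hw s) x0 := by rw [hL]; ring
        _ ≤ 1 * Nm (wt n δ H) (basOf _ hw s) x0 := by gcongr
        _ = _ := one_mul _) ε hε0
  refine le_trans (measure_mono ?_) (hkm.trans ?_)
  · rintro z ⟨hz, P, hP, hP0, hPz⟩
    refine ⟨hz, fun hM => ?_⟩
    have hz1 : |z| ≤ 1 := by rw [abs_le]; constructor <;> linarith [hz.1, hz.2]
    have e1 := toP_coeff hP.1
    have h1 := marked_bound' _ T hw ρ hρ0 ε hε0 hε1 z hM (fun i : Fin (n + 1) => P.coeff i) (by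
      intro h
      rw [h] at e1
      apply hP0
      rw [← e1]
      simp [toP]) (fun s hs => ⟨_, hs, by rw [e1]; exact hP0⟩) (CT n) (by
      intro k
      unfold nrm
      rw [e1, div_le_iff₀ (hw k), hasse_eval]
      unfold wt
      split_ifs with hk
      · rw [hk, Fin.val_zero, taylor_coeff_zero]
        nlinarith
      · exact hP.taylor_le hz1 k)
    rw [hρ, mul_div_cancel₀ _ hε0.ne', hK] at h1
    have : 0 < ((n : ℝ) + 1) * CT n := by positivity
    linarith
  · have h1 : ε ^ (1 / (((n + 1) * n : ℕ) : ℝ)) = e := by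
      rw [hε, one_div]
      exact Real.pow_rpow_inv_natCast he.le (by positivity)
    rw [h1, ← ENNReal.ofReal_mul (by positivity)]
    apply ENNReal.ofReal_le_ofReal
    gcongr
    linarith

end Pool.Agent.H792Z.MK
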