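import Pool.Agent.Helper404.KMC
import Pool.Agent.H792Z.KM1

/-! Counting rational points at which a polynomial of moderate height is small. -/

open Polynomial Finset MeasureTheory

namespace Pool.Agent.H792Z.MK

open Pool.Agent.Helper404

theorem count_le {ι : Type*} (S : Finset ι) (D : ι → Set ℝ) (hD : ∀ i, MeasurableSet (D i))
    (hdisj : (S : Set ι).PairwiseDisjoint D) (E : Set ℝ) (c B : ℝ) (hB : 0 ≤ B)
    (h : ∀ i ∈ S, ENNReal.ofReal c ≤ volume (D i ∩ E)) (hE : volume E ≤ ENNReal.ofReal B) :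
    S.card * c ≤ B := by
  have h1 := sum_measure_le_measure_univ (μ := volume.restrict E) (s := S) (t := D)
    (fun i _ => (hD i).nullMeasurableSet) (fun i hi j hj hij => (hdisj hi hj hij).aedisjoint)
  rw [Measure.restrict_apply_univ] at h1
  have h2 : ∑ _i ∈ S, ENNReal.ofReal c ≤ ∑ i ∈ S, volume.restrict E (D i) :=
    sum_le_sum fun i hi => by rw [Measure.restrict_apply (hD i)]; exact h i hi
  have h3 := (h2.trans h1).trans hE
  rw [sum_const, nsmul_eq_mul, ← ENNReal.ofReal_natCast, ← ENNReal.ofReal_mul (by positivity),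
    ENNReal.ofReal_le_ofReal_iff hB] at h3
  exact h3

theorem homog {n : ℕ} (S : ℝ[X]) (hS : S.natDegree ≤ n) (y1 y2 : ℝ) (h : y2 ≠ 0) :
    ∑ i ∈ range (n + 1), S.coeff i * y1 ^ i * y2 ^ (n - i) = y2 ^ n * S.eval (y1 / y2) := by
  rw [eval_eq_sum_range' (n := n + 1) (lt_of_le_of_lt hS (by omega)), mul_sum]
  refine sum_congr rfl fun i hi => ?_
  rw [mem_range] at hi
  have : y2 ^ n = y2 ^ (n - i) * y2 ^ i := by rw [← pow_add]; congr 1; omega
  rw [this, div_pow]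
  field_simp

/-- the transformed polynomial -/
noncomputable def rev (n : ℕ) (a b p d : ℤ) (P : ℤ[X]) : ℤ[X] :=
  ∑ i ∈ range (n + 1), C (P.coeff i) * (C a * X + C b) ^ i * (C p * X + C d) ^ (n - i)

theorem rev_natDegree (n : ℕ) (a b p d : ℤ) (P : ℤ[X]) : (rev n a b p d P).natDegree ≤ n := by
  refine natDegree_sum_le_of_forall_le _ _ fun i hi => ?_
  rw [mem_range] at hi
  rw [mul_assoc]
  refine (natDegree_C_mul_le _ _).trans (natDegree_mul_le.trans ?_)
  have h1 : ((C a * X + C b) ^ i).natDegree ≤ i * 1 :=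
    natDegree_pow_le.trans (Nat.mul_le_mul_left _ natDegree_linear_le)
  have h2 : ((C p * X + C d) ^ (n - i)).natDegree ≤ (n - i) * 1 :=
    natDegree_pow_le.trans (Nat.mul_le_mul_left _ natDegree_linear_le)
  omega

theorem rev_eq {n : ℕ} {P : ℤ[X]} (hP : P.natDegree ≤ n) (a b p d : ℤ) (hp : p ≠ 0)
    (h : a * d - b * p = 1) :
    mR (rev n a b p d P) = ∑ m ∈ range (n + 1),
      C ((taylor ((a : ℝ) / p) (mR P)).coeff m * (-1 / p) ^ m * (p : ℝ) ^ (n - m)) *
        (X + C ((d : ℝ) / p)) ^ (n - m) := by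
  have hp' : (p : ℝ) ≠ 0 := by exact_mod_cast hp
  have h' : (a : ℝ) * d - b * p = 1 := by exact_mod_cast h
  apply eq_of_infinite_eval_eq
  refine Set.Infinite.mono ?_ (Set.finite_singleton (-(d : ℝ) / p)).infinite_compl
  intro z hz
  have hz' : (p : ℝ) * z + d ≠ 0 := by
    intro h0
    apply hz
    rw [Set.mem_singleton_iff, eq_div_iff hp']
    linarith
  simp only [Set.mem_ofPred_eq]
  have e1 : (mR (rev n a b p d P)).eval z = ∑ i ∈ range (n + 1),
      (mR P).coeff i * ((a : ℝ) * z + b) ^ i * ((p : ℝ) * z + d) ^ (n - i) := by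
    rw [rev, mR, Polynomial.map_sum, eval_finsetSum]
    refine sum_congr rfl fun i _ => ?_
    simp only [Polynomial.map_mul, Polynomial.map_pow, Polynomial.map_add, map_C, map_X, eval_mul,
      eval_pow, eval_add, eval_C, eval_X, coeff_map]
    rfl
  have e2 := homog (taylor ((a : ℝ) / p) (mR P)) (n := n)
    (by rw [natDegree_taylor]; exact mR_natDegree hP) (-1 / p) _ hz'
  rw [e1, homog _ (mR_natDegree hP) _ _ hz', eval_finsetSum]
  have e3 : ((a : ℝ) * z + b) / ((p : ℝ) * z + d) = -1 / p / ((p : ℝ) * z + d) + (a : ℝ) / p := by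
    have e4 : (a : ℝ) * z + b = -1 / p + (a : ℝ) / p * ((p : ℝ) * z + d) := by
      field_simp
      linear_combination (-1) * h'
    rw [e4, add_div, mul_div_assoc, div_self hz', mul_one]
  rw [e3, ← taylor_eval, ← e2]
  refine sum_congr rfl fun m _ => ?_
  simp only [eval_mul, eval_C, eval_pow, eval_add, eval_X]
  have : (p : ℝ) * z + d = p * (z + d / p) := by field_simp
  rw [this, mul_pow]
  ring

theorem rev_taylor {n : ℕ} {P : ℤ[X]} (hP : P.natDegree ≤ n) (a b p d : ℤ) (hp : p ≠ 0)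
    (h : a * d - b * p = 1) (z : ℝ) (k : ℕ) :
    (taylor z (mR (rev n a b p d P))).coeff k = ∑ m ∈ range (n + 1),
      (taylor ((a : ℝ) / p) (mR P)).coeff m * (-1 / p) ^ m * (p : ℝ) ^ (n - m) *
        ((z + (d : ℝ) / p) ^ (n - m - k) * ((n - m).choose k : ℝ)) := by
  rw [rev_eq hP a b p d hp h, map_sum, finsetSum_coeff]
  refine sum_congr rfl fun m _ => ?_
  rw [taylor_mul, taylor_C, taylor_pow, map_add, taylor_X, taylor_C, add_assoc, ← C_add,
    coeff_C_mul, coeff_X_add_C_pow]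

theorem rev_top {n : ℕ} {P : ℤ[X]} (hP : P.natDegree ≤ n) (a b p d : ℤ) (hp : p ≠ 0)
    (h : a * d - b * p = 1) (z : ℝ) :
    (taylor z (mR (rev n a b p d P))).coeff n = (mR P).eval ((a : ℝ) / p) * (p : ℝ) ^ n := by
  rw [rev_taylor hP a b p d hp h, sum_eq_single 0]
  · simp
  · intro m hm hm0
    rw [mem_range] at hm
    rw [Nat.choose_eq_zero_of_lt (by omega)]
    simp
  · simp

theorem rev_low {n : ℕ} {H Q : ℝ} {P : ℤ[X]} (hP : HB n H P) (a b p d : ℤ) (hQ : 1 ≤ Q)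
    (hp1 : Q ≤ p) (hp2 : (p : ℝ) ≤ 2 * Q) (ha : |(a : ℝ) / p| ≤ 1)
    (h : a * d - b * p = 1) (z : ℝ) (hz : |z + (d : ℝ) / p| ≤ 1 / Q ^ 2) (k : ℕ) :
    |(taylor z (mR (rev n a b p d P))).coeff k| ≤
      ((n : ℝ) + 1) * (CT n * 2 ^ n * 2 ^ n * (H * Q ^ (2 * k) / Q ^ n)) := by
  have hQ0 : 0 < Q := by linarith
  have hp0 : (0 : ℝ) < p := by linarith
  have hH := hP.nonneg
  have hC := CT_pos n
  rw [rev_taylor hP.1 a b p d (by exact_mod_cast hp0.ne') h]
  refine (abs_sum_le_sum_abs _ _).trans ?_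
  refine (sum_le_card_nsmul _ _ (CT n * 2 ^ n * 2 ^ n * (H * Q ^ (2 * k) / Q ^ n)) ?_).trans ?_
  swap
  · rw [card_range, nsmul_eq_mul]; push_cast; rfl
  intro m hm
  rw [mem_range] at hm
  by_cases hk : n - m < k
  · rw [Nat.choose_eq_zero_of_lt hk]
    simp only [Nat.cast_zero, mul_zero, abs_zero]
    positivity
  obtain ⟨j, hj⟩ : ∃ j, n = m + k + j := ⟨n - m - k, by omega⟩
  have e1 : n - m = k + j := by omega
  have e2 : k + j - k = j := by omega
  rw [e1, e2]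
  simp only [abs_mul, abs_pow, abs_div, abs_neg, abs_one, abs_of_pos hp0, Nat.abs_cast]
  have h1 := hP.taylor_le ha m
  have h2 : (((k + j).choose k : ℕ) : ℝ) ≤ 2 ^ n := by
    have : (k + j).choose k ≤ 2 ^ n :=
      (Nat.choose_le_two_pow _ _).trans (Nat.pow_le_pow_right (by norm_num) (by omega))
    exact_mod_cast this
  have h3 : (2 : ℝ) ^ (k + j) ≤ 2 ^ n := pow_le_pow_right₀ (by norm_num) (by omega)
  calc |(taylor ((a : ℝ) / p) (mR P)).coeff m| * (1 / (p : ℝ)) ^ m * (p : ℝ) ^ (k + j) *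
        (|z + (d : ℝ) / p| ^ j * ((k + j).choose k : ℝ))
      ≤ (CT n * H) * (1 / Q) ^ m * (2 * Q) ^ (k + j) * ((1 / Q ^ 2) ^ j * 2 ^ n) := by gcongr
    _ = CT n * 2 ^ (k + j) * 2 ^ n * (H * Q ^ (2 * k) / Q ^ (m + k + j)) := by
        simp only [one_div, inv_pow, mul_pow, ← pow_mul]
        field_simp
        ring
    _ ≤ _ := by rw [← hj]; gcongr

/-- weights -/
noncomputable def wr (n : ℕ) (δ H Q : ℝ) (k : ℕ) : ℝ :=
  if k = n then δ * Q ^ n else H * Q ^ (2 * k) / Q ^ n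

theorem wr_prod (n : ℕ) (δ H Q : ℝ) (hQ : 0 < Q) (j : ℕ) (hj : j ≤ n) :
    ∏ b ∈ range j, wr n δ H Q b = (H / Q) ^ j * (Q ^ (j * j) / Q ^ (n * j)) := by
  induction j with
  | zero => simp
  | succ j ih =>
    rw [prod_range_succ, ih (by omega), wr, if_neg (by omega)]
    simp only [div_pow]
    field_simp
    ring

theorem km2 (n : ℕ) (hn : 1 ≤ n) : ∃ c2 : ℝ, 0 < c2 ∧ ∃ C2 : ℝ, 0 < C2 ∧
    ∀ Q e δ H : ℝ, 1 ≤ Q → 0 < e → e ≤ 1 → 0 < δ → 0 < H → H ≤ c2 * e ^ ((n + 1) * n) * Q →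
    δ * H ^ n ≤ c2 * e ^ ((n + 1) * n * (n + 1)) →
    ∀ S : Finset (ℤ × ℤ), (∀ y ∈ S, Q ≤ y.2 ∧ (y.2 : ℝ) ≤ 2 * Q ∧ 0 ≤ y.1 ∧ y.1 < y.2 ∧
      IsCoprime y.1 y.2 ∧ ∃ P : ℤ[X], HB n H P ∧ (mR P).eval ((y.1 : ℝ) / y.2) ≠ 0 ∧
        |(mR P).eval ((y.1 : ℝ) / y.2)| ≤ δ) → (S.card : ℝ) ≤ C2 * e * Q ^ 2 := by
  classical
  have hC := CT_pos n
  have hC1 := one_le_CT n
  have hn0 : (0 : ℝ) ≤ n := Nat.cast_nonneg n
  set K1 : ℝ := ((n : ℝ) + 1) * (CT n * 2 ^ n * 2 ^ n) with hK1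
  have h2n : (1 : ℝ) ≤ 2 ^ n := one_le_pow₀ (by norm_num)
  have hK12 : 2 ^ n ≤ K1 := by
    rw [hK1]
    calc (2 : ℝ) ^ n = 1 * (1 * 1 * 2 ^ n) := by ring
      _ ≤ _ := by gcongr; linarith
  set K : ℝ := 2 * (((n : ℝ) + 1) * K1) with hK
  have hK0 : 1 ≤ K := by rw [hK]; nlinarith
  set L : ℝ := ((((n + 1) * n : ℕ) : ℝ) + 1) ^ ((n + 1) * n) with hL
  have hL1 : 1 ≤ L := one_le_pow₀ (by linarith [(Nat.cast_nonneg ((n + 1) * n) : (0 : ℝ) ≤ _)])
  have hkm0 := kmC_nonneg (C := 4 * ((((n + 1) * n : ℕ) : ℝ) + 1) ^ 2) (by positivity) (n + 1)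
  refine ⟨1 / (L * K ^ (n + 1)), by positivity,
    12 * kmC (4 * ((((n + 1) * n : ℕ) : ℝ) + 1) ^ 2) (n + 1) + 1, by positivity, ?_⟩
  intro Q e δ H hQ he he1 hδ hH hH1 hH2 S hS
  have hQ0 : 0 < Q := by linarith
  set ε : ℝ := e ^ ((n + 1) * n) with hε
  have hε0 : 0 < ε := by positivity
  have hε1 : ε ≤ 1 := pow_le_one₀ he.le he1
  set ρ : ℝ := K / ε with hρ
  have hρ0 : 0 < ρ := by positivity
  have hw : ∀ k : Fin (n + 1), 0 < wr n δ H Q k := fun k => by unfold wr; split_ifs <;> positivity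
  have hkm := km_concrete (fun k : Fin (n + 1) => wr n δ H Q k) hn hw ρ hρ0 (by
    intro j hj1 hj
    have e1 : ∏ b : Fin j, wr n δ H Q (Fin.castLE hj b) = ∏ b ∈ range j, wr n δ H Q b :=
      Fin.prod_univ_eq_prod_range (fun b => wr n δ H Q b) j
    rw [e1, ← hL]
    rcases Nat.lt_or_ge n j with h | h
    · have : j = n + 1 := by omega
      subst this
      rw [prod_range_succ, wr_prod n δ H Q hQ0 n le_rfl, wr, if_pos rfl]
      calc ρ ^ (n + 1) * ((H / Q) ^ n * (Q ^ (n * n) / Q ^ (n * n)) * (δ * Q ^ n))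
          = ρ ^ (n + 1) * (δ * H ^ n) := by rw [div_pow H Q]; field_simp
        _ ≤ ρ ^ (n + 1) * (1 / (L * K ^ (n + 1)) * e ^ ((n + 1) * n * (n + 1))) := by gcongr
        _ = 1 / L := by rw [hρ, div_pow, pow_mul e, ← hε]; field_simp
    · rw [wr_prod n δ H Q hQ0 j h]
      have h1 : Q ^ (j * j) / Q ^ (n * j) ≤ 1 := by
        rw [div_le_one (by positivity)]
        exact pow_le_pow_right₀ hQ (Nat.mul_le_mul_right _ h)
      have h2 : ρ * (H / Q) ≤ 1 / L := by
        have h3 : K ≤ K ^ (n + 1) := le_self_pow₀ hK0 (by omega)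
        calc ρ * (H / Q) ≤ ρ * (1 / (L * K ^ (n + 1)) * ε * Q / Q) := by gcongr
          _ = 1 / L * (K / K ^ (n + 1)) := by rw [hρ]; field_simp
          _ ≤ 1 / L * 1 := by gcongr; rw [div_le_one (by positivity)]; exact h3
          _ = _ := mul_one _
      have h4 : 1 / L ≤ 1 := by rw [div_le_one (by positivity)]; exact hL1
      calc ρ ^ j * ((H / Q) ^ j * (Q ^ (j * j) / Q ^ (n * j))) ≤ ρ ^ j * ((H / Q) ^ j * 1) := by
            gcongr
        _ = (ρ * (H / Q)) ^ j := by rw [mul_one, mul_pow]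
        _ ≤ ρ * (H / Q) := pow_le_of_le_one (by positivity) (h2.trans h4) (by omega)
        _ ≤ _ := h2) ε hε0 hε1
  have hinv : ∀ y ∈ S, ∃ d b : ℤ, 0 ≤ d ∧ d < y.2 ∧ y.1 * d - b * y.2 = 1 := by
    intro y hy
    obtain ⟨-, -, h3, h4, ⟨u, v, huv⟩, -⟩ := hS y hy
    have h5 : 0 < y.2 := by omega
    refine ⟨u % y.2, -v - y.1 * (u / y.2), Int.emod_nonneg _ h5.ne', Int.emod_lt_of_pos _ h5, ?_⟩
    rw [Int.emod_def]
    linear_combination huv
  choose! d b hd0 hd1 hdb using hinv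
  have h1 : ε ^ (1 / (((n + 1) * n : ℕ) : ℝ)) = e := by
    rw [hε, one_div]
    exact Real.pow_rpow_inv_natCast he.le (by positivity)
  rw [h1] at hkm
  have hcount := count_le S
    (fun y => Set.Ico (-((d y : ℝ) / y.2)) (-((d y : ℝ) / y.2) + 1 / (4 * Q ^ 2)))
    (fun _ => measurableSet_Ico) (by
      intro y hy y' hy' hne
      rw [Function.onFun, Set.disjoint_left]
      intro z hz hz'
      apply hne
      obtain ⟨a1, a2, a3, a4, -, -⟩ := hS y hy
      obtain ⟨b1, b2, b3, b4, -, -⟩ := hS y' hy'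
      have hp : (0 : ℝ) < y.2 := by linarith
      have hp' : (0 : ℝ) < y'.2 := by linarith
      have h2 : |(d y : ℝ) / y.2 - (d y' : ℝ) / y'.2| < 1 / (4 * Q ^ 2) := by
        rw [abs_lt]; constructor <;> linarith [hz.1, hz.2, hz'.1, hz'.2]
      have h3 : d y * y'.2 - d y' * y.2 = 0 := by
        by_contra h0
        have h4 : (1 : ℝ) ≤ |((d y * y'.2 - d y' * y.2 : ℤ) : ℝ)| := by
          exact_mod_cast Int.one_le_abs h0
        have h5 : (d y : ℝ) / y.2 - (d y' : ℝ) / y'.2 =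
            ((d y * y'.2 - d y' * y.2 : ℤ) : ℝ) / (y.2 * y'.2) := by
          push_cast; field_simp
        rw [h5, abs_div, abs_of_pos (mul_pos hp hp'), div_lt_div_iff₀ (by positivity)
          (by positivity)] at h2
        have h6 : (y.2 : ℝ) * y'.2 ≤ (2 * Q) * (2 * Q) := by gcongr
        nlinarith [sq_nonneg Q]
      have c1 := hdb y hy
      have c2 := hdb y' hy'
      have h4 : y.2 ∣ y'.2 := ⟨y.1 * d y' - b y * y'.2, by linear_combination (-y'.2) * c1 + y.1 * h3⟩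
      have h5 : y'.2 ∣ y.2 := ⟨y'.1 * d y - b y' * y.2, by linear_combination (-y.2) * c2 - y'.1 * h3⟩
      have h6 : y.2 = y'.2 := Int.dvd_antisymm (by omega) (by omega) h4 h5
      have h7 : d y = d y' := by
        rw [← h6, ← sub_mul, mul_eq_zero] at h3
        rcases h3 with h | h <;> omega
      rw [← h6, ← h7] at c2
      have h8 : y.2 ∣ y.1 - y'.1 :=
        ⟨y.1 * (b y - b y') - b y * (y.1 - y'.1), by
          linear_combination (-(y.1 - y'.1)) * c1 + y.1 * c1 - y.1 * c2⟩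
      have h9 : y.1 - y'.1 = 0 := Int.eq_zero_of_abs_lt_dvd h8 (by rw [abs_lt]; omega)
      exact Prod.ext (by omega) h6) _ (1 / (4 * Q ^ 2)) _ (by positivity) (by
      intro y hy
      rw [Set.inter_eq_left.2, Real.volume_Ico]
      · apply le_of_eq; congr 1; ring
      intro z hz
      obtain ⟨a1, a2, a3, a4, -, P, hP, hP0, hPδ⟩ := hS y hy
      have hp : (0 : ℝ) < y.2 := by linarith
      have hp0 : y.2 ≠ 0 := by omega
      have hq1 : 0 ≤ (d y : ℝ) / y.2 := div_nonneg (by exact_mod_cast hd0 y hy) hp.le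
      have hq2 : (d y : ℝ) / y.2 ≤ 1 := by
        rw [div_le_one hp]; exact_mod_cast (hd1 y hy).le
      have hq3 : 1 / (4 * Q ^ 2) ≤ 1 / Q ^ 2 := by
        gcongr; nlinarith [sq_nonneg Q]
      have hq4 : 1 / Q ^ 2 ≤ 1 := by
        rw [div_le_one (by positivity)]; exact one_le_pow₀ hQ
      have ha : |(y.1 : ℝ) / y.2| ≤ 1 := by
        rw [abs_of_nonneg (div_nonneg (by exact_mod_cast a3) hp.le), div_le_one hp]
        exact_mod_cast a4.le
      have e1 := toP_coeff (rev_natDegree n y.1 (b y) y.2 (d y) P)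
      have htop := rev_top hP.1 y.1 (b y) y.2 (d y) hp0 (hdb y hy) z
      refine ⟨⟨by linarith [hz.1], by linarith [hz.2]⟩,
        fun i : Fin (n + 1) => (rev n y.1 (b y) y.2 (d y) P).coeff i, ?_, fun k => ?_⟩
      · intro h0
        rw [h0] at e1
        rw [← e1] at htop
        simp only [toP, Pi.zero_apply, map_zero, zero_mul, sum_const_zero, mR, Polynomial.map_zero,
          coeff_zero] at htop
        exact mul_ne_zero hP0 (pow_ne_zero _ hp.ne') htop.symm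
      · rw [e1, hasse_eval, hρ, mul_div_cancel₀ _ hε0.ne']
        have h2 : |(taylor z (mR (rev n y.1 (b y) y.2 (d y) P))).coeff k| ≤ K1 * wr n δ H Q k := by
          unfold wr
          split_ifs with hk
          · rw [hk, htop, abs_mul, abs_pow, abs_of_pos hp]
            calc _ ≤ δ * (2 * Q) ^ n := by gcongr
              _ = 2 ^ n * (δ * Q ^ n) := by rw [mul_pow]; ring
              _ ≤ _ := by gcongr
          · refine (rev_low hP y.1 (b y) y.2 (d y) hQ a1 a2 ha (hdb y hy) z ?_ k).trans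
              (le_of_eq (by rw [hK1]; ring))
            rw [abs_le]; constructor <;> linarith [hz.1, hz.2]
        have h3 := hw k
        have h4 : 0 < ((n : ℝ) + 1) * (K1 * wr n δ H Q k) := by positivity
        calc _ ≤ ((n : ℝ) + 1) * (K1 * wr n δ H Q k) := by gcongr
          _ < _ := by rw [hK]; linarith) hkm
  rw [mul_one_div, div_le_iff₀ (by positivity)] at hcount
  have : 0 < e * Q ^ 2 := by positivity
  nlinarith

end Pool.Agent.H792Z.MK
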