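import Mathlib

/-! Mahler and Koksma exponents, simple normality. -/

open Polynomial Filter Topology

namespace Pool.Agent.H792Z.MK

/-- The height of an integer polynomial: the maximum of the absolute values of its coefficients. -/
def height (P : ℤ[X]) : ℕ := P.support.sup fun i => (P.coeff i).natAbs

/-- Mahler's exponent `w_n(ξ)`: the supremum (in the extended reals) of the real `w` such that
`0 < |P(ξ)| ≤ H(P)^(-w)` for infinitely many integer polynomials `P` of degree at most `n`. -/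
noncomputable def wn (n : ℕ) (ξ : ℝ) : EReal :=
  sSup (Real.toEReal '' {w : ℝ | Set.Infinite {P : ℤ[X] | P.natDegree ≤ n ∧ 0 < |aeval ξ P| ∧
    |aeval ξ P| ≤ (height P : ℝ) ^ (-w)}})

/-- `P` is the minimal polynomial of `α` over the integers: primitive, positive leading
coefficient, vanishing at `α`, of least positive degree. -/
def IsMinPoly (P : ℤ[X]) (α : ℝ) : Prop :=
  P.IsPrimitive ∧ 0 < P.leadingCoeff ∧ 0 < P.natDegree ∧ aeval α P = 0 ∧
    ∀ Q : ℤ[X], 0 < Q.natDegree → aeval α Q = 0 → P.natDegree ≤ Q.natDegree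

/-- Koksma's exponent `w_n^*(ξ)`: the supremum (in the extended reals) of the real `w` such that
`0 < |ξ - α| ≤ H(α)^(-w-1)` for infinitely many real algebraic `α` of degree at most `n`. -/
noncomputable def wnStar (n : ℕ) (ξ : ℝ) : EReal :=
  sSup (Real.toEReal '' {w : ℝ | Set.Infinite {α : ℝ | ∃ P : ℤ[X], IsMinPoly P α ∧
    P.natDegree ≤ n ∧ 0 < |ξ - α| ∧ |ξ - α| ≤ (height P : ℝ) ^ (-w - 1)}})

/-- `ξ` is simply normal in base `b`: every digit `d < b` has asymptotic frequency `1 / b`; the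
`(i+1)`-st digit after the point is `⌊ξ b^(i+1)⌋ mod b`. -/
def SimplyNormal (b : ℕ) (ξ : ℝ) : Prop :=
  ∀ d : ℕ, d < b → Tendsto (fun N : ℕ => (((Finset.range N).filter fun i : ℕ =>
    ⌊ξ * (b : ℝ) ^ (i + 1)⌋ % (b : ℤ) = (d : ℤ)).card : ℝ) / (N : ℝ)) atTop (𝓝 (1 / (b : ℝ)))

end Pool.Agent.H792Z.MK
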