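import Pool.Agent.H792Z.Step2
import Pool.Agent.H792Z.MKDefs

/-! The limit point of the nested intervals and its exponents. -/

open Polynomial Finset Filter Topology

namespace Pool.Agent.H792Z.MK

open Pool.Agent.Helper404

theorem le_height (P : ℤ[X]) (i : ℕ) : |(P.coeff i : ℝ)| ≤ height P := by
  by_cases h : i ∈ P.support
  · have h1 : (P.coeff i).natAbs ≤ height P :=
      Finset.le_sup (f := fun i => (P.coeff i).natAbs) h
    have h2 : (((P.coeff i).natAbs : ℕ) : ℝ) ≤ height P := by exact_mod_cast h1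
    rwa [Nat.cast_natAbs, Int.cast_abs] at h2
  · rw [notMem_support_iff.1 h]; simp

theorem height_le {n : ℕ} {H : ℝ} {P : ℤ[X]} (h : HB n H P) : (height P : ℝ) ≤ H := by
  have h1 : height P ≤ ⌊H⌋₊ := by
    refine Finset.sup_le fun i _ => Nat.le_floor ?_
    rw [Nat.cast_natAbs, Int.cast_abs]
    exact h.2 i
  exact (Nat.cast_le.2 h1).trans (Nat.floor_le h.nonneg)

theorem HB.one_le {n : ℕ} {H : ℝ} {P : ℤ[X]} (h : HB n H P) (h0 : P ≠ 0) : 1 ≤ H := by
  refine le_trans ?_ (h.2 P.natDegree)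
  exact_mod_cast Int.one_le_abs (leadingCoeff_ne_zero.2 h0)

theorem factor_of_root {n : ℕ} {P : ℤ[X]} (hP : P.natDegree ≤ n) (h0 : P ≠ 0) {a q : ℤ} (hq : 0 < q)
    (hco : IsCoprime a q) (h : (mR P).eval ((a : ℝ) / q) = 0) :
    ∃ Q : ℤ[X], Q ≠ 0 ∧ Q.natDegree < n ∧ P = (C q * X - C a) * Q := by
  obtain ⟨d, b', hdb⟩ := hco
  obtain ⟨Q, hQ1, hQ2⟩ := decomp hP a (-b') d q hq.ne' (by linarith)
  have h1 := val_eq hP a q hq.ne'
  rw [h, mul_zero] at h1
  have h2 : val n a q P = 0 := by exact_mod_cast h1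
  rw [h2, C_0, zero_mul, add_zero] at hQ2
  have h3 : Q ≠ 0 := by
    intro h4; rw [h4, mul_zero] at hQ2; exact h0 hQ2
  exact ⟨Q, h3, hQ1.resolve_left h3, hQ2⟩

theorem eval_ne_zero {n : ℕ} {H : ℝ} {P : ℤ[X]} (hP : HB n H P) (h0 : P ≠ 0) {a q : ℤ} (hq : 0 < q)
    (hco : IsCoprime a q) (hH : H < q) : (mR P).eval ((a : ℝ) / q) ≠ 0 := by
  intro h
  obtain ⟨Q, h1, -, h2⟩ := factor_of_root hP.1 h0 hq hco h
  have h3 : P.leadingCoeff = q * Q.leadingCoeff := by
    rw [h2, leadingCoeff_mul, sub_eq_add_neg, ← C_neg, leadingCoeff_linear hq.ne']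
  have h4 := hP.2 P.natDegree
  rw [coeff_natDegree, h3] at h4
  push_cast at h4
  have hq' : (0 : ℝ) < q := by exact_mod_cast hq
  have h5 : (1 : ℝ) ≤ |(Q.leadingCoeff : ℝ)| := by
    exact_mod_cast Int.one_le_abs (leadingCoeff_ne_zero.2 h1)
  rw [abs_mul, abs_of_pos hq'] at h4
  nlinarith

/-- the invariant of a stage -/
def Inv (w : ℝ) (y : ℤ × ℤ) : Prop :=
  2 ≤ y.2 ∧ IsCoprime y.1 y.2 ∧ 0 ≤ (y.1 : ℝ) / y.2 ∧ (y.1 : ℝ) / y.2 + LL w y.2 ≤ 1

/-- the relation between consecutive stages -/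
def Rel (n : ℕ) (w θ : ℝ) (y y' : ℤ × ℤ) : Prop :=
  y.2 < y'.2 ∧ (y.1 : ℝ) / y.2 + LL w y.2 / 2 ≤ (y'.1 : ℝ) / y'.2 ∧
    (y'.1 : ℝ) / y'.2 + LL w y'.2 ≤ (y.1 : ℝ) / y.2 + LL w y.2 ∧ Good n w θ y.1 y.2 y'.1 y'.2

theorem limit (n : ℕ) (w θ : ℝ) (hw : 0 ≤ w) (hθ : 0 < θ) (f : ℕ → ℤ × ℤ) (hI : ∀ k, Inv w (f k))
    (hR : ∀ k, Rel n w θ (f k) (f (k + 1))) : ∃ ξ : ℝ,
    (∀ k, ((f k).1 : ℝ) / (f k).2 + LL w (f k).2 / 2 ≤ ξ ∧
      ξ ≤ ((f k).1 : ℝ) / (f k).2 + LL w (f k).2) ∧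
    ∃ c : ℝ, 0 < c ∧ ∀ (P : ℤ[X]) (H : ℝ), P ≠ 0 → HB n H P → c * H ^ (-w) ≤ |(mR P).eval ξ| := by
  have hq : ∀ k, 0 < (f k).2 := fun k => by have := (hI k).1; omega
  have hq' : ∀ k, (1 : ℝ) ≤ (f k).2 := fun k => by exact_mod_cast hq k
  have hL : ∀ k, 0 < LL w (f k).2 := fun k => LL_pos w (hq k)
  have hm : Monotone fun k => ((f k).1 : ℝ) / (f k).2 :=
    monotone_nat_of_le_succ fun k => by linarith [(hR k).2.1, hL k]
  have ha : Antitone fun k => ((f k).1 : ℝ) / (f k).2 + LL w (f k).2 :=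
    antitone_nat_of_succ_le fun k => (hR k).2.2.1
  have hle : ∀ i k, ((f i).1 : ℝ) / (f i).2 ≤ ((f k).1 : ℝ) / (f k).2 + LL w (f k).2 := by
    intro i k
    have h1 := hm (le_max_left i k)
    have h2 := ha (le_max_right i k)
    have h3 := hL (max i k)
    simp only at h1 h2
    linarith
  have hbdd : BddAbove (Set.range fun k => ((f k).1 : ℝ) / (f k).2) :=
    ⟨_, by rintro _ ⟨i, rfl⟩; exact hle i 0⟩
  obtain ⟨ξ, hξ1, hξ2⟩ : ∃ ξ : ℝ, (∀ k, ((f k).1 : ℝ) / (f k).2 ≤ ξ) ∧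
      ∀ k, ξ ≤ ((f k).1 : ℝ) / (f k).2 + LL w (f k).2 :=
    ⟨⨆ k, ((f k).1 : ℝ) / (f k).2, fun k => le_ciSup hbdd k, fun k => ciSup_le fun i => hle i k⟩
  have hξ3 : ∀ k, ((f k).1 : ℝ) / (f k).2 + LL w (f k).2 / 2 ≤ ξ :=
    fun k => (hR k).2.1.trans (hξ1 (k + 1))
  refine ⟨ξ, fun k => ⟨hξ3 k, hξ2 k⟩, ?_⟩
  have hgrow : ∀ k : ℕ, (k : ℤ) < (f k).2 := by
    intro k
    induction k with
    | zero => exact hq 0
    | succ k ih => have := (hR k).1; push_cast; omega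
  suffices key : ∀ d, d ≤ n → ∃ c : ℝ, 0 < c ∧ ∀ (P : ℤ[X]) (H : ℝ), P ≠ 0 → HB d H P →
      c * H ^ (-w) ≤ |(mR P).eval ξ| from key n le_rfl
  intro d
  induction d with
  | zero =>
    refine fun _ => ⟨1, one_pos, fun P H h0 hP => ?_⟩
    have h1 := hP.one_le h0
    have h2 : H ^ (-w) ≤ 1 := Real.rpow_le_one_of_one_le_of_nonpos h1 (by linarith)
    rw [one_mul]
    refine h2.trans ?_
    have h3 := eq_C_of_natDegree_le_zero hP.1
    rw [h3] at h0 ⊢
    rw [mR, map_C, eval_C]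
    have h4 : P.coeff 0 ≠ 0 := fun h => h0 (by rw [h, C_0])
    have h5 : (1 : ℝ) ≤ |(P.coeff 0 : ℝ)| := by exact_mod_cast Int.one_le_abs h4
    exact h5
  | succ d ih =>
    intro hd
    obtain ⟨c, hc, hih⟩ := ih (by omega)
    have hC := CT_pos (d + 1)
    have hq0 : (0 : ℝ) < (f 0).2 := by linarith [hq' 0]
    refine ⟨min (θ * ((f 0).2 : ℝ) ^ (-w)) (c / 2 * (CT (d + 1) ^ 2) ^ (-w)),
      lt_min (by positivity) (by positivity), fun P H h0 hP => ?_⟩
    have hH1 := hP.one_le h0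
    have hex : ∃ s, H < (f (s + 1)).2 := by
      obtain ⟨s, hs⟩ := exists_nat_gt H
      refine ⟨s, hs.trans ?_⟩
      have := hgrow (s + 1)
      exact_mod_cast (by push_cast at this; omega : (s : ℤ) < (f (s + 1)).2)
    classical
    obtain ⟨s, hs1, hs2⟩ : ∃ s, H < (f (s + 1)).2 ∧ ((f s).2 : ℝ) ≤ (f 0).2 * H := by
      refine ⟨Nat.find hex, Nat.find_spec hex, ?_⟩
      rcases Nat.eq_zero_or_pos (Nat.find hex) with h | h
      · rw [h]; nlinarith
      · have := Nat.find_min hex (m := Nat.find hex - 1) (by omega)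
        rw [Nat.sub_add_cancel h, not_lt] at this
        nlinarith [hq' 0]
    have hHw : 0 < H ^ (-w) := by positivity
    by_cases hz : (mR P).eval (((f s).1 : ℝ) / (f s).2) = 0
    · obtain ⟨Q, hQ0, hQ1, hQ2⟩ := factor_of_root hP.1 h0 (hq s) (hI s).2.1 hz
      have hqs : (0 : ℝ) < (f s).2 := by linarith [hq' s]
      have h1 := HB.quot (f s).1 (f s).2 (hq s) (by
        rw [abs_of_nonneg (hI s).2.2.1]; linarith [(hI s).2.2.2, hL s]) (hQ2 ▸ hP) (by omega)
      have h2 := hih Q _ hQ0 h1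
      have h3 : ((f s).2 : ℝ) ^ (-w) / 2 ≤ |(mR (C (f s).2 * X - C (f s).1)).eval ξ| := by
        rw [mR_lin _ _ (hq s).ne', eval_mul, eval_C, eval_sub, eval_X, eval_C, ← LL_mul w (hq s)]
        refine le_trans ?_ (le_abs_self _)
        rw [mul_div_assoc]
        gcongr
        linarith [hξ3 s]
      refine (mul_le_mul_of_nonneg_right (min_le_right _ _) hHw.le).trans ?_
      rw [hQ2, mR, Polynomial.map_mul, eval_mul, abs_mul]
      refine le_trans (le_of_eq ?_) (mul_le_mul h3 h2 (by positivity) (abs_nonneg _))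
      rw [Real.div_rpow (by positivity) hqs.le, Real.mul_rpow (by positivity) (by linarith)]
      have : 0 < ((f s).2 : ℝ) ^ (-w) := by positivity
      field_simp
    · have hP' : HB n H P := ⟨hP.1.trans hd, hP.2⟩
      have h1 := (hR s).2.2.2 ξ (hξ1 (s + 1)) (hξ2 (s + 1)) P (max H (f s).2)
        (hP'.mono (le_max_left _ _)) (le_max_right _ _)
        (max_le hs1.le (by exact_mod_cast (hR s).1.le)) hz
        (eval_ne_zero hP h0 (hq _) (hI _).2.1 hs1)
      refine (mul_le_mul_of_nonneg_right (min_le_left _ _) hHw.le).trans (le_trans ?_ h1)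
      rw [mul_assoc, ← Real.mul_rpow hq0.le (by linarith)]
      refine mul_le_mul_of_nonneg_left ?_ hθ.le
      refine Real.rpow_le_rpow_of_nonpos (lt_max_of_lt_left (by linarith)) (max_le ?_ hs2)
        (by linarith)
      nlinarith [hq' 0]

theorem finite_polys (n : ℕ) (B : ℝ) : {P : ℤ[X] | HB n B P}.Finite := by
  refine Set.Finite.subset ((Set.Finite.pi' (fun _ : Fin (n + 1) =>
    Set.finite_Icc (-⌈B⌉) ⌈B⌉)).image toP) fun P hP => ⟨fun i => P.coeff i, fun i => ?_, toP_coeff hP.1⟩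
  have h1 : |(P.coeff i : ℝ)| ≤ (⌈B⌉ : ℤ) := (hP.2 i).trans (Int.le_ceil B)
  have h2 : |P.coeff i| ≤ ⌈B⌉ := by exact_mod_cast h1
  exact abs_le.1 h2

theorem height_bound {c K w w' : ℝ} (hc : 0 < c) (h : w < w') :
    ∃ B : ℝ, ∀ x : ℝ, 1 ≤ x → c * x ^ (-w) ≤ K * x ^ (-w') → x ≤ B := by
  obtain ⟨B, hB⟩ := eventually_atTop.1
    ((tendsto_rpow_atTop (y := w' - w) (by linarith)).eventually_gt_atTop (K / c))
  refine ⟨B, fun x hx h1 => ?_⟩
  by_contra hcon
  have h2 := hB x (le_of_not_ge hcon)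
  have hx0 : 0 < x := by linarith
  rw [div_lt_iff₀ hc] at h2
  have h3 : x ^ (-w) = x ^ (w' - w) * x ^ (-w') := by rw [← Real.rpow_add hx0]; congr 1; ring
  have h4 : 0 < x ^ (-w') := by positivity
  rw [h3] at h1
  nlinarith

theorem lin_HB {w : ℝ} {y : ℤ × ℤ} (h : Inv w y) : HB 1 y.2 (C y.2 * X - C y.1) := by
  obtain ⟨h1, -, h3, h4⟩ := h
  have hq : (0 : ℝ) < y.2 := by exact_mod_cast (by omega : 0 < y.2)
  have hL := LL_pos w (by omega : 0 < y.2)
  refine ⟨by rw [sub_eq_add_neg, ← C_neg]; exact natDegree_linear_le, fun i => ?_⟩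
  have h5 : |(y.1 : ℝ)| ≤ y.2 := by
    have : |(y.1 : ℝ) / y.2| ≤ 1 := by rw [abs_of_nonneg h3]; linarith
    rwa [abs_div, abs_of_pos hq, div_le_one hq] at this
  rw [coeff_sub, coeff_C_mul, coeff_X, coeff_C]
  rcases i with _ | _ | i
  · simpa using h5
  · simp [abs_of_pos hq]
  · simp [hq.le]

theorem exponents (n : ℕ) (hn : 1 ≤ n) (w θ : ℝ) (hw : 0 ≤ w) (f : ℕ → ℤ × ℤ)
    (hI : ∀ k, Inv w (f k)) (hR : ∀ k, Rel n w θ (f k) (f (k + 1))) (ξ : ℝ)
    (hξ : ∀ k, ((f k).1 : ℝ) / (f k).2 + LL w (f k).2 / 2 ≤ ξ ∧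
      ξ ≤ ((f k).1 : ℝ) / (f k).2 + LL w (f k).2) (c : ℝ) (hc : 0 < c)
    (hlow : ∀ (P : ℤ[X]) (H : ℝ), P ≠ 0 → HB n H P → c * H ^ (-w) ≤ |(mR P).eval ξ|) :
    wn n ξ = w ∧ wnStar n ξ = w := by
  have hq : ∀ k, 0 < (f k).2 := fun k => by have := (hI k).1; omega
  have hq' : ∀ k, (0 : ℝ) < (f k).2 := fun k => by exact_mod_cast hq k
  have hL : ∀ k, 0 < LL w (f k).2 := fun k => LL_pos w (hq k)
  have hdeg : ∀ k, (C (f k).2 * X - C (f k).1 : ℤ[X]).natDegree = 1 := fun k => by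
    rw [sub_eq_add_neg, ← C_neg]; exact natDegree_linear (hq k).ne'
  have hne : ∀ k, (C (f k).2 * X - C (f k).1 : ℤ[X]) ≠ 0 := fun k h => by
    have := hdeg k; rw [h] at this; simp at this
  have hht : ∀ k, ∀ e : ℝ, e ≤ 0 → ((f k).2 : ℝ) ^ e ≤
      (height (C (f k).2 * X - C (f k).1) : ℝ) ^ e := fun k e he => by
    have h1 : HB 1 (height (C (f k).2 * X - C (f k).1)) (C (f k).2 * X - C (f k).1) :=
      ⟨(hdeg k).le, le_height _⟩
    exact Real.rpow_le_rpow_of_nonpos (by linarith [h1.one_le (hne k)]) (height_le (lin_HB (hI k))) he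
  have hξ0 : |ξ| ≤ 1 := by
    rw [abs_le]
    constructor <;> linarith [(hξ 0).1, (hξ 0).2, (hI 0).2.2.1, (hI 0).2.2.2, hL 0]
  constructor
  · refine IsLUB.sSup_eq (IsGreatest.isLUB ⟨⟨w, ?_, rfl⟩, ?_⟩)
    · refine Set.infinite_of_injective_forall_mem (f := fun k => C (f k).2 * X - C (f k).1) ?_ ?_
      · intro i j hij
        have h1 := congrArg (fun P : ℤ[X] => P.coeff 1) hij
        simp only [coeff_sub, coeff_C_mul, coeff_X_one, mul_one, coeff_C, one_ne_zero, if_false,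
          sub_zero] at h1
        exact (strictMono_nat_of_lt_succ (f := fun k => (f k).2) fun k => (hR k).1).injective h1
      · intro k
        have e : |aeval ξ (C (f k).2 * X - C (f k).1 : ℤ[X])| =
            ((f k).2 : ℝ) * (ξ - ((f k).1 : ℝ) / (f k).2) := by
          rw [aeval_eq, mR_lin _ _ (hq k).ne', eval_mul, eval_C, eval_sub, eval_X, eval_C]
          exact abs_of_nonneg (mul_nonneg (hq' k).le (by linarith [(hξ k).1, hL k]))
        refine ⟨(hdeg k).le.trans hn, ?_, ?_⟩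
        · rw [e]; exact mul_pos (hq' k) (by linarith [(hξ k).1, hL k])
        · rw [e]
          refine le_trans ?_ (hht k _ (by linarith))
          rw [← LL_mul w (hq k)]
          have := hq' k
          gcongr
          linarith [(hξ k).2]
    · rintro _ ⟨w', hw', rfl⟩
      rw [EReal.coe_le_coe_iff]
      by_contra hcon
      obtain ⟨B, hB⟩ := height_bound (K := 1) hc (lt_of_not_ge hcon)
      refine hw' ((finite_polys n B).subset ?_)
      rintro P ⟨h1, h2, h3⟩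
      have h0 : P ≠ 0 := by rintro rfl; simp at h2
      have h4 : HB n (height P) P := ⟨h1, le_height P⟩
      refine h4.mono (hB _ (h4.one_le h0) ?_)
      rw [one_mul]
      rw [aeval_eq] at h3
      exact (hlow P _ h0 h4).trans h3
  · refine IsLUB.sSup_eq (IsGreatest.isLUB ⟨⟨w, ?_, rfl⟩, ?_⟩)
    · refine Set.infinite_of_injective_forall_mem (f := fun k => ((f k).1 : ℝ) / (f k).2) ?_ ?_
      · exact (strictMono_nat_of_lt_succ fun k => by linarith [(hR k).2.1, hL k]).injective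
      · intro k
        have e : |ξ - ((f k).1 : ℝ) / (f k).2| = ξ - ((f k).1 : ℝ) / (f k).2 :=
          abs_of_nonneg (by linarith [(hξ k).1, hL k])
        refine ⟨C (f k).2 * X - C (f k).1, ⟨?_, ?_, by rw [hdeg]; norm_num, ?_, ?_⟩,
          (hdeg k).le.trans hn, ?_, ?_⟩
        · rw [isPrimitive_iff_isUnit_of_C_dvd]
          intro r hr
          rw [C_dvd_iff_dvd_coeff] at hr
          have h1 := hr 0
          have h2 := hr 1
          simp only [coeff_sub, coeff_C_mul, coeff_X_one, mul_one, coeff_C, one_ne_zero, if_false,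
            sub_zero, coeff_X_zero, mul_zero, if_true, zero_sub, dvd_neg] at h1 h2
          exact (hI k).2.1.isUnit_of_dvd' h1 h2
        · rw [sub_eq_add_neg, ← C_neg, leadingCoeff_linear (hq k).ne']; exact hq k
        · rw [aeval_eq, mR_lin _ _ (hq k).ne']; simp
        · intro Q hQ _; rw [hdeg]; exact hQ
        · rw [e]; linarith [(hξ k).1, hL k]
        · rw [e]
          refine le_trans ?_ (hht k _ (by linarith))
          rw [show -w - 1 = -(w + 1) by ring]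
          have := (hξ k).2
          unfold LL at this
          linarith
    · rintro _ ⟨w', hw', rfl⟩
      rw [EReal.coe_le_coe_iff]
      by_contra hcon
      have hlt := lt_of_not_ge hcon
      obtain ⟨B, hB⟩ := height_bound (K := CT n) hc hlt
      refine hw' (((finite_polys n B).biUnion (t := fun P => ((mR P).roots.toFinset : Set ℝ))
        fun P _ => Finset.finite_toSet _).subset ?_)
      rintro α ⟨P, ⟨-, h1, -, h2, -⟩, h3, -, h5⟩
      have h0 : P ≠ 0 := leadingCoeff_ne_zero.1 h1.ne'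
      have h4 : HB n (height P) P := ⟨h3, le_height P⟩
      have h6 := h4.one_le h0
      rw [aeval_eq] at h2
      refine Set.mem_biUnion (x := P) (h4.mono (hB _ h6 ?_)) ?_
      · have h7 : |ξ - α| ≤ 1 :=
          h5.trans (Real.rpow_le_one_of_one_le_of_nonpos h6 (by linarith))
        have h8 := h4.lip (x := ξ) (y := α) (by linarith)
          (by rw [abs_le] at *; constructor <;> linarith [hξ0.1, hξ0.2, h7.1, h7.2])
        rw [h2, sub_zero] at h8
        refine (hlow P _ h0 h4).trans (h8.trans ?_)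
        have h9 : (height P : ℝ) ^ (-w') = height P * (height P : ℝ) ^ (-w' - 1) := by
          rw [Real.rpow_sub (by linarith), Real.rpow_one]; field_simp
        rw [h9, mul_assoc]
        have := CT_pos n
        gcongr
      · rw [Finset.mem_coe, Multiset.mem_toFinset, mem_roots
          ((Polynomial.map_ne_zero_iff (RingHom.injective_int _)).2 h0)]
        exact h2

end Pool.Agent.H792Z.MK
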