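import Pool.Agent.H4Z.TNC
import Pool.Agent.H792Z.Aux1

/-! Most numerators give small Weyl sums, for all primes outside a small exceptional set
(adapted from the file `H4Z/TNB`). -/

open Finset Real

namespace Pool.Agent.H792Z.MK

open Pool.Agent.H391Z.Uniq Pool.Agent.H4Z.TN

theorem avoid_set (k c Z : ℕ) (hZ1 : 1 ≤ Z) : ∃ X : Finset ℕ,
    X.card ≤ ((k + 3) * (2 * k + 1) * (2 * c + 1)) * (2 * k + 4 + c) * Z ^ 6 ∧
    ∀ p : ℕ, p.Prime → p ∉ X → ∀ b ≤ k + 2, ∀ h : ℤ, |h| ≤ k → ∀ j < Z, ∀ l < Z, ∀ m : ℤ,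
      |m| ≤ (c * Z ^ 2 : ℕ) → h * ((b : ℤ) ^ j - (b : ℤ) ^ l) - m ≠ 0 →
      ¬ (p : ℤ) ∣ h * ((b : ℤ) ^ j - (b : ℤ) ^ l) - m := by
  classical
  have hZ2 : Z ≤ Z ^ 2 := Nat.le_self_pow (by norm_num) _
  let Y : Finset (ℕ × ℤ × ℕ × ℕ × ℤ) := range (k + 3) ×ˢ Icc (-(k : ℤ)) k ×ˢ range Z ×ˢ range Z ×ˢ
    Icc (-((c * Z ^ 2 : ℕ) : ℤ)) (c * Z ^ 2 : ℕ)
  let g : ℕ × ℤ × ℕ × ℕ × ℤ → ℤ := fun y =>
    y.2.1 * ((y.1 : ℤ) ^ y.2.2.1 - (y.1 : ℤ) ^ y.2.2.2.1) - y.2.2.2.2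
  have hYc : Y.card ≤ (k + 3) * (2 * k + 1) * (2 * c + 1) * Z ^ 4 := by
    simp only [Y, card_product, card_range, Int.card_Icc]
    have e1 : ((k : ℤ) + 1 - -(k : ℤ)).toNat = 2 * k + 1 := by omega
    have e2 : (((c * Z ^ 2 : ℕ) : ℤ) + 1 - -((c * Z ^ 2 : ℕ) : ℤ)).toNat = 2 * (c * Z ^ 2) + 1 := by
      omega
    rw [e1, e2]
    have h1 : 2 * (c * Z ^ 2) + 1 ≤ (2 * c + 1) * Z ^ 2 := by nlinarith
    calc (k + 3) * ((2 * k + 1) * (Z * (Z * (2 * (c * Z ^ 2) + 1))))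
        ≤ (k + 3) * ((2 * k + 1) * (Z * (Z * ((2 * c + 1) * Z ^ 2)))) := by gcongr
      _ = _ := by ring
  have hX : ∀ x ∈ Y.image g, x.natAbs ≤ 2 ^ ((2 * k + 4 + c) * Z ^ 2) := by
    intro x hx
    obtain ⟨⟨b, h, j, l, m⟩, hy, rfl⟩ := mem_image.1 hx
    simp only [Y, mem_product, mem_range, mem_Icc] at hy
    obtain ⟨hb, hh, hj, hl, hm⟩ := hy
    simp only [g]
    have hb2 : b ≤ 2 ^ (k + 2) := (by omega : b ≤ k + 2).trans Nat.lt_two_pow_self.le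
    have hpw : ∀ i < Z, b ^ i ≤ 2 ^ ((k + 2) * Z) := fun i hi => by
      calc b ^ i ≤ (2 ^ (k + 2)) ^ i := Nat.pow_le_pow_left hb2 _
        _ ≤ (2 ^ (k + 2)) ^ Z := Nat.pow_le_pow_right (by positivity) hi.le
        _ = _ := by rw [← pow_mul]
    have h1 : ((b : ℤ) ^ j - (b : ℤ) ^ l).natAbs ≤ 2 ^ ((k + 2) * Z) := by
      have a1 := hpw j hj
      have a2 := hpw l hl
      have a3 : ((b : ℤ) ^ j - (b : ℤ) ^ l) = ((b ^ j : ℕ) : ℤ) - ((b ^ l : ℕ) : ℤ) := by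
        push_cast; ring
      rw [a3]; omega
    have h2 : h.natAbs ≤ 2 ^ k := (by omega : h.natAbs ≤ k).trans Nat.lt_two_pow_self.le
    have h3 : m.natAbs ≤ 2 ^ (c * Z ^ 2) :=
      (by omega : m.natAbs ≤ c * Z ^ 2).trans Nat.lt_two_pow_self.le
    have h4 : (h * ((b : ℤ) ^ j - (b : ℤ) ^ l)).natAbs ≤ 2 ^ (k + (k + 2) * Z) := by
      rw [Int.natAbs_mul, pow_add]; gcongr
    have h5 : k + (k + 2) * Z + c * Z ^ 2 + 1 ≤ (2 * k + 4 + c) * Z ^ 2 := by nlinarith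
    have h6 : 2 ^ (k + (k + 2) * Z) ≤ 2 ^ (k + (k + 2) * Z + c * Z ^ 2) :=
      Nat.pow_le_pow_right (by norm_num) (by omega)
    have h7 : 2 ^ (c * Z ^ 2) ≤ 2 ^ (k + (k + 2) * Z + c * Z ^ 2) :=
      Nat.pow_le_pow_right (by norm_num) (by omega)
    have h8 : 2 ^ (k + (k + 2) * Z + c * Z ^ 2 + 1) ≤ 2 ^ ((2 * k + 4 + c) * Z ^ 2) :=
      Nat.pow_le_pow_right (by norm_num) h5
    have h9 := Int.natAbs_sub_le (h * ((b : ℤ) ^ j - (b : ℤ) ^ l)) m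
    rw [pow_succ] at h8
    omega
  refine ⟨(Y.image g).biUnion fun x => x.natAbs.primeFactors, ?_, ?_⟩
  · have h3 := card_biUnion_le_card_mul (Y.image g) (fun x => x.natAbs.primeFactors) _
      fun x hx => card_primeFactors_le _ _ (hX x hx)
    have h1 : (Y.image g).card ≤ (k + 3) * (2 * k + 1) * (2 * c + 1) * Z ^ 4 :=
      card_image_le.trans hYc
    refine h3.trans ?_
    calc (Y.image g).card * ((2 * k + 4 + c) * Z ^ 2)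
        ≤ ((k + 3) * (2 * k + 1) * (2 * c + 1) * Z ^ 4) * ((2 * k + 4 + c) * Z ^ 2) := by gcongr
      _ = _ := by ring
  · intro p hp hpX b hb h hh j hj l hl m hm hne hdvd
    apply hpX
    refine mem_biUnion.2 ⟨_, mem_image.2 ⟨(b, h, j, l, m), ?_, rfl⟩,
      Nat.mem_primeFactors.2 ⟨hp, Int.natCast_dvd.1 hdvd, Int.natAbs_ne_zero.2 hne⟩⟩
    simp only [Y, mem_product, mem_range, mem_Icc]
    exact ⟨by omega, abs_le.1 hh, hj, hl, abs_le.1 hm⟩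

theorem selector' (k W : ℕ) (hW : 1 ≤ W) : ∃ w1 : ℝ, 0 < w1 ∧ ∀ w : ℝ, 0 < w →
    w ≤ w1 → ∃ (K : ℕ) (X : ℕ → Finset ℕ), (∀ j, 1 ≤ j → (X j).card ≤ K * j ^ 6) ∧ ∃ M : ℕ,
    ∀ j, M ≤ j → ∀ N ∈ PR j, N ∉ X j → ∀ w' : ℝ, 1 / (N : ℝ) ^ W ≤ w' → w' ≤ 1 / N →
    ∀ a θ : ℝ, ∃ NB : Finset ℤ, (NB.card : ℝ) ≤ w * N / 2 ∧ ∀ n : ℤ,
      a ≤ θ + (n : ℝ) / N → θ + (n : ℝ) / N ≤ a + w → n ∉ NB → Q k w w' (θ + (n : ℝ) / N) := by
  classical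
  obtain ⟨t0, ht0⟩ : ∃ t0 : ℕ, t0 = 40 * (k + 1) ^ 4 := ⟨_, rfl⟩
  have ht0pos : 1 ≤ t0 := by rw [ht0]; exact Nat.mul_pos (by norm_num) (by positivity)
  have hk2 : (1 : ℝ) ≤ (k : ℝ) + 2 := by have : (0 : ℝ) ≤ k := Nat.cast_nonneg _; linarith
  refine ⟨1 / ((k : ℝ) + 2) ^ (t0 ^ 2), by positivity, fun w hw hw1 => ?_⟩
  rw [le_div_iff₀ (by positivity)] at hw1
  have hwle : w ≤ 1 := by
    have : (1 : ℝ) ≤ ((k : ℝ) + 2) ^ (t0 ^ 2) := one_le_pow₀ hk2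
    nlinarith
  choose X hX1 hX2 using fun j : ℕ => avoid_set k ⌈1 / w⌉₊ (W * (j + 1)) (Nat.mul_pos hW (by omega))
  refine ⟨((k + 3) * (2 * k + 1) * (2 * ⌈1 / w⌉₊ + 1)) * (2 * k + 4 + ⌈1 / w⌉₊) * (2 * W) ^ 6, X,
    fun j hj => (hX1 j).trans ?_, ⌈1 / w⌉₊ + ⌈(2 * ((k : ℝ) + 2) / w) ^ (k + 1)⌉₊, ?_⟩
  · rw [mul_assoc _ ((2 * W) ^ 6), ← mul_pow]
    have : W * (j + 1) ≤ 2 * W * j := by nlinarith
    gcongr
  intro j hj N hN hNX w' hw'1 hw'2 a θ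
  rw [PR, mem_filter, mem_Ioc] at hN
  obtain ⟨⟨hN2, hN3⟩, hp⟩ := hN
  have hav := hX2 j N hp hNX
  obtain ⟨Z, hZ⟩ : ∃ Z, Z = W * (j + 1) := ⟨_, rfl⟩
  rw [← hZ] at hav
  have hjN : j < N := j.lt_two_pow_self.trans hN2
  have hNpos : 0 < N := hp.pos
  have hNr : (0 : ℝ) < N := by exact_mod_cast hNpos
  have hN1 : (1 : ℝ) ≤ N := by exact_mod_cast hNpos
  have hwN : 1 ≤ w * N := by
    have h1 : 1 / w ≤ N := (Nat.le_ceil _).trans (by exact_mod_cast (by omega))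
    rw [div_le_iff₀ hw] at h1; linarith
  have hw' : 0 < w' := lt_of_lt_of_le (by positivity) hw'1
  have hTZ : ∀ b, 2 ≤ b → Tb b w' ≤ Z := by
    intro b hb
    apply Tb_le hb hw'
    have h1 : N ^ W ≤ b ^ Z := by
      calc N ^ W ≤ (2 ^ (j + 1)) ^ W := by gcongr
        _ = 2 ^ Z := by rw [hZ, ← pow_mul, mul_comm]
        _ ≤ b ^ Z := Nat.pow_le_pow_left hb _
    have h2 : (N : ℝ) ^ W ≤ (b : ℝ) ^ Z := by exact_mod_cast h1
    rw [div_le_iff₀ (by positivity)] at hw'1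
    refine hw'1.trans ?_
    gcongr
  have hT0 : ∀ b, 2 ≤ b → b ≤ k + 2 → t0 ^ 2 ≤ Tb b w := by
    intro b hb hbk
    apply Tb_ge hb hw
    refine le_trans ?_ hw1
    have : (b : ℝ) ≤ (k : ℝ) + 2 := by exact_mod_cast hbk
    gcongr
  have hgrow : ∀ b, 2 ≤ b → b ≤ k + 2 → (k + 1) * Tb b w ≤ Tb b w' := by
    intro b hb hbk
    apply Tb_ge hb hw'
    have h1 := Tb_upper hb hw hwle
    have h2 : (b : ℝ) ≤ (k : ℝ) + 2 := by exact_mod_cast hbk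
    have h3 : (b : ℝ) ^ Tb b w ≤ 2 * ((k : ℝ) + 2) / w := by
      rw [le_div_iff₀ hw]; linarith
    have h4 : (2 * ((k : ℝ) + 2) / w) ^ (k + 1) ≤ N :=
      (Nat.le_ceil _).trans (Nat.cast_le.2 (by omega))
    have h6 : (b : ℝ) ^ ((k + 1) * Tb b w) ≤ (N : ℝ) := by
      rw [mul_comm, pow_mul]
      refine le_trans ?_ h4
      gcongr
    rw [le_div_iff₀ hNr] at hw'2
    refine le_trans ?_ hw'2
    gcongr
  obtain ⟨u, hu⟩ : ∃ u : ℤ, u = ⌈(a - θ) * N⌉ := ⟨_, rfl⟩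
  obtain ⟨v, hv⟩ : ∃ v : ℤ, v = ⌊(a - θ + w) * N⌋ := ⟨_, rfl⟩
  have hcard : ((Icc u v).card : ℝ) ≤ 2 * (w * N) := by
    rw [Int.card_Icc]
    have h1 : (a - θ) * N ≤ u := by rw [hu]; exact Int.le_ceil _
    have h2 : (v : ℝ) ≤ (a - θ + w) * N := by rw [hv]; exact Int.floor_le _
    rcases le_or_gt (v + 1 - u) 0 with h | h
    · rw [Int.toNat_of_nonpos h]; simp only [Nat.cast_zero]; linarith
    · have : (((v + 1 - u).toNat : ℕ) : ℝ) = ((v + 1 - u : ℤ) : ℝ) := by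
        exact_mod_cast Int.toNat_of_nonneg h.le
      rw [this]; push_cast; nlinarith
  let Idx : Finset (ℕ × ℤ × ℕ) := Icc 2 (k + 2) ×ˢ Icc (-(k : ℤ)) k ×ˢ Ioo (t0 - 1) (Z + 1)
  let bad : ℕ × ℤ × ℕ → Finset ℤ := fun y => if y.2.1 ≠ 0 ∧ y.2.2 ^ 2 ≤ Z then
    (Icc u v).filter fun n : ℤ => (y.2.2 : ℝ) ^ 2 / (k + 1) <
      ‖WS y.1 y.2.1 (Tb y.1 w) (y.2.2 ^ 2) (θ + n / N)‖ else ∅
  have hbad : ∀ y ∈ Idx, ((bad y).card : ℝ) ≤
      5 * ((k : ℝ) + 1) ^ 2 * (w * N) * ((y.2.2 : ℝ) ^ 2)⁻¹ := by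
    rintro ⟨b, h, t⟩ hy
    simp only [Idx, mem_product, mem_Icc, mem_Ioo] at hy
    obtain ⟨⟨hb, hbk⟩, hh, ht1, ht2⟩ := hy
    simp only [bad]
    split_ifs with hc
    · have ht : 1 ≤ t := by omega
      have htr : (1 : ℝ) ≤ t := by exact_mod_cast ht
      have hZ1 : 1 ≤ Z := le_trans (Nat.one_le_pow _ _ ht) hc.2
      have hZr : (1 : ℝ) ≤ Z := by exact_mod_cast hZ1
      have hsm := second_moment b hb h hc.1 (Tb b w) (t ^ 2) N hNpos (Nat.one_le_pow _ _ ht) w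
        ((Z : ℝ) ^ 2 / w) θ hw (by positivity) u v hcard (Tb_lower hb hw) (by
          rw [div_mul_cancel₀ _ hw.ne']
          have : ((t ^ 2 : ℕ) : ℝ) ≤ Z := by exact_mod_cast hc.2
          gcongr) (by
          intro j hj l hl c hc0
          by_contra hlt
          push Not at hlt
          have h1 : (Z : ℝ) ^ 2 / w ≤ ((⌈1 / w⌉₊ * Z ^ 2 : ℕ) : ℝ) := by
            push_cast
            rw [div_eq_mul_one_div, mul_comm]
            gcongr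
            exact Nat.le_ceil _
          have h2 : |h * ((b : ℤ) ^ j - (b : ℤ) ^ l) - c * N| ≤ ((⌈1 / w⌉₊ * Z ^ 2 : ℕ) : ℤ) := by
            have := hlt.le.trans h1
            exact_mod_cast this
          have h3 := hav b hbk h (abs_le.2 hh) j (by omega) l (by omega) _ h2
          rw [sub_sub_cancel] at h3
          refine h3 (mul_ne_zero hc0 (by exact_mod_cast hNpos.ne')) ?_
          apply Dvd.dvd.mul_left
          exact dvd_rfl)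
      refine (markov_card _ _ _ _ (by positivity) hsm).trans (le_of_eq ?_)
      push_cast
      field_simp
    · simp only [card_empty, Nat.cast_zero]; positivity
  refine ⟨Idx.biUnion bad, ?_, fun n hn1 hn2 hnb b hb hbk => ⟨?_, hgrow b hb hbk, ?_⟩⟩
  · have h1 : ((Idx.biUnion bad).card : ℝ) ≤ ∑ y ∈ Idx, ((bad y).card : ℝ) := by
      exact_mod_cast card_biUnion_le
    refine h1.trans ((sum_le_sum hbad).trans ?_)
    simp only [Idx, sum_product, sum_const, Nat.card_Icc, Int.card_Icc, nsmul_eq_mul]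
    rw [← mul_sum]
    have h2 := sum_Ioo_inv_sq_le (α := ℝ) (t0 - 1) (Z + 1)
    have h3 : (((t0 - 1 : ℕ) : ℝ) + 1) = 40 * ((k : ℝ) + 1) ^ 4 := by
      rw [Nat.cast_sub ht0pos, ht0]; push_cast; ring
    rw [h3] at h2
    have e1 : ((k : ℤ) + 1 - -(k : ℤ)).toNat = 2 * k + 1 := by omega
    have e2 : k + 2 + 1 - 2 = k + 1 := by omega
    rw [e1, e2]
    have hk0 : (0 : ℝ) ≤ k := Nat.cast_nonneg _
    calc ((k + 1 : ℕ) : ℝ) * (((2 * k + 1 : ℕ) : ℝ) * (5 * ((k : ℝ) + 1) ^ 2 * (w * N) *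
          ∑ t ∈ Ioo (t0 - 1) (Z + 1), ((t : ℝ) ^ 2)⁻¹))
        ≤ ((k : ℝ) + 1) * ((2 * ((k : ℝ) + 1)) * (5 * ((k : ℝ) + 1) ^ 2 * (w * N) *
          (2 / (40 * ((k : ℝ) + 1) ^ 4)))) := by
          push_cast
          gcongr
          linarith
      _ = w * N / 2 := by field_simp; ring
  · have := hT0 b hb hbk
    have h1 : 1 ≤ t0 ^ 2 := Nat.one_le_pow _ _ ht0pos
    omega
  · intro h hh hhk t ht1 ht2
    by_contra hlt
    push Not at hlt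
    apply hnb
    have h1 := hT0 b hb hbk
    have h2 := hTZ b hb
    have h3 : t0 ≤ t := by
      by_contra h4
      have : t ^ 2 < t0 ^ 2 := Nat.pow_lt_pow_left (by omega) (by norm_num)
      omega
    have h4 : t ≤ t ^ 2 := Nat.le_self_pow (by norm_num) _
    refine mem_biUnion.2 ⟨(b, h, t), ?_, ?_⟩
    · simp only [Idx, mem_product, mem_Icc, mem_Ioo]
      exact ⟨⟨hb, hbk⟩, abs_le.1 hhk, by omega, by omega⟩
    · simp only [bad]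
      rw [if_pos ⟨hh, by omega⟩, mem_filter, mem_Icc]
      refine ⟨⟨?_, ?_⟩, hlt⟩
      · rw [hu, Int.ceil_le, ← le_div_iff₀ hNr]; linarith
      · rw [hv, Int.le_floor, ← div_le_iff₀ hNr]; linarith

end Pool.Agent.H792Z.MK
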