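import Pool.Agent.H792Z.Limit
import Pool.Agent.H792Z.Sel
import Pool.Agent.H391Z.NormB

/-! The two constructions. -/

open Polynomial Finset Filter Topology MeasureTheory

namespace Pool.Agent.H792Z.MK

open Pool.Agent.H4Z.TN

theorem inv_start {w : ℝ} (hw : 0 ≤ w) {q : ℤ} (hq : 2 ≤ q) : Inv w (1, q) := by
  have hq' : (2 : ℝ) ≤ q := by exact_mod_cast hq
  have h1 := LL_le hw (by omega : 0 < q)
  have h2 : 1 / (q : ℝ) ≤ 1 / 2 := by gcongr
  refine ⟨hq, isCoprime_one_left, by positivity, ?_⟩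
  simp only [Int.cast_one]
  linarith

theorem exists_normal (n : ℕ) (hn : 1 ≤ n) (w : ℝ) (hw : (n : ℝ) < w) :
    ∃ ξ : ℝ, wn n ξ = w ∧ wnStar n ξ = w ∧ ∀ b : ℕ, 2 ≤ b → SimplyNormal b ξ := by
  have hw0 : 0 ≤ w := le_trans (Nat.cast_nonneg n) hw.le
  obtain ⟨ν, h0, h1, hν, θ1, hθ1, hstep⟩ := step n hn w hw
  obtain ⟨θ0, hθ0, htail⟩ := bad_tail n hn ν h0 h1
  obtain ⟨θ, hθ, hθa, hθb⟩ : ∃ θ : ℝ, 0 < θ ∧ θ ≤ θ1 ∧ 2 * θ ≤ θ0 :=
    ⟨min θ1 (θ0 / 2), lt_min hθ1 (by positivity), min_le_left _ _,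
      by linarith [min_le_right θ1 (θ0 / 2)]⟩
  choose w1 hw1 hsel using fun k => selector' k (⌈w⌉₊ + 3) (by omega)
  obtain ⟨f, hf⟩ := dep_seq (fun k (y : ℤ × ℤ) => Inv w y ∧ LL w y.2 / 4 ≤ w1 k)
    (fun k y y' => Rel n w (θ / 2 * 2 ^ (-w)) y y' ∧
      Q k (LL w y.2 / 4) (LL w y'.2 / 4) (0 + (y'.1 : ℝ) / y'.2)) (by
      obtain ⟨M, hM⟩ := exists_nat_gt (1 / w1 0)
      refine ⟨(1, (M : ℤ) + 2), inv_start hw0 (by omega), ?_⟩
      have h2 := LL_le hw0 (by omega : 0 < (M : ℤ) + 2)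
      have h3 := LL_pos w (by omega : 0 < (M : ℤ) + 2)
      have h4 : 1 / (((M : ℤ) + 2 : ℤ) : ℝ) ≤ w1 0 := by
        rw [div_lt_iff₀ (hw1 0)] at hM
        push_cast
        rw [div_le_iff₀ (by positivity)]
        nlinarith [hw1 0]
      simp only
      linarith) (by
      rintro k ⟨a, q⟩ ⟨⟨hq, hco, ha0, ha1⟩, hk⟩
      simp only at hq hco ha0 ha1 hk
      have hq0 : 0 < q := by omega
      have hL := LL_pos w hq0
      obtain ⟨K, X, hX, M, hM⟩ := hsel k (LL w q / 4) (by positivity) hk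
      obtain ⟨j, hj, p, hp, hpX, hfin⟩ := hstep θ hθ hθa a q hq (LL w q)
        ((a : ℝ) / q + LL w q / 2) (LL w q / 4) ha0 ha1 (by linarith) (by positivity) (by linarith)
        (by
          refine (measure_mono Set.inter_subset_right).trans ?_
          have := htail (2 * θ) (by positivity) hθb a q hq0 hco (LL w q) hL ha0 ha1 0
          simp only [Nat.add_zero, pow_zero, one_mul] at this
          refine this.trans (le_of_eq ?_)
          congr 1; ring) K X hX (M + q.toNat + ⌈1 / w1 (k + 1)⌉₊)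
      have hp' := hp
      rw [PR, mem_filter, mem_Ioc] at hp'
      have hjp : j < p := j.lt_two_pow_self.trans hp'.1.1
      have hp2 : (2 : ℝ) ≤ p := by exact_mod_cast hp'.2.two_le
      have hp0 : (0 : ℤ) < p := by exact_mod_cast hp'.2.pos
      have hLp := LL_pos w hp0
      have hLp1 := LL_le hw0 hp0
      push_cast at hLp1
      obtain ⟨NB, hNB, hQ⟩ := hM j (by omega) p hp hpX (LL w p / 4) (by
        have h2 : (p : ℝ) ^ (-((⌈w⌉₊ + 1 : ℕ) : ℝ)) ≤ LL w p := by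
          unfold LL
          push_cast
          exact Real.rpow_le_rpow_of_exponent_le (by linarith) (by linarith [Nat.le_ceil w])
        rw [Real.rpow_neg (by positivity), Real.rpow_natCast] at h2
        refine le_trans ?_ (div_le_div_of_nonneg_right h2 (by norm_num))
        rw [show ⌈w⌉₊ + 3 = (⌈w⌉₊ + 1) + 2 by ring, pow_add, inv_eq_one_div, div_div]
        gcongr
        nlinarith) (by linarith) ((a : ℝ) / q + LL w q / 2) 0
      obtain ⟨a', b1, b2, b3, b4, b5, b6⟩ := hfin NB hNB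
      refine ⟨(a', p), ⟨⟨show (2 : ℤ) ≤ (p : ℤ) by exact_mod_cast hp'.2.two_le, b5, ?_, ?_⟩, ?_⟩, ⟨?_, ?_, ?_, b6⟩, ?_⟩
      · simp only; push_cast; linarith
      · simp only; push_cast; linarith
      · have h2 : 1 / w1 (k + 1) ≤ p := (Nat.le_ceil _).trans (Nat.cast_le.2 (by omega))
        rw [div_le_iff₀ (hw1 _)] at h2
        have h3 : 1 / (p : ℝ) ≤ w1 (k + 1) := by rw [div_le_iff₀ (by linarith)]; linarith
        simp only
        linarith
      · simp only; omega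
      · simp only; push_cast; linarith
      · simp only; push_cast; linarith
      · simp only; push_cast
        exact hQ a' (by linarith) (by linarith) b1)
  obtain ⟨ξ, hξ, c, hc, hlow⟩ := limit n w (θ / 2 * 2 ^ (-w)) hw0 (by positivity) f
    (fun k => (hf k).1.1) (fun k => (hf k).2.1)
  obtain ⟨e1, e2⟩ := exponents n hn w _ hw0 f (fun k => (hf k).1.1) (fun k => (hf k).2.1) ξ hξ c hc
    hlow
  refine ⟨ξ, e1, e2, fun b hb d hd => ?_⟩
  have hL : ∀ k, 0 < LL w (f k).2 := fun k => LL_pos w (by have := (hf k).1.1.1; omega)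
  have h2 := Pool.Agent.H391Z.Norm.normal_of_weyl ξ b hb (fun h hh => weyl_of_stages ξ
    (fun k => LL w (f k).2 / 4) (fun k => 0 + ((f (k + 1)).1 : ℝ) / (f (k + 1)).2)
    (fun k => by have := hL k; positivity)
    (fun k => by linarith [(hf k).1.1.2.2.1, (hf k).1.1.2.2.2, hL k])
    (fun k => by
      rw [abs_le]
      constructor <;> linarith [(hξ (k + 1)).1, (hξ (k + 1)).2, hL (k + 1)])
    (fun k => (hf k).2.2) b hb h hh) 1 (fun _ => (d : ℤ))
    (fun _ => ⟨by positivity, by exact_mod_cast hd⟩)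
  simpa [Fin.forall_fin_one] using h2

theorem not_normal (b : ℕ) (hb : 2 ≤ b) (m : ℕ) (ξ : ℝ)
    (h : ∀ t0 : ℕ, ∃ t, t0 ≤ t ∧ ∃ A : ℤ, A / (b : ℝ) ^ (m * t) ≤ ξ ∧
      ξ < A / (b : ℝ) ^ (m * t) + 1 / (b : ℝ) ^ ((m + 1) * t)) (hm : 1 ≤ m) :
    ¬ SimplyNormal b ξ := by
  intro hN
  have hb' : (2 : ℝ) ≤ b := by exact_mod_cast hb
  have h1 := hN 0 (by omega)
  obtain ⟨c, hc⟩ : ∃ c : ℕ → ℕ, ∀ N, c N = ((Finset.range N).filter fun i : ℕ =>
    ⌊ξ * (b : ℝ) ^ (i + 1)⌋ % (b : ℤ) = ((0 : ℕ) : ℤ)).card := ⟨_, fun _ => rfl⟩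
  simp only [← hc] at h1
  obtain ⟨N0, hN0⟩ := Metric.tendsto_atTop.1 h1 (1 / (4 * (2 * (m : ℝ) + 1))) (by positivity)
  obtain ⟨t, ht, A, hA1, hA2⟩ := h (N0 + 1)
  have ht0 : (0 : ℝ) < t := by exact_mod_cast (by omega : 0 < t)
  have hm0 : (0 : ℝ) < m := by exact_mod_cast hm
  have h2 := hN0 (m * t) (by nlinarith)
  have h3 := hN0 ((m + 1) * t) (by nlinarith)
  have h4 : c (m * t) + t ≤ c ((m + 1) * t) := by
    rw [hc, hc]
    have e : t = (Ico (m * t) ((m + 1) * t)).card := by rw [Nat.card_Ico]; rw [add_mul]; omega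
    conv_lhs => enter [2]; rw [e]
    rw [← card_union_of_disjoint]
    · refine card_le_card fun i hi => ?_
      rw [mem_union, mem_filter, mem_range, mem_Ico] at hi
      rw [mem_filter, mem_range]
      rcases hi with hi | hi
      · exact ⟨by nlinarith [hi.1], hi.2⟩
      · refine ⟨hi.2, ?_⟩
        obtain ⟨r, hr⟩ : ∃ r, i = m * t + r := ⟨i - m * t, by omega⟩
        have e1 : ⌊ξ * (b : ℝ) ^ (i + 1)⌋ = A * (b : ℤ) ^ (r + 1) := by
          rw [Int.floor_eq_iff]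
          push_cast
          have e2 : (A : ℝ) * (b : ℝ) ^ (r + 1) = A / (b : ℝ) ^ (m * t) * (b : ℝ) ^ (i + 1) := by
            rw [hr, add_assoc, pow_add (b : ℝ) (m * t)]; field_simp
          have e3 : 1 / (b : ℝ) ^ ((m + 1) * t) * (b : ℝ) ^ (i + 1) ≤ 1 := by
            rw [one_div, inv_mul_le_iff₀ (by positivity), mul_one]
            exact pow_le_pow_right₀ (by linarith) hi.2
          have e4 : (0 : ℝ) < (b : ℝ) ^ (i + 1) := by positivity
          rw [e2]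
          constructor
          · gcongr
          · have := mul_lt_mul_of_pos_right hA2 e4
            rw [add_mul] at this
            linarith
        rw [e1, pow_succ, ← mul_assoc]
        simp
    · rw [disjoint_left]
      intro i hi hi'
      rw [mem_filter, mem_range] at hi
      rw [mem_Ico] at hi'
      omega
  have h5 : (c (m * t) : ℝ) + t ≤ c ((m + 1) * t) := by exact_mod_cast h4
  rw [Real.dist_eq, abs_lt] at h2 h3
  push_cast at h2 h3
  have h6 := h2.1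
  have h7 := h3.2
  rw [lt_sub_iff_add_lt, lt_div_iff₀ (by positivity)] at h6
  rw [sub_lt_iff_lt_add, div_lt_iff₀ (by positivity)] at h7
  have h8 : 1 / (b : ℝ) ≤ 1 / 2 := by gcongr
  have h9 : 1 / (4 * (2 * (m : ℝ) + 1)) * (2 * m + 1) = 1 / 4 := by field_simp
  generalize 1 / (4 * (2 * (m : ℝ) + 1)) = ε at *
  generalize 1 / (b : ℝ) = β at *
  have h10 : t < (ε * (2 * m + 1) + β) * t := by linarith
  rw [h9] at h10
  nlinarith

theorem exists_abnormal (n : ℕ) (hn : 1 ≤ n) (w : ℝ) (hw : (n : ℝ) < w) :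
    ∃ ξ : ℝ, wn n ξ = w ∧ wnStar n ξ = w ∧ ∀ b : ℕ, 2 ≤ b → ¬ SimplyNormal b ξ := by
  have hw0 : 0 ≤ w := le_trans (Nat.cast_nonneg n) hw.le
  obtain ⟨ν, h0, h1, hν, θ1, hθ1, hstep⟩ := step n hn w hw
  obtain ⟨θ0, hθ0, htail⟩ := bad_tail n hn ν h0 h1
  obtain ⟨θ, hθ, hθa, hθb⟩ : ∃ θ : ℝ, 0 < θ ∧ θ ≤ θ1 ∧ 4 * θ ≤ θ0 :=
    ⟨min θ1 (θ0 / 4), lt_min hθ1 (by positivity), min_le_left _ _,
      by linarith [min_le_right θ1 (θ0 / 4)]⟩
  obtain ⟨m, hm, hzero⟩ := zero_block n ν h0 h1 hν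
  obtain ⟨f, hf⟩ := dep_seq (fun _ (y : ℤ × ℤ) => Inv w y)
    (fun k y y' => Rel n w (θ / 2 * 2 ^ (-w)) y y' ∧ ∃ t, k ≤ t ∧ ∃ A : ℤ,
      A / (((Nat.unpair k).1 + 2 : ℕ) : ℝ) ^ (m * t) ≤ (y'.1 : ℝ) / y'.2 ∧
      (y'.1 : ℝ) / y'.2 + LL w y'.2 < A / (((Nat.unpair k).1 + 2 : ℕ) : ℝ) ^ (m * t) +
        1 / (((Nat.unpair k).1 + 2 : ℕ) : ℝ) ^ ((m + 1) * t)) ⟨(1, 2), inv_start hw0 le_rfl⟩ (by
      rintro k ⟨a, q⟩ ⟨hq, hco, ha0, ha1⟩
      simp only at hq hco ha0 ha1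
      have hq0 : 0 < q := by omega
      have hL := LL_pos w hq0
      obtain ⟨t, ht, A, c1, c2, c3⟩ := hzero (2 * θ) (by positivity) a q hq0 (LL w q) hL ha0 ha1
        (htail (2 * θ) (by positivity) (by linarith) a q hq0 hco (LL w q) hL ha0 ha1) (by
          have := htail (2 * (2 * θ)) (by positivity) (by linarith) a q hq0 hco (LL w q) hL ha0 ha1 0
          simpa only [Nat.add_zero, pow_zero, one_mul] using this)
        ((Nat.unpair k).1 + 2) (by omega) k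
      have hr : 0 < 1 / (((Nat.unpair k).1 + 2 : ℕ) : ℝ) ^ ((m + 1) * t) := by positivity
      generalize hr' : 1 / (((Nat.unpair k).1 + 2 : ℕ) : ℝ) ^ ((m + 1) * t) = r at *
      generalize hu' : A / (((Nat.unpair k).1 + 2 : ℕ) : ℝ) ^ (m * t) = u at *
      obtain ⟨j, hj, p, hp, -, hfin⟩ := hstep θ hθ hθa a q hq (LL w q) u (r / 2) ha0 ha1
        (by linarith) (by positivity) (by linarith)
        (by
          rw [show u + 2 * (r / 2) = u + r by ring, show r / 2 / 10 = r / 20 by ring]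
          exact c3) 0 (fun _ => ∅) (by simp) q.toNat
      rw [PR, mem_filter, mem_Ioc] at hp
      have hjp : j < p := j.lt_two_pow_self.trans hp.1.1
      obtain ⟨a', -, b2, b3, b4, b5, b6⟩ := hfin ∅ (by simp only [card_empty, Nat.cast_zero]; positivity)
      refine ⟨(a', p), ⟨show (2 : ℤ) ≤ (p : ℤ) by exact_mod_cast hp.2.two_le, b5, ?_, ?_⟩, ⟨?_, ?_, ?_, b6⟩, t, ht, A, ?_, ?_⟩
      · simp only; push_cast; linarith
      · simp only; push_cast; linarith
      · simp only; omega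
      · simp only; push_cast; linarith
      · simp only; push_cast; linarith
      · rw [hu']; simp only [Int.cast_natCast]; linarith
      · rw [hu', hr']; simp only [Int.cast_natCast]; linarith)
  obtain ⟨ξ, hξ, c, hc, hlow⟩ := limit n w (θ / 2 * 2 ^ (-w)) hw0 (by positivity) f
    (fun k => (hf k).1) (fun k => (hf k).2.1)
  obtain ⟨e1, e2⟩ := exponents n hn w _ hw0 f (fun k => (hf k).1) (fun k => (hf k).2.1) ξ hξ c hc
    hlow
  refine ⟨ξ, e1, e2, fun b hb => not_normal b hb m ξ (fun t0 => ?_) hm⟩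
  obtain ⟨t, ht, A, c1, c2⟩ := (hf (Nat.pair (b - 2) t0)).2.2
  rw [Nat.unpair_pair, show b - 2 + 2 = b by omega] at c1 c2
  have hL := LL_pos w (by have := (hf (Nat.pair (b - 2) t0 + 1)).1.1; omega :
    0 < (f (Nat.pair (b - 2) t0 + 1)).2)
  exact ⟨t, (Nat.right_le_pair _ _).trans ht, A, by linarith [(hξ (Nat.pair (b - 2) t0 + 1)).1],
    by linarith [(hξ (Nat.pair (b - 2) t0 + 1)).2]⟩

end Pool.Agent.H792Z.MK
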