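import Mathlib

set_option autoImplicit false

namespace Pool.Agent.H792Z.PolySym

abbrev E3 := EuclideanSpace ℝ (Fin 3)

theorem sq3 (a b d : ℝ) (h : a^2 + b^2 + d^2 = 0) : a = 0 ∧ b = 0 ∧ d = 0 := by
  have ha := sq_nonneg a
  have hb := sq_nonneg b
  have hd := sq_nonneg d
  refine ⟨?_, ?_, ?_⟩
  · exact pow_eq_zero_iff (two_ne_zero) |>.1 (by linarith)
  · exact pow_eq_zero_iff (two_ne_zero) |>.1 (by linarith)
  · exact pow_eq_zero_iff (two_ne_zero) |>.1 (by linarith)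

/-- Gram determinant of four vectors of three-space vanishes (special shapes). -/
theorem core0 (e1 e2 e3 f1 f2 f3 x1 x2 x3 y1 y2 y3 n1 n2 n3 : ℝ)
    (hee : e1*e1+e2*e2+e3*e3 = 250) (hff : f1*f1+f2*f2+f3*f3 = 40)
    (hxe : x1*e1+x2*e2+x3*e3 = 0) (hye : y1*e1+y2*e2+y3*e3 = 0)
    (hxx : x1*x1+x2*x2+x3*x3 = 254) (hyy : y1*y1+y2*y2+y3*y3 = 254)
    (hxy : x1*y1+x2*y2+x3*y3 = -246)
    (hxf : x1*f1+x2*f2+x3*f3 = 0) (hyf : y1*f1+y2*f2+y3*f3 = 0)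
    (hne : n1*e1+n2*e2+n3*e3 = 0)
    (hxn : (x1-n1)^2+(x2-n2)^2+(x3-n3)^2 = 44)
    (hn : n1*n1+n2*n2+n3*n3 + ((f1-e1)^2+(f2-e2)^2+(f3-e3)^2) = 196) :
    (n1 = 13/10*x1+7/10*y1 ∧ n2 = 13/10*x2+7/10*y2 ∧ n3 = 13/10*x3+7/10*y3) ∨
    (n1 = -(71/1270)*x1-7/10*y1 ∧ n2 = -(71/1270)*x2-7/10*y2 ∧ n3 = -(71/1270)*x3-7/10*y3) := by
  obtain ⟨k1, hk1⟩ : ∃ k, k = x2*y3 - x3*y2 := ⟨_, rfl⟩
  obtain ⟨k2, hk2⟩ : ∃ k, k = x3*y1 - x1*y3 := ⟨_, rfl⟩
  obtain ⟨k3, hk3⟩ : ∃ k, k = x1*y2 - x2*y1 := ⟨_, rfl⟩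
  have hkk : k1*k1+k2*k2+k3*k3 = 4000 := by
    have : k1*k1+k2*k2+k3*k3 = (x1*x1+x2*x2+x3*x3)*(y1*y1+y2*y2+y3*y3) - (x1*y1+x2*y2+x3*y3)^2 := by
      rw [hk1, hk2, hk3]; ring
    rw [this, hxx, hyy, hxy]; norm_num
  -- for vectors a, b : (a.k)(b.k) = Gram determinant
  have gram : ∀ a1 a2 a3 b1 b2 b3 : ℝ,
      (a1*k1+a2*k2+a3*k3)*(b1*k1+b2*k2+b3*k3) =
        (a1*b1+a2*b2+a3*b3)*((x1*x1+x2*x2+x3*x3)*(y1*y1+y2*y2+y3*y3) - (x1*y1+x2*y2+x3*y3)^2)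
        - (x1*a1+x2*a2+x3*a3)*((x1*b1+x2*b2+x3*b3)*(y1*y1+y2*y2+y3*y3) - (y1*b1+y2*b2+y3*b3)*(x1*y1+x2*y2+x3*y3))
        + (y1*a1+y2*a2+y3*a3)*((x1*b1+x2*b2+x3*b3)*(x1*y1+x2*y2+x3*y3) - (y1*b1+y2*b2+y3*b3)*(x1*x1+x2*x2+x3*x3)) := by
    intro a1 a2 a3 b1 b2 b3
    rw [hk1, hk2, hk3]; ring
  obtain ⟨s, hs⟩ : ∃ s, s = e1*k1+e2*k2+e3*k3 := ⟨_, rfl⟩
  obtain ⟨t, ht⟩ : ∃ s, s = f1*k1+f2*k2+f3*k3 := ⟨_, rfl⟩
  obtain ⟨r, hr⟩ : ∃ s, s = n1*k1+n2*k2+n3*k3 := ⟨_, rfl⟩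
  obtain ⟨c, hc⟩ : ∃ s, s = e1*f1+e2*f2+e3*f3 := ⟨_, rfl⟩
  obtain ⟨m, hm⟩ : ∃ s, s = y1*n1+y2*n2+y3*n3 := ⟨_, rfl⟩
  obtain ⟨l, hl⟩ : ∃ s, s = x1*n1+x2*n2+x3*n3 := ⟨_, rfl⟩
  obtain ⟨N, hN⟩ : ∃ s, s = n1*n1+n2*n2+n3*n3 := ⟨_, rfl⟩
  have h1 := gram e1 e2 e3 e1 e2 e3
  rw [← hs, hee, hxe, hye, hxx, hyy, hxy] at h1
  have h2 := gram f1 f2 f3 f1 f2 f3
  rw [← ht, hff, hxf, hyf, hxx, hyy, hxy] at h2
  have h3 := gram e1 e2 e3 f1 f2 f3
  rw [← hs, ← ht, ← hc, hxe, hye, hxx, hyy, hxy] at h3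
  have h4 := gram n1 n2 n3 e1 e2 e3
  rw [← hs, ← hr, hne, hxe, hye, hxx, hyy, hxy] at h4
  have h5 := gram n1 n2 n3 n1 n2 n3
  rw [← hr, ← hN, ← hm, ← hl, hxx, hyy, hxy] at h5
  have hs2 : s * s = 1000000 := by linarith
  have ht2 : t * t = 160000 := by linarith
  have hst : s * t = 4000 * c := by linarith
  have hc2 : c * c = 10000 := by
    have : (s*t)*(s*t) = (s*s)*(t*t) := by ring
    rw [hst, hs2, ht2] at this; linarith
  have hNc : N = 2 * c - 94 := by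
    have : (f1-e1)^2+(f2-e2)^2+(f3-e3)^2 = (f1*f1+f2*f2+f3*f3) + (e1*e1+e2*e2+e3*e3) - 2*(e1*f1+e2*f2+e3*f3) := by ring
    rw [this, hff, hee, ← hc, ← hN] at hn; linarith
  have hN0 : 0 ≤ N := by
    rw [hN]; exact add_nonneg (add_nonneg (mul_self_nonneg _) (mul_self_nonneg _)) (mul_self_nonneg _)
  have hc100 : c = 100 := by
    have : (c - 100) * (c + 100) = 0 := by linarith
    rcases mul_eq_zero.1 this with h | h
    · linarith
    · linarith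
  have hN106 : N = 106 := by linarith
  have hl158 : l = 158 := by
    have : (x1-n1)^2+(x2-n2)^2+(x3-n3)^2 = (x1*x1+x2*x2+x3*x3) + (n1*n1+n2*n2+n3*n3) - 2*(x1*n1+x2*n2+x3*n3) := by ring
    rw [this, hxx, ← hN, ← hl] at hxn; linarith
  have hr0 : r = 0 := by
    have h6 : r * s = 0 := by linarith
    rcases mul_eq_zero.1 h6 with h | h
    · exact h
    · rw [h] at hs2; norm_num at hs2
  rw [hr0, hN106, hl158] at h5
  have hm2 : (m + 142) * (127 * m + 20834) = 0 := by linear_combination (1/2) * h5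
  rcases mul_eq_zero.1 hm2 with h | h
  · left
    have hmv : m = -142 := by linarith
    have : (n1 - (13/10*x1+7/10*y1))^2 + (n2 - (13/10*x2+7/10*y2))^2 + (n3 - (13/10*x3+7/10*y3))^2 = 0 := by
      have e : (n1 - (13/10*x1+7/10*y1))^2 + (n2 - (13/10*x2+7/10*y2))^2 + (n3 - (13/10*x3+7/10*y3))^2
        = (n1*n1+n2*n2+n3*n3) + (169/100)*(x1*x1+x2*x2+x3*x3) + (49/100)*(y1*y1+y2*y2+y3*y3)
          - (13/5)*(x1*n1+x2*n2+x3*n3) - (7/5)*(y1*n1+y2*n2+y3*n3) + (91/50)*(x1*y1+x2*y2+x3*y3) := by ring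
      rw [e, ← hN, ← hl, ← hm, hxx, hyy, hxy, hN106, hl158, hmv]; norm_num
    obtain ⟨a, b, d⟩ := sq3 _ _ _ this
    exact ⟨by linear_combination a, by linear_combination b, by linear_combination d⟩
  · right
    have hmv : m = -20834/127 := by linarith
    have : (n1 - (-(71/1270)*x1-7/10*y1))^2 + (n2 - (-(71/1270)*x2-7/10*y2))^2 + (n3 - (-(71/1270)*x3-7/10*y3))^2 = 0 := by
      have e : (n1 - (-(71/1270)*x1-7/10*y1))^2 + (n2 - (-(71/1270)*x2-7/10*y2))^2 + (n3 - (-(71/1270)*x3-7/10*y3))^2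
        = (n1*n1+n2*n2+n3*n3) + (71/1270)^2*(x1*x1+x2*x2+x3*x3) + (49/100)*(y1*y1+y2*y2+y3*y3)
          + (2*(71/1270))*(x1*n1+x2*n2+x3*n3) + (7/5)*(y1*n1+y2*n2+y3*n3) + (2*(71/1270)*(7/10))*(x1*y1+x2*y2+x3*y3) := by ring
      rw [e, ← hN, ← hl, ← hm, hxx, hyy, hxy, hN106, hl158, hmv]; norm_num
    obtain ⟨a, b, d⟩ := sq3 _ _ _ this
    exact ⟨by linear_combination a, by linear_combination b, by linear_combination d⟩

theorem inner3 (u z : E3) : @inner ℝ E3 _ u z = u 0 * z 0 + u 1 * z 1 + u 2 * z 2 := by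
  rw [EuclideanSpace.inner_eq_star_dotProduct]
  simp [dotProduct, Fin.sum_univ_three]
  ring

theorem dist3 (a b : E3) : dist a b ^ 2 = (a 0 - b 0)^2 + (a 1 - b 1)^2 + (a 2 - b 2)^2 := by
  rw [EuclideanSpace.dist_eq, Real.sq_sqrt (by positivity)]
  simp [Fin.sum_univ_three, Real.dist_eq, sq_abs]

/-- Exposed edge of an indexed family. -/
def EdI (q : Fin 6 → E3) (i j : Fin 6) : Prop :=
  i ≠ j ∧ ∃ u : E3, @inner ℝ E3 _ u (q i) = @inner ℝ E3 _ u (q j) ∧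
    ∀ k, k ≠ i → k ≠ j → @inner ℝ E3 _ u (q k) < @inner ℝ E3 _ u (q i)

theorem core (q : Fin 6 → E3)
    (h01 : dist (q 0) (q 1) ^ 2 = 250) (h12 : dist (q 1) (q 2) ^ 2 = 49)
    (h23 : dist (q 2) (q 3) ^ 2 = 40) (h03 : dist (q 0) (q 3) ^ 2 = 49)
    (h04 : dist (q 0) (q 4) ^ 2 = 126) (h14 : dist (q 1) (q 4) ^ 2 = 126)
    (h24 : dist (q 2) (q 4) ^ 2 = 21) (h34 : dist (q 3) (q 4) ^ 2 = 21)
    (h45 : dist (q 4) (q 5) ^ 2 = 250) (h05 : dist (q 0) (q 5) ^ 2 = 126)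
    (h15 : dist (q 1) (q 5) ^ 2 = 126)
    (s1 : dist (q 0) (q 2) = dist (q 1) (q 3)) (s2 : dist (q 2) (q 5) = dist (q 3) (q 5))
    (e01 : EdI q 0 1) (e45 : EdI q 4 5) : False := by
  have s1' : dist (q 0) (q 2) ^ 2 = dist (q 1) (q 3) ^ 2 := by rw [s1]
  have s2' : dist (q 2) (q 5) ^ 2 = dist (q 3) (q 5) ^ 2 := by rw [s2]
  simp only [dist3] at h01 h12 h23 h03 h04 h14 h24 h34 h45 h05 h15 s1' s2'
  obtain ⟨-, u, hu, hu'⟩ := e01
  obtain ⟨-, v, hv, hv'⟩ := e45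
  have u2 := hu' 2 (by decide) (by decide)
  have u3 := hu' 3 (by decide) (by decide)
  have u4 := hu' 4 (by decide) (by decide)
  have u5 := hu' 5 (by decide) (by decide)
  have v0 := hv' 0 (by decide) (by decide)
  have v1 := hv' 1 (by decide) (by decide)
  have v2 := hv' 2 (by decide) (by decide)
  have v3 := hv' 3 (by decide) (by decide)
  simp only [inner3] at hu u2 u3 u4 u5 hv v0 v1 v2 v3
  generalize q 0 0 = a1 at *
  generalize q 0 1 = a2 at *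
  generalize q 0 2 = a3 at *
  generalize q 1 0 = b1 at *
  generalize q 1 1 = b2 at *
  generalize q 1 2 = b3 at *
  generalize q 2 0 = c1 at *
  generalize q 2 1 = c2 at *
  generalize q 2 2 = c3 at *
  generalize q 3 0 = d1 at *
  generalize q 3 1 = d2 at *
  generalize q 3 2 = d3 at *
  generalize q 4 0 = p1 at *
  generalize q 4 1 = p2 at *
  generalize q 4 2 = p3 at *
  generalize q 5 0 = w1 at *
  generalize q 5 1 = w2 at *
  generalize q 5 2 = w3 at *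
  have hne : (c1+d1-a1-b1)*(b1-a1)+(c2+d2-a2-b2)*(b2-a2)+(c3+d3-a3-b3)*(b3-a3) = 0 := by
    linear_combination (1/2) * s1' - (1/2) * h12 + (1/2) * h03
  have hnf : (c1+d1-a1-b1)*(c1-d1)+(c2+d2-a2-b2)*(c2-d2)+(c3+d3-a3-b3)*(c3-d3) = 0 := by
    linear_combination (1/2) * s1' + (1/2) * h12 - (1/2) * h03
  have key := core0 (b1-a1) (b2-a2) (b3-a3) (c1-d1) (c2-d2) (c3-d3)
    (2*p1-a1-b1) (2*p2-a2-b2) (2*p3-a3-b3) (2*w1-a1-b1) (2*w2-a2-b2) (2*w3-a3-b3)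
    (c1+d1-a1-b1) (c2+d2-a2-b2) (c3+d3-a3-b3)
    (by linear_combination h01) (by linear_combination h23)
    (by linear_combination h04 - h14) (by linear_combination h05 - h15)
    (by linear_combination 2*h04 + 2*h14 - h01) (by linear_combination 2*h05 + 2*h15 - h01)
    (by linear_combination h04 + h14 + h05 + h15 - h01 - 2*h45)
    (by linear_combination hnf + h34 - h24) (by linear_combination hnf - s2')
    hne (by linear_combination 2*h24 + 2*h34 - h23) (by linear_combination 2*h03 + 2*h12)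
  rcases key with ⟨k1, k2, k3⟩ | ⟨k1, k2, k3⟩
  · have : v 0 * (c1+d1-a1-b1) + v 1 * (c2+d2-a2-b2) + v 2 * (c3+d3-a3-b3) =
        v 0 * (13/10*(2*p1-a1-b1)+7/10*(2*w1-a1-b1)) + v 1 * (13/10*(2*p2-a2-b2)+7/10*(2*w2-a2-b2))
          + v 2 * (13/10*(2*p3-a3-b3)+7/10*(2*w3-a3-b3)) := by rw [k1, k2, k3]
    clear h01 h12 h23 h03 h04 h14 h24 h34 h45 h05 h15 s1' s2' hne hnf k1 k2 k3 hu' hv'
    linarith
  · have : u 0 * (c1+d1-a1-b1) + u 1 * (c2+d2-a2-b2) + u 2 * (c3+d3-a3-b3) =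
        u 0 * (-(71/1270)*(2*p1-a1-b1)-7/10*(2*w1-a1-b1)) + u 1 * (-(71/1270)*(2*p2-a2-b2)-7/10*(2*w2-a2-b2))
          + u 2 * (-(71/1270)*(2*p3-a3-b3)-7/10*(2*w3-a3-b3)) := by rw [k1, k2, k3]
    clear h01 h12 h23 h03 h04 h14 h24 h34 h45 h05 h15 s1' s2' hne hnf k1 k2 k3 hu' hv'
    linarith

/-- The six vertices. -/
noncomputable def P : Fin 6 → E3 :=
  ![!₂[2, 11, 0], !₂[-11, 2, 0], !₂[-4, 2, 0], !₂[2, 4, 0], !₂[0, 0, 1], !₂[-9, 13, 1]]

/-- The non-edges. -/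
def adj (i j : Fin 6) : Prop :=
  i ≠ j ∧ (i, j) ≠ (0, 2) ∧ (i, j) ≠ (2, 0) ∧ (i, j) ≠ (1, 3) ∧ (i, j) ≠ (3, 1) ∧
    (i, j) ≠ (2, 5) ∧ (i, j) ≠ (5, 2) ∧ (i, j) ≠ (3, 5) ∧ (i, j) ≠ (5, 3)

instance : DecidableRel adj := fun i j => by unfold adj; infer_instance

/-- The symmetry. -/
def tau : Equiv.Perm (Fin 6) := Equiv.swap 0 1 * Equiv.swap 2 3

theorem adj_tau : ∀ i j, adj i j ↔ adj (tau i) (tau j) := by decide

theorem EdI_symm {q : Fin 6 → E3} {i j : Fin 6} (h : EdI q i j) : EdI q j i := by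
  obtain ⟨h1, u, h2, h3⟩ := h
  exact ⟨h1.symm, u, h2.symm, fun k a b => by rw [← h2]; exact h3 k b a⟩

theorem mkEd (i j : Fin 6) (hij : i ≠ j) (u : E3)
    (h1 : u 0 * P i 0 + u 1 * P i 1 + u 2 * P i 2 = u 0 * P j 0 + u 1 * P j 1 + u 2 * P j 2)
    (h2 : ∀ k, k ≠ i → k ≠ j →
      u 0 * P k 0 + u 1 * P k 1 + u 2 * P k 2 < u 0 * P i 0 + u 1 * P i 1 + u 2 * P i 2) :
    EdI P i j := by
  refine ⟨hij, u, ?_, ?_⟩
  · rw [inner3, inner3]; exact h1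
  · intro k a b
    rw [inner3, inner3]; exact h2 k a b

theorem ed01 : EdI P 0 1 := mkEd 0 1 (by decide) !₂[-9, 13, -126] (by simp [P]; norm_num)
  (by intro k a b; fin_cases k <;> simp [P] at a b ⊢ <;> norm_num)
theorem ed03 : EdI P 0 3 := mkEd 0 3 (by decide) !₂[1, 0, 1] (by simp [P])
  (by intro k a b; fin_cases k <;> simp [P] at a b ⊢ <;> norm_num)
theorem ed04 : EdI P 0 4 := mkEd 0 4 (by decide) !₂[14, 9, 127] (by simp [P]; norm_num)
  (by intro k a b; fin_cases k <;> simp [P] at a b ⊢ <;> norm_num)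
theorem ed05 : EdI P 0 5 := mkEd 0 5 (by decide) !₂[4, 22, 0] (by simp [P]; norm_num)
  (by intro k a b; fin_cases k <;> simp [P] at a b ⊢ <;> norm_num)
theorem ed12 : EdI P 1 2 := mkEd 1 2 (by decide) !₂[0, -1, -3] (by simp [P])
  (by intro k a b; fin_cases k <;> simp [P] at a b ⊢ <;> norm_num)
theorem ed14 : EdI P 1 4 := mkEd 1 4 (by decide) !₂[-13, -10, 123] (by simp [P]; norm_num)
  (by intro k a b; fin_cases k <;> simp [P] at a b ⊢ <;> norm_num)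
theorem ed15 : EdI P 1 5 := mkEd 1 5 (by decide) !₂[-22, 4, 0] (by simp [P]; norm_num)
  (by intro k a b; fin_cases k <;> simp [P] at a b ⊢ <;> norm_num)
theorem ed23 : EdI P 2 3 := mkEd 2 3 (by decide) !₂[1, -3, -11] (by simp [P]; norm_num)
  (by intro k a b; fin_cases k <;> simp [P] at a b ⊢ <;> norm_num)
theorem ed24 : EdI P 2 4 := mkEd 2 4 (by decide) !₂[1, -4, -12] (by simp [P]; norm_num)
  (by intro k a b; fin_cases k <;> simp [P] at a b ⊢ <;> norm_num)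
theorem ed34 : EdI P 3 4 := mkEd 3 4 (by decide) !₂[2, -3, -8] (by simp [P]; norm_num)
  (by intro k a b; fin_cases k <;> simp [P] at a b ⊢ <;> norm_num)
theorem ed45 : EdI P 4 5 := mkEd 4 5 (by decide) !₂[0, 0, 1] (by simp [P])
  (by intro k a b; fin_cases k <;> simp [P] at a b ⊢ <;> norm_num)

theorem ned02 : ¬ EdI P 0 2 := by
  rintro ⟨-, u, h1, h2⟩
  have a := h2 1 (by decide) (by decide)
  have b := h2 3 (by decide) (by decide)
  simp only [inner3] at h1 a b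
  simp [P] at h1 a b
  linarith
theorem ned13 : ¬ EdI P 1 3 := by
  rintro ⟨-, u, h1, h2⟩
  have a := h2 0 (by decide) (by decide)
  have b := h2 2 (by decide) (by decide)
  simp only [inner3] at h1 a b
  simp [P] at h1 a b
  linarith
theorem ned25 : ¬ EdI P 2 5 := by
  rintro ⟨-, u, h1, h2⟩
  have a := h2 0 (by decide) (by decide)
  have b := h2 1 (by decide) (by decide)
  have c := h2 4 (by decide) (by decide)
  simp only [inner3] at h1 a b c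
  simp [P] at h1 a b c
  linarith
theorem ned35 : ¬ EdI P 3 5 := by
  rintro ⟨-, u, h1, h2⟩
  have a := h2 0 (by decide) (by decide)
  have b := h2 1 (by decide) (by decide)
  have c := h2 4 (by decide) (by decide)
  simp only [inner3] at h1 a b c
  simp [P] at h1 a b c
  linarith

theorem EdI_P (i j : Fin 6) : EdI P i j ↔ adj i j := by
  have n20 : ¬ EdI P 2 0 := fun h => ned02 (EdI_symm h)
  have n31 : ¬ EdI P 3 1 := fun h => ned13 (EdI_symm h)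
  have n52 : ¬ EdI P 5 2 := fun h => ned25 (EdI_symm h)
  have n53 : ¬ EdI P 5 3 := fun h => ned35 (EdI_symm h)
  constructor
  · intro h
    refine ⟨h.1, ?_, ?_, ?_, ?_, ?_, ?_, ?_, ?_⟩ <;> intro e <;>
      obtain ⟨rfl, rfl⟩ := Prod.mk.inj e
    exacts [ned02 h, n20 h, ned13 h, n31 h, ned25 h, n52 h, ned35 h, n53 h]
  · intro h
    have all : ∀ i j : Fin 6, adj i j → (i, j) ∈ ([(0,1),(0,3),(0,4),(0,5),(1,2),(1,4),(1,5),(2,3),(2,4),(3,4),(4,5),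
        (1,0),(3,0),(4,0),(5,0),(2,1),(4,1),(5,1),(3,2),(4,2),(4,3),(5,4)] : List (Fin 6 × Fin 6)) := by decide
    have := all i j h
    simp only [List.mem_cons, Prod.mk.injEq, List.not_mem_nil, or_false] at this
    rcases this with ⟨rfl, rfl⟩ | ⟨rfl, rfl⟩ | ⟨rfl, rfl⟩ | ⟨rfl, rfl⟩ | ⟨rfl, rfl⟩ | ⟨rfl, rfl⟩ | ⟨rfl, rfl⟩ |
      ⟨rfl, rfl⟩ | ⟨rfl, rfl⟩ | ⟨rfl, rfl⟩ | ⟨rfl, rfl⟩ | ⟨rfl, rfl⟩ | ⟨rfl, rfl⟩ | ⟨rfl, rfl⟩ | ⟨rfl, rfl⟩ |
      ⟨rfl, rfl⟩ | ⟨rfl, rfl⟩ | ⟨rfl, rfl⟩ | ⟨rfl, rfl⟩ | ⟨rfl, rfl⟩ | ⟨rfl, rfl⟩ | ⟨rfl, rfl⟩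
    exacts [ed01, ed03, ed04, ed05, ed12, ed14, ed15, ed23, ed24, ed34, ed45,
      EdI_symm ed01, EdI_symm ed03, EdI_symm ed04, EdI_symm ed05, EdI_symm ed12, EdI_symm ed14,
      EdI_symm ed15, EdI_symm ed23, EdI_symm ed24, EdI_symm ed34, EdI_symm ed45]

theorem dist_tau (i j : Fin 6) (h : adj i j) : dist (P (tau i)) (P (tau j)) = dist (P i) (P j) := by
  have h2 : dist (P (tau i)) (P (tau j)) ^ 2 = dist (P i) (P j) ^ 2 := by
    rw [dist3, dist3]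
    have t0 : tau 0 = 1 := by decide
    have t1 : tau 1 = 0 := by decide
    have t2 : tau 2 = 3 := by decide
    have t3 : tau 3 = 2 := by decide
    have t4 : tau 4 = 4 := by decide
    have t5 : tau 5 = 5 := by decide
    revert h
    fin_cases i <;> fin_cases j <;> simp [adj, P, t0, t1, t2, t3, t4, t5] <;> norm_num
  exact (pow_left_inj₀ dist_nonneg dist_nonneg two_ne_zero).1 h2

theorem P_inj : Function.Injective P := by
  intro i j h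
  have h0 := congrArg (fun z : E3 => z 0) h
  have h1 := congrArg (fun z : E3 => z 1) h
  revert h0 h1
  fin_cases i <;> fin_cases j <;> simp [P] <;> norm_num

theorem P_vertex (i : Fin 6) : ∃ u : E3, ∀ k, k ≠ i → @inner ℝ E3 _ u (P k) < @inner ℝ E3 _ u (P i) := by
  fin_cases i
  · refine ⟨!₂[5, 22, 1], fun k a => ?_⟩
    simp only [inner3]; fin_cases k <;> simp [P] at a ⊢ <;> norm_num
  · refine ⟨!₂[-22, 3, -3], fun k a => ?_⟩
    simp only [inner3]; fin_cases k <;> simp [P] at a ⊢ <;> norm_num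
  · refine ⟨!₂[1, -4, -13], fun k a => ?_⟩
    simp only [inner3]; fin_cases k <;> simp [P] at a ⊢ <;> norm_num
  · refine ⟨!₂[2, -3, -9], fun k a => ?_⟩
    simp only [inner3]; fin_cases k <;> simp [P] at a ⊢ <;> norm_num
  · refine ⟨!₂[2, -4, 240], fun k a => ?_⟩
    simp only [inner3]; fin_cases k <;> simp [P] at a ⊢ <;> norm_num
  · refine ⟨!₂[-9, 13, 125], fun k a => ?_⟩
    simp only [inner3]; fin_cases k <;> simp [P] at a ⊢ <;> norm_num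

theorem P_span : affineSpan ℝ (Set.range P) = ⊤ := by
  rw [eq_top_iff]
  intro z _
  have m : ∀ i, P i ∈ affineSpan ℝ (Set.range P) := fun i => subset_affineSpan ℝ _ ⟨i, rfl⟩
  have h1 := AffineSubspace.smul_vsub_vadd_mem _ (z 2) (m 4) (m 0) (m 0)
  have h2 := AffineSubspace.smul_vsub_vadd_mem _ ((z 1 - 11 + 11 * z 2) / 7) (m 0) (m 3) h1
  have h3 := AffineSubspace.smul_vsub_vadd_mem _ ((z 0 - 2 + 2 * z 2) / 7) (m 2) (m 1) h2
  convert h3 using 1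
  ext i
  fin_cases i <;> simp [P] <;> ring

/-- Exposed edge in a finite set. -/
def Ed (S : Finset E3) (a b : {x // x ∈ S}) : Prop :=
  a ≠ b ∧ ∃ u : E3, @inner ℝ E3 _ u a.1 = @inner ℝ E3 _ u b.1 ∧
    ∀ z ∈ S, z ≠ a.1 → z ≠ b.1 → @inner ℝ E3 _ u z < @inner ℝ E3 _ u a.1

theorem Ed_iff (S : Finset E3) (ε : Fin 6 ≃ {x // x ∈ S}) (i j : Fin 6) :
    Ed S (ε i) (ε j) ↔ EdI (fun k => (ε k).1) i j := by
  unfold Ed EdI
  refine and_congr (by simp) (exists_congr fun u => and_congr Iff.rfl ?_)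
  constructor
  · intro h k a b
    refine h (ε k).1 (ε k).2 ?_ ?_
    · intro e; exact a (ε.injective (Subtype.ext e))
    · intro e; exact b (ε.injective (Subtype.ext e))
  · intro h z hz a b
    obtain ⟨k, hk⟩ := ε.surjective ⟨z, hz⟩
    have hz' : z = (ε k).1 := by rw [hk]
    subst hz'
    refine h k ?_ ?_
    · rintro rfl; exact a rfl
    · rintro rfl; exact b rfl

theorem main :
    ¬ (∀ (S : Finset E3),
      (∀ x ∈ S, x ∉ convexHull ℝ ((S : Set E3) \ {x})) →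
      (interior (convexHull ℝ (S : Set E3))).Nonempty →
      ∃ (T : Finset E3) (e : {x // x ∈ S} ≃ {x // x ∈ T}),
        (∀ x ∈ T, x ∉ convexHull ℝ ((T : Set E3) \ {x})) ∧
        (interior (convexHull ℝ (T : Set E3))).Nonempty ∧
        (∀ a b : {x // x ∈ S}, (Ed S a b ↔ Ed T (e a) (e b))) ∧
        (∀ a b : {x // x ∈ S}, Ed S a b → dist (e a).1 (e b).1 = dist a.1 b.1) ∧
        ∀ σ : {x // x ∈ T} ≃ {x // x ∈ T},
          (∀ a b : {x // x ∈ T}, (Ed T a b ↔ Ed T (σ a) (σ b))) →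
          (∀ a b : {x // x ∈ T}, Ed T a b → dist (σ a).1 (σ b).1 = dist a.1 b.1) →
          ∃ g : AffineIsometryEquiv ℝ E3 E3, ∀ a : {x // x ∈ T}, g a.1 = (σ a).1) := by
  classical
  intro H
  let S : Finset E3 := Finset.univ.image P
  have hS : (S : Set E3) = Set.range P := by simp [S]
  have mem : ∀ i, P i ∈ S := fun i => Finset.mem_image.2 ⟨i, Finset.mem_univ _, rfl⟩
  let ι : Fin 6 ≃ {x // x ∈ S} := Equiv.ofBijective (fun i => ⟨P i, mem i⟩)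
    ⟨fun i j h => P_inj (congrArg Subtype.val h), fun ⟨z, hz⟩ => by
      obtain ⟨i, -, rfl⟩ := Finset.mem_image.1 hz
      exact ⟨i, rfl⟩⟩
  have hι : (fun k => (ι k).1) = P := rfl
  obtain ⟨T, e, -, -, h1, h2, h3⟩ := H S (by
      intro x hx hc
      obtain ⟨i, -, rfl⟩ := Finset.mem_image.1 hx
      obtain ⟨u, hu⟩ := P_vertex i
      have hsub : convexHull ℝ ((S : Set E3) \ {P i}) ⊆
          {z : E3 | @inner ℝ E3 _ u z < @inner ℝ E3 _ u (P i)} := by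
        apply convexHull_min
        · rintro z ⟨hz, hz'⟩
          rw [hS] at hz
          obtain ⟨k, rfl⟩ := hz
          exact hu k (fun e => hz' (by rw [e]; rfl))
        · exact convex_halfSpace_lt (innerSL ℝ u).toLinearMap.isLinear _
      have hlt : @inner ℝ E3 _ u (P i) < @inner ℝ E3 _ u (P i) := hsub hc
      exact lt_irrefl _ hlt)
    (by rw [interior_convexHull_nonempty_iff_affineSpan_eq_top, hS]; exact P_span)
  let ε : Fin 6 ≃ {x // x ∈ T} := ι.trans e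
  have hT : ∀ i j, Ed T (ε i) (ε j) ↔ adj i j := by
    intro i j
    rw [← EdI_P, ← hι, ← Ed_iff S ι]
    exact (h1 (ι i) (ι j)).symm
  have hd : ∀ i j, adj i j → dist (ε i).1 (ε j).1 = dist (P i) (P j) := by
    intro i j h
    exact h2 (ι i) (ι j) ((Ed_iff S ι i j).2 ((EdI_P i j).2 h))
  obtain ⟨g, hg⟩ := h3 (ε.symm.trans (tau.trans ε)) (by
      intro a b
      obtain ⟨i, rfl⟩ := ε.surjective a
      obtain ⟨j, rfl⟩ := ε.surjective b
      simp only [Equiv.trans_apply, Equiv.symm_apply_apply]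
      rw [hT, hT]; exact adj_tau i j)
    (by
      intro a b h
      obtain ⟨i, rfl⟩ := ε.surjective a
      obtain ⟨j, rfl⟩ := ε.surjective b
      simp only [Equiv.trans_apply, Equiv.symm_apply_apply]
      have h' := (hT i j).1 h
      rw [hd _ _ h', hd _ _ ((adj_tau i j).1 h'), dist_tau i j h'])
  have hs : ∀ i j, dist (ε (tau i)).1 (ε (tau j)).1 = dist (ε i).1 (ε j).1 := by
    intro i j
    have a := hg (ε i)
    have b := hg (ε j)
    simp only [Equiv.trans_apply, Equiv.symm_apply_apply] at a b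
    rw [← a, ← b, g.dist_map]
  have val : ∀ i j, adj i j → ∀ c : ℝ, dist (P i) (P j) ^ 2 = c → dist (ε i).1 (ε j).1 ^ 2 = c := by
    intro i j h c hc
    rw [hd i j h, hc]
  refine core (fun k => (ε k).1)
    (val 0 1 (by decide) _ (by rw [dist3]; simp [P]; norm_num))
    (val 1 2 (by decide) _ (by rw [dist3]; simp [P]; norm_num))
    (val 2 3 (by decide) _ (by rw [dist3]; simp [P]; norm_num))
    (val 0 3 (by decide) _ (by rw [dist3]; simp [P]; norm_num))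
    (val 0 4 (by decide) _ (by rw [dist3]; simp [P]; norm_num))
    (val 1 4 (by decide) _ (by rw [dist3]; simp [P]; norm_num))
    (val 2 4 (by decide) _ (by rw [dist3]; simp [P]; norm_num))
    (val 3 4 (by decide) _ (by rw [dist3]; simp [P]; norm_num))
    (val 4 5 (by decide) _ (by rw [dist3]; simp [P]; norm_num))
    (val 0 5 (by decide) _ (by rw [dist3]; simp [P]; norm_num))
    (val 1 5 (by decide) _ (by rw [dist3]; simp [P]; norm_num))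
    (hs 1 3) (hs 3 5)
    ((Ed_iff T ε 0 1).1 ((hT 0 1).2 (by decide))) ((Ed_iff T ε 4 5).1 ((hT 4 5).2 (by decide)))

end Pool.Agent.H792Z.PolySym
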