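import Pool.Agent.H792Z.KM2
import Pool.Agent.H792Z.Aux1

/-! The bad sets of one stage and the choice of the next rational centre. -/

open Polynomial Finset MeasureTheory Filter Topology

namespace Pool.Agent.H792Z.MK

/-- the threshold at the `k`-th dyadic height -/
noncomputable def dl (n : ℕ) (ν θ : ℝ) (q : ℤ) (k : ℕ) : ℝ :=
  θ * (ν ^ k) ^ ((n + 1) * n * (n + 1)) / (2 ^ k * (q : ℝ)) ^ n

/-- the bad set at the `k`-th dyadic height -/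
def Bad (n : ℕ) (ν θ : ℝ) (a q : ℤ) (l : ℝ) (k : ℕ) : Set ℝ :=
  {x ∈ Set.Ico ((a : ℝ) / q) ((a : ℝ) / q + l) | ∃ P : ℤ[X], HB n (2 ^ k * (q : ℝ)) P ∧
    (mR P).eval ((a : ℝ) / q) ≠ 0 ∧ |(mR P).eval x| ≤ dl n ν θ q k}

theorem dl_pos (n : ℕ) {ν θ : ℝ} (hν : 0 < ν) (hθ : 0 < θ) {q : ℤ} (hq : 0 < q) (k : ℕ) :
    0 < dl n ν θ q k := by
  have : (0 : ℝ) < q := by exact_mod_cast hq
  unfold dl; positivity

theorem dl_mul (n : ℕ) (ν θ : ℝ) {q : ℤ} (hq : 0 < q) (k : ℕ) :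
    dl n ν θ q k * (2 ^ k * (q : ℝ)) ^ n = θ * (ν ^ k) ^ ((n + 1) * n * (n + 1)) := by
  have : (0 : ℝ) < q := by exact_mod_cast hq
  unfold dl; field_simp

theorem bad_tail (n : ℕ) (hn : 1 ≤ n) (ν : ℝ) (h0 : 0 < ν) (h1 : ν < 1) : ∃ θ0 : ℝ, 0 < θ0 ∧
    ∀ θ : ℝ, 0 < θ → θ ≤ θ0 → ∀ a q : ℤ, 0 < q → IsCoprime a q → ∀ l : ℝ, 0 < l →
    0 ≤ (a : ℝ) / q → (a : ℝ) / q + l ≤ 1 → ∀ k1 : ℕ,
    volume (⋃ k, Bad n ν θ a q l (k + k1)) ≤ ENNReal.ofReal (ν ^ k1 * (l / 40)) := by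
  obtain ⟨c1, hc1, C1, hC1, h⟩ := km1 n hn
  have hν : 0 < 1 - ν := by linarith
  set e0 : ℝ := min 1 ((1 - ν) / (40 * C1)) with he0
  have he0p : 0 < e0 := lt_min one_pos (by positivity)
  refine ⟨c1 * e0 ^ ((n + 1) * n * (n + 1)), by positivity, ?_⟩
  intro θ hθ hθ0 a q hq hco l hl ha0 ha1 k1
  have hq' : (0 : ℝ) < q := by exact_mod_cast hq
  have hk : ∀ k, volume (Bad n ν θ a q l k) ≤ ENNReal.ofReal (C1 * (e0 * ν ^ k) * l) := by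
    intro k
    refine h a q hq hco l hl ha0 ha1 (e0 * ν ^ k) _ _ (by positivity) ?_ (dl_pos n h0 hθ hq k) ?_ ?_
    · exact mul_le_one₀ (min_le_left _ _) (by positivity) (pow_le_one₀ h0.le h1.le)
    · have : (1 : ℝ) ≤ 2 ^ k := one_le_pow₀ (by norm_num)
      nlinarith
    · rw [dl_mul n ν θ hq, mul_pow, ← mul_assoc]
      gcongr
  refine (measure_iUnion_le _).trans ((ENNReal.tsum_le_tsum fun k => hk (k + k1)).trans ?_)
  have hs : HasSum (fun k => C1 * (e0 * ν ^ (k + k1)) * l) (C1 * e0 * ν ^ k1 * l * (1 - ν)⁻¹) := by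
    have e : (fun k => C1 * (e0 * ν ^ (k + k1)) * l) = fun k => C1 * e0 * ν ^ k1 * l * ν ^ k := by
      ext k; rw [pow_add]; ring
    rw [e]
    exact (hasSum_geometric_of_lt_one h0.le h1).mul_left (C1 * e0 * ν ^ k1 * l)
  rw [← ENNReal.ofReal_tsum_of_nonneg (fun k => by positivity) hs.summable, hs.tsum_eq]
  apply ENNReal.ofReal_le_ofReal
  have h2 : e0 ≤ (1 - ν) / (40 * C1) := min_le_right _ _
  calc C1 * e0 * ν ^ k1 * l * (1 - ν)⁻¹ ≤ C1 * ((1 - ν) / (40 * C1)) * ν ^ k1 * l * (1 - ν)⁻¹ := by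
        gcongr
    _ = _ := by field_simp

theorem bad_spread {n : ℕ} {ν θ : ℝ} {a q : ℤ} {l : ℝ} {k : ℕ} (ha0 : 0 ≤ (a : ℝ) / q)
    (ha1 : (a : ℝ) / q + l ≤ 1) {x y r : ℝ} (hx : x ∈ Bad n ν θ a q l k)
    (hy : y ∈ Set.Ico ((a : ℝ) / q) ((a : ℝ) / q + l)) (hxy : |y - x| ≤ r)
    (hr : CT n * (2 ^ k * (q : ℝ)) * r ≤ dl n ν θ q k) : y ∈ Bad n ν (2 * θ) a q l k := by
  obtain ⟨hx1, P, hP, hP0, hPx⟩ := hx
  refine ⟨hy, P, hP, hP0, ?_⟩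
  have h1 := hP.lip (x := y) (y := x) (by rw [abs_le]; constructor <;> linarith [hy.1, hy.2])
    (by rw [abs_le]; constructor <;> linarith [hx1.1, hx1.2])
  have h2 : CT n * (2 ^ k * (q : ℝ)) * |y - x| ≤ CT n * (2 ^ k * (q : ℝ)) * r := by
    have := hP.nonneg
    have := CT_pos n
    gcongr
  have h3 : dl n ν (2 * θ) q k = 2 * dl n ν θ q k := by unfold dl; ring
  have h4 := abs_sub_abs_le_abs_sub ((mR P).eval y) ((mR P).eval x)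
  linarith

theorem k_large (n : ℕ) {ν θ : ℝ} (hν : 1 / 2 ≤ ν ^ ((n + 1) * n * (n + 1))) (hθ : 0 < θ) {q : ℤ}
    (hq : 0 < q) : ∃ A : ℕ, ∀ (j k : ℕ) (r : ℝ), r * 2 ^ j ≤ 1 →
      dl n ν θ q k < CT n * (2 ^ k * (q : ℝ)) * r → j < A + k * (n + 2) := by
  have hq' : (0 : ℝ) < q := by exact_mod_cast hq
  have hC := CT_pos n
  obtain ⟨A, hA⟩ := pow_unbounded_of_one_lt (CT n * (q : ℝ) ^ (n + 1) / θ) (one_lt_two (α := ℝ))
  refine ⟨A, fun j k r hr h => ?_⟩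
  rw [div_lt_iff₀ hθ] at hA
  unfold dl at h
  rw [div_lt_iff₀ (by positivity), ← pow_mul, mul_comm k, pow_mul] at h
  have h1 : (1 / 2 : ℝ) ^ k ≤ (ν ^ ((n + 1) * n * (n + 1))) ^ k := by gcongr
  have h2 : θ * (1 / 2 : ℝ) ^ k * (2 ^ k * 2 ^ j) <
      CT n * (2 ^ k * (q : ℝ)) * r * (2 ^ k * (q : ℝ)) ^ n * (2 ^ k * 2 ^ j) := by
    refine mul_lt_mul_of_pos_right (lt_of_le_of_lt ?_ h) (by positivity)
    gcongr
  have h3 : θ * (1 / 2 : ℝ) ^ k * (2 ^ k * 2 ^ j) = θ * 2 ^ j := by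
    rw [one_div, inv_pow]; field_simp
  have h4 : CT n * (2 ^ k * (q : ℝ)) * r * (2 ^ k * (q : ℝ)) ^ n * (2 ^ k * 2 ^ j) =
      CT n * (q : ℝ) ^ (n + 1) * 2 ^ (k * (n + 2)) * (r * 2 ^ j) := by
    rw [mul_pow, ← pow_mul]; ring
  rw [h3, h4] at h2
  have h5 : θ * 2 ^ j < θ * 2 ^ (A + k * (n + 2)) := by
    calc θ * 2 ^ j < _ := h2
      _ ≤ CT n * (q : ℝ) ^ (n + 1) * 2 ^ (k * (n + 2)) * 1 := by gcongr
      _ ≤ 2 ^ A * θ * 2 ^ (k * (n + 2)) * 1 := by gcongr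
      _ = _ := by rw [pow_add]; ring
  exact (pow_lt_pow_iff_right₀ (by norm_num)).1 (lt_of_mul_lt_mul_left h5 hθ.le)

theorem core (n : ℕ) (hn : 1 ≤ n) (ν : ℝ) (h0 : 0 < ν) (h1 : ν < 1)
    (hν : 1 / 2 ≤ ν ^ ((n + 1) * n * (n + 1))) : ∃ θ1 : ℝ, 0 < θ1 ∧ ∀ θ : ℝ, 0 < θ → θ ≤ θ1 →
    ∀ a q : ℤ, 0 < q → ∀ l u ℓ : ℝ, 0 ≤ (a : ℝ) / q → (a : ℝ) / q + l ≤ 1 → (a : ℝ) / q < u →
    0 < ℓ → u + 2 * ℓ ≤ (a : ℝ) / q + l →
    volume (Set.Ico u (u + 2 * ℓ) ∩ ⋃ k, Bad n ν (2 * θ) a q l k) ≤ ENNReal.ofReal (ℓ / 10) →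
    ∀ (K : ℕ) (X : ℕ → Finset ℕ), (∀ j, 1 ≤ j → (X j).card ≤ K * j ^ 6) → ∀ M : ℕ,
    ∃ j, M ≤ j ∧ ∃ p : ℕ, p ∈ PR j ∧ p ∉ X j ∧ ∃ NB : Finset ℤ, (NB.card : ℝ) ≤ ℓ * p / 5 ∧
      ∀ a' : ℤ, u ≤ (a' : ℝ) / p → (a' : ℝ) / p ≤ u + ℓ → a' ∉ NB → ∀ k, k ≤ j + 1 → ∀ P : ℤ[X],
        HB n (2 ^ k * (q : ℝ)) P → (mR P).eval ((a : ℝ) / q) ≠ 0 → (mR P).eval ((a' : ℝ) / p) ≠ 0 →
        dl n ν θ q k < |(mR P).eval ((a' : ℝ) / p)| := by
  classical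
  obtain ⟨c2, hc2, C2, hC2, hkm⟩ := km2 n hn
  refine ⟨min c2 ((c2 / 2) ^ n), lt_min hc2 (by positivity), ?_⟩
  intro θ hθ hθ1 a q hq l u ℓ ha0 ha1 hu hℓ hu1 hvol K X hX M
  have hq' : (0 : ℝ) < q := by exact_mod_cast hq
  have hC := CT_pos n
  obtain ⟨A, hA⟩ := k_large n hν hθ hq
  obtain ⟨M1, hM1⟩ := eventually_atTop.1 ((ev_pow (32 * K) 8).and ((ev_pow (1 / ℓ) 0).and
    (ev_geo (960 * C2 / ℓ) (by positivity) 3 (2 * (n + 2)) (by omega) ν h0 h1)))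
  obtain ⟨j, hj, hjP⟩ := primes_dyadic (M + M1 + 2 * A + 1)
  obtain ⟨e1, e2, e3⟩ := hM1 j (by omega)
  rw [pow_zero, mul_one, div_le_iff₀ hℓ] at e2
  refine ⟨j, by omega, ?_⟩
  set Q : ℝ := 2 ^ j with hQ
  have hQ1 : 1 ≤ Q := one_le_pow₀ (by norm_num)
  have hj1 : (1 : ℝ) ≤ j := by exact_mod_cast (by omega : 1 ≤ j)
  set i := j / (2 * (n + 2)) with hi
  have hPR : ∀ p ∈ PR j, p.Prime ∧ Q ≤ (p : ℝ) ∧ (p : ℝ) ≤ 2 * Q := by
    intro p hp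
    rw [PR, mem_filter, mem_Ioc] at hp
    refine ⟨hp.2, ?_, ?_⟩
    · rw [hQ]; exact_mod_cast hp.1.1.le
    · rw [hQ, mul_comm, ← pow_succ]; exact_mod_cast hp.1.2
  obtain ⟨N2, hN2d⟩ : ∃ N2 : ℕ → ℕ → Finset ℤ, ∀ k p a', a' ∈ N2 k p ↔ a' ∈ Ico (1 : ℤ) p ∧
      dl n ν θ q k < CT n * (2 ^ k * (q : ℝ)) * (1 / Q) ∧ ∃ P : ℤ[X], HB n (2 ^ k * (q : ℝ)) P ∧
      (mR P).eval ((a' : ℝ) / p) ≠ 0 ∧ |(mR P).eval ((a' : ℝ) / p)| ≤ dl n ν θ q k :=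
    ⟨fun k p => (Ico (1 : ℤ) p).filter _, fun k p a' => mem_filter⟩
  have hN2 : ∀ k, ∑ p ∈ PR j, ((N2 k p).card : ℝ) ≤ C2 * ν ^ i * Q ^ 2 := by
    intro k
    by_cases hne : ∃ p ∈ PR j, (N2 k p).Nonempty
    swap
    · push Not at hne
      rw [sum_eq_zero fun p hp => by rw [hne p hp]; simp]
      positivity
    obtain ⟨p0, hp0, a0, ha0'⟩ := hne
    obtain ⟨-, hk1, P0, hP0, hP00, hP01⟩ := (hN2d _ _ _).1 ha0'
    obtain ⟨hp01, hp02, hp03⟩ := hPR p0 hp0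
    have hk2 := hA j k (1 / Q) (by rw [← hQ]; field_simp; rfl) hk1
    have hik : i ≤ k := by
      rw [hi]
      apply Nat.div_le_of_le_mul
      nlinarith
    have hνk : ν ^ k ≤ ν ^ i := pow_le_pow_of_le_one h0.le h1.le hik
    have hνi : ν ^ i ≤ 1 := pow_le_one₀ h0.le h1.le
    have hk3 := eval_ge hP0.1 a0 p0 (by exact_mod_cast hp01.pos) hP00
    have hinj : Function.Injective (fun y : (Σ _ : ℕ, ℤ) => (y.2, (y.1 : ℤ))) := by
      rintro ⟨x1, x2⟩ ⟨y1, y2⟩ h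
      simp only [Prod.mk.injEq, Nat.cast_inj] at h
      rw [h.1, h.2]
    have h2 := hkm Q (ν ^ i) (dl n ν θ q k) (2 ^ k * (q : ℝ)) hQ1 (by positivity) hνi
      (dl_pos n h0 hθ hq k) (by positivity) ?_ ?_ (((PR j).sigma (N2 k)).map ⟨_, hinj⟩) ?_
    · rw [card_map, card_sigma] at h2
      exact_mod_cast h2
    · refine le_of_pow_le_pow_left₀ (n := n) (by omega) (by positivity) ?_
      calc (2 ^ k * (q : ℝ)) ^ n = 1 * (2 ^ k * (q : ℝ)) ^ n := (one_mul _).symm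
        _ ≤ ((2 * Q) ^ n * dl n ν θ q k) * (2 ^ k * (q : ℝ)) ^ n := by
          gcongr
          refine hk3.trans ?_
          push_cast
          gcongr
        _ = (2 * Q) ^ n * (θ * (ν ^ k) ^ ((n + 1) * n * (n + 1))) := by
          rw [mul_assoc, dl_mul n ν θ hq]
        _ ≤ (2 * Q) ^ n * ((c2 / 2) ^ n * (ν ^ i) ^ ((n + 1) * n * n)) := by
          gcongr
          · exact hθ1.trans (min_le_right _ _)
          · exact (pow_le_pow_left₀ (by positivity) hνk _).trans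
              (pow_le_pow_of_le_one (by positivity) hνi (Nat.mul_le_mul_left _ (by omega)))
        _ = _ := by rw [pow_mul (ν ^ i), ← mul_pow, ← mul_pow]; congr 1; ring
    · rw [dl_mul n ν θ hq]
      gcongr
      exact hθ1.trans (min_le_left _ _)
    · intro y hy
      obtain ⟨⟨p, a'⟩, hy', rfl⟩ := mem_map.1 hy
      rw [mem_sigma] at hy'
      obtain ⟨b1, b2, b3⟩ := hPR p hy'.1
      obtain ⟨b4, -, b5⟩ := (hN2d _ _ _).1 hy'.2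
      rw [mem_Ico] at b4
      simp only [Function.Embedding.coeFn_mk] at b4 b5 ⊢
      refine ⟨by exact_mod_cast b2, by exact_mod_cast b3, by omega, b4.2, ?_, by exact_mod_cast b5⟩
      have b6 := (Nat.prime_iff_prime_int.1 b1).irreducible.coprime_iff_not_dvd (n := a')
      exact (b6.2 fun hd => by have := Int.le_of_dvd (by omega) hd; omega).symm
  obtain ⟨p, hp, hpX, hpN⟩ : ∃ p ∈ PR j, p ∉ X j ∧
      ∑ k ∈ range (j + 2), ((N2 k p).card : ℝ) ≤ ℓ * Q / 10 := by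
    by_contra hcon
    push Not at hcon
    have h2 : ((PR j \ X j).card : ℝ) * (ℓ * Q / 10) ≤ (j + 2) * (C2 * ν ^ i * Q ^ 2) := by
      calc ((PR j \ X j).card : ℝ) * (ℓ * Q / 10) = ∑ _p ∈ PR j \ X j, ℓ * Q / 10 := by
            rw [sum_const, nsmul_eq_mul]
        _ ≤ ∑ p ∈ PR j \ X j, ∑ k ∈ range (j + 2), ((N2 k p).card : ℝ) :=
            sum_le_sum fun p hp => (hcon p (mem_sdiff.1 hp).1 (mem_sdiff.1 hp).2).le
        _ ≤ ∑ p ∈ PR j, ∑ k ∈ range (j + 2), ((N2 k p).card : ℝ) :=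
            sum_le_sum_of_subset_of_nonneg sdiff_subset fun _ _ _ =>
              sum_nonneg fun _ _ => Nat.cast_nonneg _
        _ = ∑ k ∈ range (j + 2), ∑ p ∈ PR j, ((N2 k p).card : ℝ) := sum_comm
        _ ≤ ∑ _k ∈ range (j + 2), C2 * ν ^ i * Q ^ 2 := sum_le_sum fun k _ => hN2 k
        _ = _ := by rw [sum_const, card_range, nsmul_eq_mul]; push_cast; ring
    have h3 : ((PR j).card : ℝ) ≤ (PR j \ X j).card + K * (j : ℝ) ^ 6 := by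
      have h4 := le_card_sdiff (X j) (PR j)
      have h5 := hX j (by omega)
      have : (PR j).card ≤ (PR j \ X j).card + K * j ^ 6 := by omega
      exact_mod_cast this
    have h4 : ((PR j \ X j).card : ℝ) ≤ 30 * j * C2 * ν ^ i * Q / ℓ := by
      rw [le_div_iff₀ hℓ]
      have h5 : ((PR j \ X j).card : ℝ) * ℓ * Q ≤ (30 * j * C2 * ν ^ i * Q) * Q := by
        have : ((j : ℝ) + 2) * (C2 * ν ^ i * Q ^ 2) ≤ (3 * j) * (C2 * ν ^ i * Q ^ 2) := by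
          gcongr; linarith
        nlinarith
      exact le_of_mul_le_mul_right h5 (by positivity)
    have h5 : 16 * (j : ℝ) ^ 2 * (30 * j * C2 * ν ^ i * Q / ℓ) =
        (960 * C2 / ℓ * (j : ℝ) ^ 3 * ν ^ i) * (Q / 2) := by field_simp; ring
    have h6 : (960 * C2 / ℓ * (j : ℝ) ^ 3 * ν ^ i) * (Q / 2) < 1 * (Q / 2) := by gcongr
    have h7 : 16 * (j : ℝ) ^ 2 * (PR j).card ≤
        16 * (j : ℝ) ^ 2 * (30 * j * C2 * ν ^ i * Q / ℓ + K * (j : ℝ) ^ 6) := by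
      gcongr; linarith
    have h8 : 16 * (j : ℝ) ^ 2 * (K * (j : ℝ) ^ 6) = 32 * K * (j : ℝ) ^ 8 / 2 := by ring
    rw [mul_add, h5, h8] at h7
    linarith
  obtain ⟨hp1, hp2, hp3⟩ := hPR p hp
  have hp0 : (0 : ℝ) < p := by linarith
  have hpℓ : 1 / (p : ℝ) ≤ ℓ := by
    rw [div_le_iff₀ hp0]; nlinarith
  obtain ⟨N1, hN1d⟩ : ∃ N1 : Finset ℤ, ∀ a', a' ∈ N1 ↔ a' ∈ Ico (1 : ℤ) p ∧
      u ≤ (a' : ℝ) / p ∧ (a' : ℝ) / p ≤ u + ℓ ∧
      ∃ k, CT n * (2 ^ k * (q : ℝ)) * (1 / p) ≤ dl n ν θ q k ∧ (a' : ℝ) / p ∈ Bad n ν θ a q l k :=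
    ⟨(Ico (1 : ℤ) p).filter _, fun a' => mem_filter⟩
  have hN1 := count_le N1 (fun a' => Set.Ico ((a' : ℝ) / p) (((a' : ℝ) + 1) / p))
    (fun _ => measurableSet_Ico) (by
      intro y _ y' _ hne
      rw [Function.onFun, Set.disjoint_left]
      intro z hz hz'
      apply hne
      have b1 := (div_lt_div_iff_of_pos_right hp0).1 (hz.1.trans_lt hz'.2)
      have b2 := (div_lt_div_iff_of_pos_right hp0).1 (hz'.1.trans_lt hz.2)
      have b3 : y < y' + 1 := by exact_mod_cast b1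
      have b4 : y' < y + 1 := by exact_mod_cast b2
      omega) _ (1 / p) _ (by positivity) (by
      intro a' ha'
      obtain ⟨-, b1, b2, k, b3, b4⟩ := (hN1d _).1 ha'
      rw [Set.inter_eq_left.2, Real.volume_Ico]
      · apply le_of_eq; congr 1; ring
      intro z hz
      have b5 := hz.1
      have b6 := hz.2
      rw [add_div] at b6
      refine ⟨⟨by linarith, by linarith⟩, Set.mem_iUnion.2 ⟨k, ?_⟩⟩
      exact bad_spread ha0 ha1 b4 ⟨by linarith, by linarith⟩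
        (by rw [abs_le]; constructor <;> linarith) b3) hvol
  refine ⟨p, hp, hpX, N1 ∪ (range (j + 2)).biUnion fun k => N2 k p, ?_, ?_⟩
  · have h2 : (((N1 ∪ (range (j + 2)).biUnion fun k => N2 k p).card : ℕ) : ℝ) ≤
        N1.card + ∑ k ∈ range (j + 2), ((N2 k p).card : ℝ) := by
      exact_mod_cast (card_union_le _ _).trans (Nat.add_le_add_left card_biUnion_le _)
    rw [mul_one_div, div_le_iff₀ hp0] at hN1
    have : ℓ * Q ≤ ℓ * p := by gcongr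
    linarith
  · intro a' b1 b2 b3 k hk P hP hP0 hP1
    by_contra hcon
    push Not at hcon
    apply b3
    have b4 : a' ∈ Ico (1 : ℤ) p := by
      have c1 : 0 < (a' : ℝ) / p := by linarith
      have c2 : (a' : ℝ) / p < 1 := by linarith
      rw [div_lt_one hp0] at c2
      rw [div_pos_iff_of_pos_right hp0] at c1
      have c3 : 0 < a' := by exact_mod_cast c1
      have c4 : a' < p := by exact_mod_cast c2
      exact mem_Ico.2 ⟨by omega, c4⟩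
    rw [mem_union]
    by_cases hc : CT n * (2 ^ k * (q : ℝ)) * (1 / p) ≤ dl n ν θ q k
    · exact Or.inl ((hN1d _).2 ⟨b4, b1, b2, k, hc, ⟨by linarith, by linarith⟩, P, hP, hP0, hcon⟩)
    · refine Or.inr (mem_biUnion.2 ⟨k, mem_range.2 (by omega),
        (hN2d _ _ _).2 ⟨b4, ?_, P, hP, hP1, hcon⟩⟩)
      push Not at hc
      refine hc.trans_le ?_
      gcongr

end Pool.Agent.H792Z.MK
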