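import Pool.Agent.H792Z.Step

/-! One stage of the construction. -/

open Polynomial Finset MeasureTheory Filter Topology

namespace Pool.Agent.H792Z.MK

/-- length of the interval attached to the denominator `q` -/
noncomputable def LL (w : ℝ) (q : ℤ) : ℝ := (q : ℝ) ^ (-(w + 1))

theorem LL_pos (w : ℝ) {q : ℤ} (hq : 0 < q) : 0 < LL w q :=
  Real.rpow_pos_of_pos (by exact_mod_cast hq) _

theorem LL_le {w : ℝ} (hw : 0 ≤ w) {q : ℤ} (hq : 0 < q) : LL w q ≤ 1 / q := by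
  have hq1 : (1 : ℝ) ≤ q := by exact_mod_cast hq
  rw [one_div, ← Real.rpow_neg_one]
  exact Real.rpow_le_rpow_of_exponent_le hq1 (by linarith)

theorem LL_mul (w : ℝ) {q : ℤ} (hq : 0 < q) : (q : ℝ) * LL w q = (q : ℝ) ^ (-w) := by
  have hq1 : (0 : ℝ) < q := by exact_mod_cast hq
  rw [LL, neg_add, Real.rpow_add hq1, Real.rpow_neg_one]
  field_simp

/-- the lower bound gained at one stage -/
def Good (n : ℕ) (w θ : ℝ) (a q a' q' : ℤ) : Prop :=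
  ∀ x : ℝ, (a' : ℝ) / q' ≤ x → x ≤ (a' : ℝ) / q' + LL w q' → ∀ (P : ℤ[X]) (H : ℝ), HB n H P →
    (q : ℝ) ≤ H → H ≤ q' → (mR P).eval ((a : ℝ) / q) ≠ 0 → (mR P).eval ((a' : ℝ) / q') ≠ 0 →
    θ * H ^ (-w) ≤ |(mR P).eval x|

theorem params (n : ℕ) (hn : 1 ≤ n) (w : ℝ) (hw : (n : ℝ) < w) : ∃ ν : ℝ, 0 < ν ∧ ν < 1 ∧
    1 / 2 ≤ ν ^ ((n + 1) * n * (n + 1)) ∧ ∃ w0 : ℝ, 0 ≤ w0 ∧ w0 < w ∧ ∀ θ : ℝ, 0 < θ →
    ∀ q : ℤ, 0 < q → ∀ k : ℕ, θ * (2 ^ k * (q : ℝ)) ^ (-w0) ≤ dl n ν θ q k := by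
  set η : ℝ := min 1 ((w - n) / 2) with hη
  have hη0 : 0 < η := lt_min one_pos (by linarith)
  have hη1 : η ≤ 1 := min_le_left _ _
  have hη2 : η ≤ (w - n) / 2 := min_le_right _ _
  obtain ⟨N, hN⟩ : ∃ N, N = (n + 1) * n * (n + 1) := ⟨_, rfl⟩
  have hN0 : (0 : ℝ) < N := by rw [hN]; positivity
  have e : ((2 : ℝ) ^ (-η / N)) ^ N = 2 ^ (-η) := by
    rw [← Real.rpow_natCast, ← Real.rpow_mul (by norm_num), div_mul_cancel₀ _ hN0.ne']
  have hn0 : (0 : ℝ) ≤ n := Nat.cast_nonneg n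
  refine ⟨(2 : ℝ) ^ (-η / N), by positivity, ?_, ?_, n + η, by linarith, by linarith, ?_⟩
  · exact Real.rpow_lt_one_of_one_lt_of_neg (by norm_num) (by
      rw [neg_div]; exact neg_neg_of_pos (by positivity))
  · rw [← hN, e, one_div, ← Real.rpow_neg_one]
    exact Real.rpow_le_rpow_of_exponent_le (by norm_num) (by linarith)
  · intro θ hθ q hq k
    have hq1 : (1 : ℝ) ≤ q := by exact_mod_cast hq
    unfold dl
    rw [← hN, ← pow_mul, mul_comm k, pow_mul, e, mul_div_assoc, neg_add,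
      Real.rpow_add (by positivity), Real.rpow_neg (by positivity) n, Real.rpow_natCast,
      inv_mul_eq_div]
    gcongr
    rw [← Real.rpow_natCast ((2 : ℝ) ^ (-η)), ← Real.rpow_mul (by norm_num), mul_comm (-η),
      Real.rpow_mul (by norm_num), Real.rpow_natCast]
    refine Real.rpow_le_rpow_of_nonpos (by positivity) ?_ (by linarith)
    have : (0 : ℝ) < 2 ^ k := by positivity
    nlinarith

theorem step (n : ℕ) (hn : 1 ≤ n) (w : ℝ) (hw : (n : ℝ) < w) : ∃ ν : ℝ, 0 < ν ∧ ν < 1 ∧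
    1 / 2 ≤ ν ^ ((n + 1) * n * (n + 1)) ∧ ∃ θ1 : ℝ, 0 < θ1 ∧ ∀ θ : ℝ, 0 < θ → θ ≤ θ1 →
    ∀ a q : ℤ, 2 ≤ q → ∀ l u ℓ : ℝ, 0 ≤ (a : ℝ) / q → (a : ℝ) / q + l ≤ 1 → (a : ℝ) / q < u →
    0 < ℓ → u + 2 * ℓ ≤ (a : ℝ) / q + l →
    volume (Set.Ico u (u + 2 * ℓ) ∩ ⋃ k, Bad n ν (2 * θ) a q l k) ≤ ENNReal.ofReal (ℓ / 10) →
    ∀ (K : ℕ) (X : ℕ → Finset ℕ), (∀ j, 1 ≤ j → (X j).card ≤ K * j ^ 6) → ∀ M : ℕ,
    ∃ j, M ≤ j ∧ ∃ p : ℕ, p ∈ PR j ∧ p ∉ X j ∧ ∀ NB : Finset ℤ, (NB.card : ℝ) ≤ ℓ * p / 2 →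
      ∃ a' : ℤ, a' ∉ NB ∧ u ≤ (a' : ℝ) / p ∧ (a' : ℝ) / p ≤ u + ℓ ∧
        (a' : ℝ) / p + LL w p < u + 2 * ℓ ∧ IsCoprime a' p ∧
        Good n w (θ / 2 * 2 ^ (-w)) a q a' p := by
  classical
  obtain ⟨ν, h0, h1, hν, w0, hw0, hw1, hdl⟩ := params n hn w hw
  obtain ⟨θ1, hθ1, hcore⟩ := core n hn ν h0 h1 hν
  refine ⟨ν, h0, h1, hν, θ1, hθ1, ?_⟩
  intro θ hθ hθ' a q hq l u ℓ ha0 ha1 hu hℓ hu1 hvol K X hX M
  have hq0 : 0 < q := by omega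
  have hq' : (2 : ℝ) ≤ q := by exact_mod_cast hq
  have hC := CT_pos n
  obtain ⟨M1, hM1⟩ := eventually_atTop.1 (((tendsto_rpow_atTop (y := w - w0)
    (by linarith)).eventually_ge_atTop (2 * CT n * 2 ^ w0 / θ)).and (eventually_ge_atTop (4 / ℓ)))
  obtain ⟨j, hj, p, hp, hpX, NB1, hNB1, hgood⟩ :=
    hcore θ hθ hθ' a q hq0 l u ℓ ha0 ha1 hu hℓ hu1 hvol K X hX (M + ⌈M1⌉₊)
  refine ⟨j, by omega, p, hp, hpX, fun NB hNB => ?_⟩
  rw [PR, mem_filter, mem_Ioc] at hp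
  obtain ⟨⟨hp1, hp2⟩, hp3⟩ := hp
  have hp0 : (0 : ℝ) < p := by exact_mod_cast hp3.pos
  have hp0' : (0 : ℤ) < p := by exact_mod_cast hp3.pos
  obtain ⟨e1, e2⟩ := hM1 p ((Nat.le_ceil M1).trans (Nat.cast_le.2 (by
    have := j.lt_two_pow_self; omega)))
  rw [div_le_iff₀ hℓ] at e2
  rw [div_le_iff₀ hθ] at e1
  obtain ⟨a', ha'1, ha'2⟩ : ∃ a' ∈ Icc ⌈u * p⌉ ⌊(u + ℓ) * p⌋, a' ∉ NB1 ∪ NB := by
    by_contra hcon
    push Not at hcon
    have h2 := (card_le_card hcon).trans (card_union_le _ _)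
    have h3 : ((Icc ⌈u * p⌉ ⌊(u + ℓ) * p⌋).card : ℝ) ≤ NB1.card + NB.card := by exact_mod_cast h2
    have h4 := card_Icc_ge (u * p) ((u + ℓ) * p)
    nlinarith
  rw [mem_Icc, Int.ceil_le, Int.le_floor, ← le_div_iff₀ hp0, ← div_le_iff₀ hp0] at ha'1
  rw [mem_union, not_or] at ha'2
  have hL := LL_le (w := w) (by linarith) hp0'
  have hL0 := LL_pos w hp0'
  have hL1 : 1 / ((p : ℤ) : ℝ) ≤ ℓ / 4 := by
    push_cast
    rw [div_le_div_iff₀ hp0 (by norm_num)]; linarith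
  refine ⟨a', ha'2.2, ha'1.1, ha'1.2, by linarith [ha'1.2], ?_, ?_⟩
  · have c1 : 0 < (a' : ℝ) / p := by linarith [ha'1.1]
    have c2 : (a' : ℝ) / p < 1 := by linarith [ha'1.2]
    rw [div_lt_one hp0] at c2
    rw [div_pos_iff_of_pos_right hp0] at c1
    have c3 : 0 < a' := by exact_mod_cast c1
    have c4 : a' < p := by exact_mod_cast c2
    have b6 := (Nat.prime_iff_prime_int.1 hp3).irreducible.coprime_iff_not_dvd (n := a')
    exact (b6.2 fun hd => by have := Int.le_of_dvd (by omega) hd; omega).symm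
  · intro x hx1 hx2 P H hP hH1 hH2 hP0 hP1
    push_cast at hx1 hx2 hH2 hP1
    have hH0 : 0 < H := by linarith
    obtain ⟨k, hk1, hk2⟩ := exists_nat_pow_near (x := H / q) (y := 2)
      (by rw [one_le_div (by linarith)]; exact hH1) (by norm_num)
    rw [le_div_iff₀ (by linarith)] at hk1
    rw [div_lt_iff₀ (by linarith)] at hk2
    have hk3 : k + 1 ≤ j + 1 := by
      have h2 : (p : ℝ) ≤ 2 ^ (j + 1) := by exact_mod_cast hp2
      have h3 : (2 : ℝ) ^ (k + 1) ≤ 2 ^ (j + 1) := by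
        have : (0 : ℝ) < 2 ^ k := by positivity
        rw [pow_succ]; nlinarith
      exact (pow_le_pow_iff_right₀ (by norm_num)).1 h3
    have h2 := hgood a' ha'1.1 ha'1.2 ha'2.1 (k + 1) hk3 P (hP.mono hk2.le) hP0 hP1
    have h3 := hdl θ hθ q hq0 (k + 1)
    have h4 : (2 * H) ^ (-w0) ≤ (2 ^ (k + 1) * (q : ℝ)) ^ (-w0) :=
      Real.rpow_le_rpow_of_nonpos (by positivity) (by rw [pow_succ]; linarith) (by linarith)
    have h5 := hP.lip (x := (a' : ℝ) / p) (y := x)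
      (by rw [abs_le]; constructor <;> linarith [ha'1.1, ha'1.2])
      (by rw [abs_le]; constructor <;> linarith [ha'1.1, ha'1.2])
    have h6 : CT n * H * |(a' : ℝ) / p - x| ≤ θ / 2 * (2 * H) ^ (-w0) := by
      have h7 : |(a' : ℝ) / p - x| ≤ LL w p := by rw [abs_le]; constructor <;> linarith
      have h8 := LL_mul w hp0'
      push_cast at h8
      have h9 : (2 * (p : ℝ)) ^ (-w0) ≤ (2 * H) ^ (-w0) :=
        Real.rpow_le_rpow_of_nonpos (by positivity) (by linarith) (by linarith)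
      calc CT n * H * |(a' : ℝ) / p - x| ≤ CT n * p * LL w p := by gcongr
        _ = (2 * CT n * 2 ^ w0) * ((p : ℝ) ^ (-w) * 2 ^ (-w0) / 2) := by
            rw [mul_assoc, h8, Real.rpow_neg (by norm_num) w0]; field_simp
        _ ≤ ((p : ℝ) ^ (w - w0) * θ) * ((p : ℝ) ^ (-w) * 2 ^ (-w0) / 2) := by gcongr
        _ = θ / 2 * (2 * (p : ℝ)) ^ (-w0) := by
            rw [Real.mul_rpow (by norm_num) hp0.le,
              show (p : ℝ) ^ (-w0) = (p : ℝ) ^ (w - w0) * (p : ℝ) ^ (-w) by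
                rw [← Real.rpow_add hp0]; congr 1; ring]
            ring
        _ ≤ _ := by gcongr
    have h7 : (2 * H) ^ (-w) ≤ (2 * H) ^ (-w0) :=
      Real.rpow_le_rpow_of_exponent_le (by linarith) (by linarith)
    have h8 := abs_sub_abs_le_abs_sub ((mR P).eval ((a' : ℝ) / p)) ((mR P).eval x)
    have h9 : θ * (2 * H) ^ (-w0) ≤ θ * (2 ^ (k + 1) * (q : ℝ)) ^ (-w0) := by gcongr
    rw [mul_assoc, ← Real.mul_rpow (by norm_num) hH0.le]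
    have h10 : θ / 2 * (2 * H) ^ (-w) ≤ θ / 2 * (2 * H) ^ (-w0) := by gcongr
    linarith

theorem zero_block (n : ℕ) (ν : ℝ) (h0 : 0 < ν) (h1 : ν < 1)
    (hν : 1 / 2 ≤ ν ^ ((n + 1) * n * (n + 1))) : ∃ m : ℕ, 1 ≤ m ∧ ∀ θ : ℝ, 0 < θ →
    ∀ a q : ℤ, 0 < q → ∀ l : ℝ, 0 < l → 0 ≤ (a : ℝ) / q → (a : ℝ) / q + l ≤ 1 →
    (∀ k1, volume (⋃ k, Bad n ν θ a q l (k + k1)) ≤ ENNReal.ofReal (ν ^ k1 * (l / 40))) →
    volume (⋃ k, Bad n ν (2 * θ) a q l k) ≤ ENNReal.ofReal (l / 40) →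
    ∀ b : ℕ, 2 ≤ b → ∀ t0 : ℕ, ∃ t, t0 ≤ t ∧ ∃ A : ℤ,
      (a : ℝ) / q + l / 2 ≤ A / (b : ℝ) ^ (m * t) ∧
      A / (b : ℝ) ^ (m * t) + 1 / (b : ℝ) ^ ((m + 1) * t) ≤ (a : ℝ) / q + l ∧
      volume (Set.Ico (A / (b : ℝ) ^ (m * t)) (A / (b : ℝ) ^ (m * t) + 1 / (b : ℝ) ^ ((m + 1) * t)) ∩
        ⋃ k, Bad n ν θ a q l k) ≤ ENNReal.ofReal (1 / (b : ℝ) ^ ((m + 1) * t) / 20) := by
  classical
  obtain ⟨m', hm'⟩ := exists_pow_lt_of_lt_one (show (0 : ℝ) < 1 / 4 by norm_num) h1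
  have hm'0 : 1 ≤ m' := by
    rcases Nat.eq_zero_or_pos m' with h | h
    · rw [h] at hm'; norm_num at hm'
    · exact h
  refine ⟨(n + 2) * m', Nat.mul_pos (by omega) hm'0, ?_⟩
  intro θ hθ a q hq l hl ha0 ha1 htail hall b hb t0
  obtain ⟨m, hm⟩ : ∃ m, m = (n + 2) * m' := ⟨_, rfl⟩
  rw [← hm]
  have hm1 : 1 ≤ m := by rw [hm]; exact Nat.mul_pos (by omega) hm'0
  obtain ⟨A0, hA0⟩ := k_large n hν hθ hq
  obtain ⟨t1, ht1⟩ := pow_unbounded_of_one_lt (40 / ν ^ A0 + 16 / l) (one_lt_two (α := ℝ))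
  refine ⟨t0 + t1, by omega, ?_⟩
  obtain ⟨t, ht⟩ : ∃ t, t = t0 + t1 := ⟨_, rfl⟩
  rw [← ht]
  obtain ⟨g, hg⟩ : ∃ g, g = Nat.log 2 (b ^ t) := ⟨_, rfl⟩
  have hg1 : 2 ^ g ≤ b ^ t := by rw [hg]; exact Nat.pow_log_le_self _ (by positivity)
  have hg2 : b ^ t < 2 ^ (g + 1) := by rw [hg]; exact Nat.lt_pow_succ_log_self (by norm_num) _
  have hg3 : t1 ≤ g := by
    have h2 : 2 ^ t ≤ b ^ t := Nat.pow_le_pow_left hb _
    have h3 : t < g + 1 := (Nat.pow_lt_pow_iff_right (by norm_num)).1 (h2.trans_lt hg2)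
    omega
  set B : ℝ := (b : ℝ) ^ t with hB
  have hB1 : (2 : ℝ) ^ g ≤ B := by rw [hB]; exact_mod_cast hg1
  have hB2 : B ≤ 2 * 2 ^ g := by
    rw [hB, ← pow_succ']; exact_mod_cast hg2.le
  have hG : (2 : ℝ) ^ t1 ≤ 2 ^ g := pow_le_pow_right₀ (by norm_num) hg3
  have hG1 : (1 : ℝ) ≤ 2 ^ g := one_le_pow₀ (by norm_num)
  have e1 : (b : ℝ) ^ (m * t) = B ^ m := by rw [hB, ← pow_mul, mul_comm]
  have e2 : (b : ℝ) ^ ((m + 1) * t) = B ^ m * B := by rw [hB, ← pow_succ, ← pow_mul, mul_comm]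
  rw [e1, e2]
  set R : ℝ := B ^ m with hR
  have hB0 : 1 ≤ B := by linarith
  have hRB : B ≤ R := le_self_pow₀ hB0 (by omega)
  have hR0 : 0 < R := by linarith
  have hp1 : 0 < 40 / ν ^ A0 := by positivity
  have hp2 : 0 < 16 / l := by positivity
  have hRl : 16 ≤ R * l := by
    rw [← div_le_iff₀ hl]; linarith
  have hRR : 1 / (R * B) ≤ 1 / R := by
    gcongr; nlinarith
  by_contra hcon
  push Not at hcon
  obtain ⟨k1, hk1⟩ : ∃ k1, k1 = m' * g - A0 := ⟨_, rfl⟩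
  obtain ⟨S, hS⟩ : ∃ S : Finset ℤ,
    S = Icc ⌈((a : ℝ) / q + l / 2) * R⌉ ⌊((a : ℝ) / q + 3 * l / 4) * R⌋ := ⟨_, rfl⟩
  have hSc := card_Icc_ge (((a : ℝ) / q + l / 2) * R) (((a : ℝ) / q + 3 * l / 4) * R)
  rw [← hS] at hSc
  have hSm : ∀ A ∈ S, (a : ℝ) / q + l / 2 ≤ A / R ∧ A / R + 1 / R ≤ (a : ℝ) / q + l := by
    intro A hA
    rw [hS, mem_Icc, Int.ceil_le, Int.le_floor, ← le_div_iff₀ hR0, ← div_le_iff₀ hR0] at hA
    refine ⟨hA.1, ?_⟩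
    have : 1 / R ≤ l / 4 := by rw [div_le_div_iff₀ hR0 (by norm_num)]; linarith
    linarith [hA.2]
  have hdisj : ∀ (S' : Finset ℤ) (r : ℝ), r ≤ 1 / R →
      (S' : Set ℤ).PairwiseDisjoint fun A : ℤ => Set.Ico ((A : ℝ) / R) (A / R + r) := by
    intro S' r hr y _ y' _ hne
    rw [Function.onFun, Set.disjoint_left]
    intro z hz hz'
    apply hne
    have b1 : (y : ℝ) / R < ((y' : ℝ) + 1) / R := by rw [add_div]; linarith [hz.1, hz'.2]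
    have b2 : (y' : ℝ) / R < ((y : ℝ) + 1) / R := by rw [add_div]; linarith [hz.2, hz'.1]
    rw [div_lt_div_iff_of_pos_right hR0] at b1 b2
    have b3 : y < y' + 1 := by exact_mod_cast b1
    have b4 : y' < y + 1 := by exact_mod_cast b2
    omega
  obtain ⟨pr, hpr⟩ : ∃ pr : ℤ → Prop, ∀ A, pr A ↔
    Set.Ico ((A : ℝ) / R) (A / R + 1 / R) ⊆ ⋃ k, Bad n ν (2 * θ) a q l k := ⟨_, fun _ => Iff.rfl⟩
  have hc1 := count_le (S.filter pr) (fun A : ℤ => Set.Ico ((A : ℝ) / R) (A / R + 1 / R))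
    (fun _ => measurableSet_Ico) (hdisj _ _ le_rfl) _ (1 / R) _ (by positivity) (by
      intro A hA
      rw [Set.inter_eq_left.2 ((hpr A).1 (mem_filter.1 hA).2), Real.volume_Ico]
      apply le_of_eq; congr 1; ring) hall
  have hc2 := count_le (S.filter fun A => ¬ pr A)
    (fun A : ℤ => Set.Ico ((A : ℝ) / R) (A / R + 1 / (R * B)))
    (fun _ => measurableSet_Ico) (hdisj _ _ hRR) _ (1 / (R * B) / 20) _ (by positivity) (by
      intro A hA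
      obtain ⟨hA1, hA2⟩ := mem_filter.1 hA
      obtain ⟨b1, b2⟩ := hSm A hA1
      refine (hcon A b1 (by linarith)).le.trans (measure_mono ?_)
      rintro x ⟨hx1, hx2⟩
      refine ⟨hx1, ?_⟩
      obtain ⟨k, hk⟩ := Set.mem_iUnion.1 hx2
      have hk2 : dl n ν θ q k < CT n * (2 ^ k * (q : ℝ)) * (1 / R) := by
        by_contra hc
        push Not at hc
        apply hA2
        rw [hpr]
        intro y hy
        refine Set.mem_iUnion.2 ⟨k, bad_spread ha0 ha1 hk ⟨by linarith [hy.1], by linarith [hy.2]⟩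
          ?_ hc⟩
        rw [abs_le]; constructor <;> linarith [hy.1, hy.2, hx1.1, hx1.2]
      have hk3 := hA0 (g * m) k (1 / R) (by
        rw [one_div, inv_mul_le_iff₀ hR0, mul_one, pow_mul, hR]
        gcongr) hk2
      have hk4 : k1 ≤ k := by
        rw [hk1]
        have : m' * g < A0 + k := by
          by_contra hc
          push Not at hc
          have h2 : (n + 2) * (A0 + k) ≤ (n + 2) * (m' * g) := Nat.mul_le_mul_left _ hc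
          rw [hm] at hk3
          nlinarith
        omega
      refine Set.mem_iUnion.2 ⟨k - k1, ?_⟩
      rwa [Nat.sub_add_cancel hk4]) (htail k1)
  have hsum : ((S.filter pr).card : ℝ) + (S.filter fun A => ¬ pr A).card = S.card := by
    exact_mod_cast card_filter_add_card_filter_not pr
  have h2 : ν ^ k1 * ν ^ A0 ≤ (1 / 4) ^ g := by
    rw [← pow_add]
    calc ν ^ (k1 + A0) ≤ ν ^ (m' * g) := pow_le_pow_of_le_one h0.le h1.le (by omega)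
      _ = (ν ^ m') ^ g := pow_mul _ _ _
      _ ≤ _ := by gcongr
  have h3 : ν ^ k1 * (20 * B) ≤ 1 := by
    have h4 : 40 / ν ^ A0 ≤ 2 ^ g := by linarith
    rw [div_le_iff₀ (by positivity)] at h4
    have h5 : (1 / 4 : ℝ) ^ g * (2 ^ g * 2 ^ g) = 1 := by
      rw [← mul_pow, ← mul_pow]; norm_num
    calc ν ^ k1 * (20 * B) ≤ ν ^ k1 * (40 * 2 ^ g) := by gcongr ν ^ k1 * ?_; linarith
      _ ≤ ν ^ k1 * ((2 ^ g * ν ^ A0) * 2 ^ g) := by gcongr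
      _ = (ν ^ k1 * ν ^ A0) * (2 ^ g * 2 ^ g) := by ring
      _ ≤ (1 / 4 : ℝ) ^ g * (2 ^ g * 2 ^ g) := by gcongr
      _ = 1 := h5
  rw [mul_one_div, div_le_iff₀ hR0] at hc1
  have hc3 : ((S.filter fun A => ¬ pr A).card : ℝ) ≤ l / 40 * R := by
    rw [div_div, mul_one_div, div_le_iff₀ (by positivity)] at hc2
    calc _ ≤ _ := hc2
      _ = (ν ^ k1 * (20 * B)) * (l / 40 * R) := by ring
      _ ≤ 1 * (l / 40 * R) := by gcongr
      _ = _ := one_mul _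
  nlinarith

end Pool.Agent.H792Z.MK
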